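import Pool.Agent.MP_ebf3a9_co.H25.Trans

/-!
The asymptotically optimal lower bound.
-/

namespace Pool.Agent.MP_ebf3a9_co.H25

open Set Function

lemma count_bound {d c W s a b Y r ε : ℝ} (hε : 0 < ε) (hs : 1 ≤ s) (hs2 : 64 ≤ ε * s)
    (hr : r * r = d) (hr2 : 96 * s ^ 2 ≤ ε * r) (hsr : s ≤ r) (hW0 : 0 ≤ W) (hW : W ≤ r)
    (ha0 : 0 ≤ a) (ha : s * a ≤ W) (hb0 : 0 ≤ b) (hb : s * b ≤ Y) (hY : Y ≤ W)
    (hm : c * W + 4 * W * Y ≤ (1 - ε / 2) * d) :
    c * W + (2 * s) * (2 * s) * ((a + 1) * (b + 2)) +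
      2 * ((2 * s) * ((a + 1) * (a + 1)) + 2 * s * (W * s)) ≤ d := by
  have hr0 : 0 ≤ r := by linarith
  have e1 : (2 * s) * (2 * s) * ((a + 1) * (b + 2)) ≤ 4 * ((W + s) * (Y + 2 * s)) := by
    have : (2 * s) * (2 * s) * ((a + 1) * (b + 2)) = 4 * ((s * a + s) * (s * b + 2 * s)) := by ring
    rw [this]
    have : 0 ≤ s * b := by positivity
    gcongr
  have e2 : 4 * s * ((a + 1) * (a + 1)) ≤ ε / 4 * d := by
    have h1 : (s * a + s) * (s * a + s) ≤ (2 * r) * (2 * r) := by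
      have : 0 ≤ s * a := by positivity
      gcongr <;> linarith
    refine le_of_mul_le_mul_left ?_ (show 0 < s by linarith)
    have h2 : 64 * d ≤ ε * s * d := by rw [← hr]; gcongr
    nlinarith
  have e3 : 24 * s ^ 2 * r ≤ ε / 4 * d := by rw [← hr]; nlinarith
  have e4 : s * W ≤ s ^ 2 * r := by
    have h1 : s * W ≤ s * r := by gcongr
    nlinarith [mul_nonneg (mul_nonneg (show 0 ≤ s by linarith) hr0) (sub_nonneg.2 hs)]
  have e5 : s * Y ≤ s * W := by gcongr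
  have e6 : s ^ 2 ≤ s ^ 2 * r := by nlinarith
  have e7 : s ^ 2 * W ≤ s ^ 2 * r := by gcongr
  nlinarith

theorem lower_asym {ε : ℝ} (hε : 0 < ε) (hε1 : ε ≤ 1) : ∃ D : ℕ, ∀ d k : ℕ, D ≤ d → k < d →
    Lower d k ((1 - ε) * min ((d : ℝ) / (d - k))
      ((3 * (d - k) + √(9 * (d - k) ^ 2 + 16 * d)) / 8)) := by
  set s : ℕ := ⌈64 / ε⌉₊ with hs
  have hs2 : 64 ≤ ε * s := by
    have := Nat.le_ceil (64 / ε)
    rw [div_le_iff₀ hε] at this; linarith
  have hs1 : (1 : ℝ) ≤ s := by nlinarith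
  set M : ℕ := (2 * s).factorial with hM
  have hM0 : 0 < M := Nat.factorial_pos _
  have hM1 : (1 : ℝ) ≤ M := by exact_mod_cast hM0
  refine ⟨⌈((96 * s ^ 2 + 4 * M) / ε) ^ 2⌉₊, fun d k hd hk => ?_⟩
  have hc0 : (0 : ℝ) < d - k := by rw [sub_pos]; exact_mod_cast hk
  have hd0 : (0 : ℝ) < d := by exact_mod_cast (show 0 < d by omega)
  set E := min ((d : ℝ) / (d - k)) ((3 * (d - k) + √(9 * (d - k) ^ 2 + 16 * d)) / 8) with hE
  have hE0 : 0 < E := lt_min (by positivity) (by positivity)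
  by_cases hA : 2 * d + 2 ≤ (d - k + 1) ^ 2
  · refine (lower_cyclic hk le_rfl (by omega) hA).mono (le_trans ?_ (min_le_left _
      ((3 * (d - k) + √(9 * (d - k) ^ 2 + 16 * d)) / 8)))
    nlinarith
  set c := d - k with hcd
  have hcr : (c : ℝ) = d - k := by rw [hcd, Nat.cast_sub hk.le]
  rw [← hcr] at hE hc0
  set r := √(d : ℝ) with hr
  have hrr : r * r = d := Real.mul_self_sqrt hd0.le
  have hr0 : 0 < r := Real.sqrt_pos.2 hd0
  have hr1 : 96 * s ^ 2 + 4 * M ≤ ε * r := by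
    have := Real.le_sqrt_of_sq_le ((Nat.le_ceil _).trans (Nat.cast_le.2 hd))
    rw [div_le_iff₀ hε] at this; linarith
  have hr2 : ε * r ≤ r := by nlinarith
  have hc2 : (c : ℝ) ≤ 2 * r := by
    have h1 : c * c ≤ 2 * d := by nlinarith
    have h2 : (c : ℝ) * c ≤ 2 * d := by exact_mod_cast h1
    nlinarith
  have hq := Real.sq_sqrt (show (0 : ℝ) ≤ 9 * c ^ 2 + 16 * d by positivity)
  have hq0 := Real.sqrt_nonneg (9 * (c : ℝ) ^ 2 + 16 * d)
  have hq1 : 4 * r ≤ √(9 * (c : ℝ) ^ 2 + 16 * d) := Real.le_sqrt_of_sq_le (by nlinarith)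
  have hq2 : 3 * (c : ℝ) ≤ √(9 * (c : ℝ) ^ 2 + 16 * d) := Real.le_sqrt_of_sq_le (by nlinarith)
  have E1 : r / 2 ≤ E := hE ▸ le_min (by rw [le_div_iff₀ hc0]; nlinarith) (by linarith)
  have E2 : c * E ≤ d := by
    have := min_le_left ((d : ℝ) / c) ((3 * c + √(9 * (c : ℝ) ^ 2 + 16 * d)) / 8)
    rw [← hE, le_div_iff₀ hc0] at this; linarith
  have E3 : E * (4 * E - 3 * c) ≤ d := by
    have := min_le_right ((d : ℝ) / c) ((3 * c + √(9 * (c : ℝ) ^ 2 + 16 * d)) / 8)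
    rw [← hE] at this
    nlinarith [mul_nonneg (show 0 ≤ √(9 * (c : ℝ) ^ 2 + 16 * d) - (8 * E - 3 * c) by linarith)
      (show 0 ≤ √(9 * (c : ℝ) ^ 2 + 16 * d) + (8 * E - 3 * c) by linarith)]
  have E4 : E ≤ r := by
    by_contra h
    push Not at h
    nlinarith
  set X := ⌊(1 - ε / 2) * E⌋₊ with hX
  have hs0 : 0 ≤ (s : ℝ) ^ 2 := by positivity
  have X0 : 1 ≤ (1 - ε / 2) * E := by nlinarith
  have X1 : 1 ≤ X := Nat.le_floor (by simpa using X0)
  have X2 : (X : ℝ) ≤ (1 - ε / 2) * E := Nat.floor_le (by linarith)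
  have X3 : (1 - ε / 2) * E < X + 1 := Nat.lt_floor_add_one _
  set W := M * ((X - 1) / M) + 1 with hW
  have W1 : W ≤ X := by have := Nat.mul_div_le (X - 1) M; omega
  have W2 : X + 1 ≤ W + M := by
    have := Nat.lt_mul_div_succ (X - 1) hM0
    rw [Nat.mul_succ] at this; omega
  have W3 : (W : ℝ) ≤ (1 - ε / 2) * E := le_trans (by exact_mod_cast W1) X2
  have W4 : (X : ℝ) + 1 ≤ W + M := by exact_mod_cast W2
  have W5 : (W : ℝ) ≤ E := by nlinarith
  refine (lower_trans (s := s) (W := W) hk (by exact_mod_cast (show (0 : ℝ) < s by linarith))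
    (by omega) (fun m h1 h2 => ?_) ?_).mono (by nlinarith)
  · obtain ⟨u, hu⟩ := Nat.dvd_factorial h1 h2.le
    rw [hW, hM, hu, mul_assoc]
    simp
  · have := count_bound (d := d) (c := c) (W := W) (s := s) (a := (W / s : ℕ))
      (b := ((W - c) / s : ℕ)) (Y := (W - c : ℕ)) hε hs1 hs2 hrr (by linarith) (by nlinarith)
      (Nat.cast_nonneg _) (W5.trans E4) (Nat.cast_nonneg _)
      (by exact_mod_cast Nat.mul_div_le _ _) (Nat.cast_nonneg _)
      (by exact_mod_cast Nat.mul_div_le _ _) (by exact_mod_cast Nat.sub_le _ _) (by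
        rcases le_total W c with h | h
        · rw [Nat.sub_eq_zero_of_le h]
          have := mul_le_mul_of_nonneg_left W3 hc0.le
          have := mul_le_mul_of_nonneg_left E2 (show 0 ≤ 1 - ε / 2 by linarith)
          simp only [Nat.cast_zero]; nlinarith
        · rw [Nat.cast_sub h]
          have h' : (c : ℝ) ≤ W := by exact_mod_cast h
          have h1 : (W : ℝ) * (4 * W - 3 * c) ≤ ((1 - ε / 2) * E) * (4 * E - 3 * c) := by
            gcongr; linarith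
          have := mul_le_mul_of_nonneg_left E3 (show 0 ≤ 1 - ε / 2 by linarith)
          nlinarith)
    rw [← hcd]
    exact_mod_cast this

end Pool.Agent.MP_ebf3a9_co.H25
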