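import Pool.Agent.MP_ebf3a9_co.H25.Defs

/-!
Lax partitions (children cells may be empty), pruning, and the bridge to `piGen`, `piPerp`.
-/

namespace Pool.Agent.MP_ebf3a9_co.H25

open Set
open scoped ENNReal

variable {d : ℕ}

/-- Number of leaves. -/
def Tree.leaves : Tree d → ℕ
  | .leaf => 1
  | .node _ _ l r => l.leaves + r.leaves

lemma Tree.size_add_one (T : Tree d) : T.size + 1 = 2 * T.leaves := by
  induction T with
  | leaf => simp [Tree.size, Tree.leaves]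
  | node a b l r ihl ihr => simp only [Tree.size, Tree.leaves]; omega

lemma Tree.one_le_leaves (T : Tree d) : 1 ≤ T.leaves := by
  induction T with
  | leaf => simp [Tree.leaves]
  | node a b l r ihl ihr => simp only [Tree.leaves]; omega

lemma Tree.leaves_le_size (T : Tree d) : T.leaves ≤ T.size := by
  have := T.size_add_one; have := T.one_le_leaves; omega

/-- Partition in which cells are allowed to be empty. -/
def Tree.Lax (S : Finset (Set (Fin d → ℝ))) : Tree d → Set (Fin d → ℝ) → Prop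
  | .leaf, C => ∀ r ∈ S, ∀ r' ∈ S, (r ∩ C).Nonempty → (r' ∩ C).Nonempty → r = r'
  | .node a b l r, C => a ≠ 0 ∧
      l.Lax S (C ∩ {x | a ⬝ᵥ x < b}) ∧ r.Lax S (C ∩ {x | b < a ⬝ᵥ x})

lemma Tree.IsBSP.lax {S : Finset (Set (Fin d → ℝ))} {T : Tree d} {C : Set (Fin d → ℝ)}
    (h : T.IsBSP S C) : T.Lax S C := by
  induction T generalizing C with
  | leaf => exact h
  | node a b l r ihl ihr => exact ⟨h.1, ihl h.2.2.2.1, ihr h.2.2.2.2⟩

lemma Tree.Lax.mono {S : Finset (Set (Fin d → ℝ))} {T : Tree d} {C C' : Set (Fin d → ℝ)}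
    (h : T.Lax S C) (hC : C' ⊆ C) : T.Lax S C' := by
  induction T generalizing C C' with
  | leaf =>
    intro r hr r' hr' h1 h2
    exact h r hr r' hr' (h1.mono (inter_subset_inter_right _ hC))
      (h2.mono (inter_subset_inter_right _ hC))
  | node a b l r ihl ihr =>
    exact ⟨h.1, ihl h.2.1 (inter_subset_inter_left _ hC), ihr h.2.2 (inter_subset_inter_left _ hC)⟩

lemma continuous_dot (a : Fin d → ℝ) : Continuous fun x : Fin d → ℝ => a ⬝ᵥ x := by
  unfold dotProduct; fun_prop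

lemma isOpen_lt_dot (a : Fin d → ℝ) (b : ℝ) : IsOpen {x : Fin d → ℝ | b < a ⬝ᵥ x} :=
  isOpen_lt continuous_const (continuous_dot a)

lemma isOpen_dot_lt (a : Fin d → ℝ) (b : ℝ) : IsOpen {x : Fin d → ℝ | a ⬝ᵥ x < b} :=
  isOpen_lt (continuous_dot a) continuous_const

/-- An open set inside a closed half-space lies inside the open half-space. -/
lemma lt_of_open {C : Set (Fin d → ℝ)} (hC : IsOpen C) {a : Fin d → ℝ} (ha : a ≠ 0) {b : ℝ}
    (h : ∀ x ∈ C, b ≤ a ⬝ᵥ x) : ∀ x ∈ C, b < a ⬝ᵥ x := by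
  intro x hx
  have hc : Continuous fun t : ℝ => x - t • a := by fun_prop
  have ho : IsOpen ((fun t : ℝ => x - t • a) ⁻¹' C) := hC.preimage hc
  have h0 : (0 : ℝ) ∈ (fun t : ℝ => x - t • a) ⁻¹' C := by simpa using hx
  obtain ⟨ε, hε, hb⟩ := Metric.isOpen_iff.1 ho 0 h0
  have h1 : x - (ε / 2) • a ∈ C := hb (by
    rw [Metric.mem_ball, Real.dist_eq, sub_zero, abs_of_pos (by linarith)]; linarith)
  have h2 := h _ h1
  have h3 : 0 < a ⬝ᵥ a := by
    rcases (dotProduct_self_star_nonneg a).lt_or_eq with h | h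
    · simpa using h
    · exfalso; apply ha
      have : a ⬝ᵥ a = 0 := by simpa using h.symm
      exact dotProduct_self_eq_zero.1 this
  rw [dotProduct_sub, dotProduct_smul, smul_eq_mul] at h2
  nlinarith

/-- Pruning: a lax partition of an open cell gives a partition with no more leaves. -/
lemma Tree.Lax.prune {S : Finset (Set (Fin d → ℝ))} {T : Tree d} {C : Set (Fin d → ℝ)}
    (h : T.Lax S C) (hT : T.AxisAligned) (hC : IsOpen C) :
    ∃ T' : Tree d, T'.IsBSP S C ∧ T'.AxisAligned ∧ T'.leaves ≤ T.leaves := by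
  induction T generalizing C with
  | leaf => exact ⟨.leaf, h, trivial, le_rfl⟩
  | node a b l r ihl ihr =>
    obtain ⟨ha, hl, hr⟩ := h
    obtain ⟨hax, hxl, hxr⟩ := hT
    obtain ⟨l', hl1, hl2, hl3⟩ := ihl hl hxl (hC.inter (isOpen_dot_lt a b))
    obtain ⟨r', hr1, hr2, hr3⟩ := ihr hr hxr (hC.inter (isOpen_lt_dot a b))
    by_cases h1 : (C ∩ {x | a ⬝ᵥ x < b}).Nonempty
    · by_cases h2 : (C ∩ {x | b < a ⬝ᵥ x}).Nonempty
      · exact ⟨.node a b l' r', ⟨ha, h1, h2, hl1, hr1⟩, ⟨hax, hl2, hr2⟩,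
          by simp only [Tree.leaves]; omega⟩
      · have : C ∩ {x | a ⬝ᵥ x < b} = C := by
          refine inter_eq_left.2 fun x hx => ?_
          have := lt_of_open hC (a := -a) (neg_ne_zero.2 ha) (b := -b) (fun y hy => by
            rw [neg_dotProduct, neg_le_neg_iff]
            by_contra hh
            exact h2 ⟨y, hy, not_le.1 hh⟩) x hx
          rw [neg_dotProduct, neg_lt_neg_iff] at this
          exact this
        rw [this] at hl1
        exact ⟨l', hl1, hl2, by simp only [Tree.leaves]; omega⟩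
    · have : C ∩ {x | b < a ⬝ᵥ x} = C := by
        refine inter_eq_left.2 fun x hx => ?_
        exact lt_of_open hC ha (b := b) (fun y hy => by
            by_contra hh
            exact h1 ⟨y, hy, not_le.1 hh⟩) x hx
      rw [this] at hr1
      exact ⟨r', hr1, hr2, by simp only [Tree.leaves]; omega⟩

/-- The cell `C` has an axis-aligned lax partition for `S` with at most `m` leaves. -/
def Cost (S : Finset (Set (Fin d → ℝ))) (C : Set (Fin d → ℝ)) (m : ℝ) : Prop :=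
  ∃ T : Tree d, T.Lax S C ∧ T.AxisAligned ∧ (T.leaves : ℝ) ≤ m

lemma Cost.mono {S : Finset (Set (Fin d → ℝ))} {C C' : Set (Fin d → ℝ)} {m m' : ℝ}
    (h : Cost S C m) (hC : C' ⊆ C) (hm : m ≤ m') : Cost S C' m' := by
  obtain ⟨T, h1, h2, h3⟩ := h
  exact ⟨T, h1.mono hC, h2, h3.trans hm⟩

lemma Cost.one_le {S : Finset (Set (Fin d → ℝ))} {C : Set (Fin d → ℝ)} {m : ℝ}
    (h : Cost S C m) : 1 ≤ m := by
  obtain ⟨T, -, -, h3⟩ := h
  exact le_trans (by exact_mod_cast T.one_le_leaves) h3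

lemma cost_leaf {S : Finset (Set (Fin d → ℝ))} {C : Set (Fin d → ℝ)}
    (h : ∀ r ∈ S, ∀ r' ∈ S, (r ∩ C).Nonempty → (r' ∩ C).Nonempty → r = r') : Cost S C 1 :=
  ⟨.leaf, h, trivial, by simp [Tree.leaves]⟩

lemma Cost.cut {S : Finset (Set (Fin d → ℝ))} {C : Set (Fin d → ℝ)} (i : Fin d) (b : ℝ)
    {m m' : ℝ} (h : Cost S (C ∩ {x | x i < b}) m) (h' : Cost S (C ∩ {x | b < x i}) m') :
    Cost S C (m + m') := by
  obtain ⟨l, h1, h2, h3⟩ := h
  obtain ⟨r, h4, h5, h6⟩ := h'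
  refine ⟨.node (Pi.single i 1) b l r, ⟨?_, ?_, ?_⟩, ⟨⟨i, 1, rfl⟩, h2, h5⟩, ?_⟩
  · intro h; simpa using congrFun h i
  · simpa [single_dotProduct] using h1
  · simpa [single_dotProduct] using h4
  · simp only [Tree.leaves]; push_cast; linarith

lemma piGen_le_piPerp (d k : ℕ) (α : ℝ) (n : ℕ) : piGen d k α n ≤ piPerp d k α n := by
  unfold piGen piPerp
  refine iSup₂_mono fun S _ => le_iInf₂ fun T hT => iInf₂_le T hT.1

lemma piPerp_le {k : ℕ} {α : ℝ} {n : ℕ} {m : ℝ}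
    (h : ∀ S : Finset (Set (Fin d → ℝ)), IsInstance k α n S → Cost S univ m) :
    (piPerp d k α n : ℝ≥0∞) ≤ ENNReal.ofReal (2 * m) := by
  have key : piPerp d k α n ≤ (⌊2 * m⌋₊ : ℕ∞) := by
    unfold piPerp
    refine iSup₂_le fun S hS => ?_
    obtain ⟨T, h1, h2, h3⟩ := h S hS
    obtain ⟨T', h4, h5, h6⟩ := h1.prune h2 isOpen_univ
    refine (iInf₂_le T' ⟨h4, h5⟩).trans ?_
    have h7 := T'.size_add_one
    have h8 : (T'.size : ℝ) ≤ 2 * m := by
      have : (T'.size : ℝ) + 1 = 2 * T'.leaves := by exact_mod_cast h7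
      have : (T'.leaves : ℝ) ≤ T.leaves := by exact_mod_cast h6
      linarith
    exact_mod_cast Nat.le_floor h8
  calc (piPerp d k α n : ℝ≥0∞) ≤ ((⌊2 * m⌋₊ : ℕ∞) : ℝ≥0∞) := ENat.toENNReal_le.2 key
    _ = ENNReal.ofReal (⌊2 * m⌋₊ : ℝ) := by simp
    _ ≤ ENNReal.ofReal (2 * m) := by
      rcases le_total 0 (2 * m) with h0 | h0
      · exact ENNReal.ofReal_le_ofReal (Nat.floor_le h0)
      · rw [Nat.floor_of_nonpos h0]; simp

lemma le_piGen {k : ℕ} {α : ℝ} {n : ℕ} {m : ℝ} {S : Finset (Set (Fin d → ℝ))}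
    (hS : IsInstance k α n S) (h : ∀ T : Tree d, T.Lax S univ → m ≤ T.leaves) :
    ENNReal.ofReal m ≤ (piGen d k α n : ℝ≥0∞) := by
  have key : (⌈m⌉₊ : ℕ∞) ≤ piGen d k α n := by
    unfold piGen
    refine le_trans ?_ (le_iSup₂ S hS)
    refine le_iInf₂ fun T hT => ?_
    have h1 := h T hT.lax
    have h2 : (T.leaves : ℝ) ≤ T.size := by exact_mod_cast T.leaves_le_size
    exact_mod_cast Nat.ceil_le.2 (h1.trans h2)
  calc ENNReal.ofReal m ≤ ENNReal.ofReal (⌈m⌉₊ : ℝ) := ENNReal.ofReal_le_ofReal (Nat.le_ceil m)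
    _ = ((⌈m⌉₊ : ℕ∞) : ℝ≥0∞) := by simp
    _ ≤ _ := ENat.toENNReal_le.2 key

lemma le_piPerp {k : ℕ} {α : ℝ} {n : ℕ} {m : ℝ} {S : Finset (Set (Fin d → ℝ))}
    (hS : IsInstance k α n S) (h : ∀ T : Tree d, T.Lax S univ → T.AxisAligned → m ≤ T.leaves) :
    ENNReal.ofReal m ≤ (piPerp d k α n : ℝ≥0∞) := by
  have key : (⌈m⌉₊ : ℕ∞) ≤ piPerp d k α n := by
    unfold piPerp
    refine le_trans ?_ (le_iSup₂ S hS)
    refine le_iInf₂ fun T hT => ?_
    have h1 := h T hT.1.lax hT.2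
    have h2 : (T.leaves : ℝ) ≤ T.size := by exact_mod_cast T.leaves_le_size
    exact_mod_cast Nat.ceil_le.2 (h1.trans h2)
  calc ENNReal.ofReal m ≤ ENNReal.ofReal (⌈m⌉₊ : ℝ) := ENNReal.ofReal_le_ofReal (Nat.le_ceil m)
    _ = ((⌈m⌉₊ : ℕ∞) : ℝ≥0∞) := by simp
    _ ≤ _ := ENat.toENNReal_le.2 key

end Pool.Agent.MP_ebf3a9_co.H25
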