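import Pool.Agent.MP_ebf3a9_co.H25.Basic

/-!
Cutting boxes along coordinates: grids and quantile cuts.
-/

namespace Pool.Agent.MP_ebf3a9_co.H25

open Set Function
open scoped Classical

variable {d : ℕ}

/-- The open box. -/
def box (lo hi : Fin d → ℝ) : Set (Fin d → ℝ) := {x | ∀ i, lo i < x i ∧ x i < hi i}

/-- `(lo', hi')` is a nonempty sub-box of `(lo, hi)`. -/
structure Sub (lo hi lo' hi' : Fin d → ℝ) : Prop where
  l : ∀ i, lo i ≤ lo' i
  h : ∀ i, hi' i ≤ hi i
  lt : ∀ i, lo' i < hi' i

lemma Sub.trans {lo hi lo' hi' lo'' hi'' : Fin d → ℝ} (h : Sub lo hi lo' hi')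
    (h' : Sub lo' hi' lo'' hi'') : Sub lo hi lo'' hi'' :=
  ⟨fun i => (h.l i).trans (h'.l i), fun i => (h'.h i).trans (h.h i), h'.lt⟩

lemma Sub.refl {lo hi : Fin d → ℝ} (h : ∀ i, lo i < hi i) : Sub lo hi lo hi :=
  ⟨fun _ => le_rfl, fun _ => le_rfl, h⟩

lemma Sub.subset {lo hi lo' hi' : Fin d → ℝ} (h : Sub lo hi lo' hi') : box lo' hi' ⊆ box lo hi :=
  fun _ hx i => ⟨(h.l i).trans_lt (hx i).1, (hx i).2.trans_le (h.h i)⟩

lemma sub_update {lo hi : Fin d → ℝ} (h : ∀ i, lo i < hi i) (i : Fin d) {a b : ℝ}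
    (ha : lo i ≤ a) (hb : b ≤ hi i) (hab : a < b) : Sub lo hi (update lo i a) (update hi i b) := by
  refine ⟨fun j => ?_, fun j => ?_, fun j => ?_⟩ <;> by_cases hj : j = i
  · subst hj; simpa using ha
  · simp [hj]
  · subst hj; simpa using hb
  · simp [hj]
  · subst hj; simpa using hab
  · simp [hj, h j]

lemma cost_empty {S : Finset (Set (Fin d → ℝ))} {C : Set (Fin d → ℝ)} (h : C = ∅) {m : ℝ}
    (hm : 1 ≤ m) : Cost S C m :=
  (cost_leaf (C := C) (fun r _ r' _ h1 _ => by simp [h] at h1)).mono subset_rfl hm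

lemma cutP {S : Finset (Set (Fin d → ℝ))} (i : Fin d) (P : Finset ℝ) {m : ℝ} (hm : 1 ≤ m)
    (lo hi : Fin d → ℝ)
    (h : ∀ a b, lo i ≤ a → b ≤ hi i → a < b → (∀ p ∈ P, ¬(a < p ∧ p < b)) →
      Cost S (box (update lo i a) (update hi i b)) m) :
    Cost S (box lo hi) ((P.card + 1) * m) := by
  have hne : ∀ lo hi : Fin d → ℝ, ¬ lo i < hi i → box lo hi = ∅ := fun lo hi hh =>
    eq_empty_of_forall_notMem fun x hx => hh ((hx i).1.trans (hx i).2)
  induction P using Finset.induction_on_max generalizing hi with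
  | empty =>
    by_cases hh : lo i < hi i
    · simpa using h (lo i) (hi i) le_rfl le_rfl hh (by simp)
    · exact cost_empty (hne _ _ hh) (by simpa using hm)
  | insert p s hs ih =>
    have hps : p ∉ s := fun hp => lt_irrefl _ (hs p hp)
    have h1 : Cost S (box lo (update hi i (min (hi i) p))) ((s.card + 1) * m) := by
      refine ih _ fun a b ha hb hab hfree => ?_
      simp only [update_self, le_min_iff] at hb
      rw [update_idem]
      refine h a b ha hb.1 hab fun q hq => ?_
      rcases Finset.mem_insert.1 hq with rfl | hq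
      · exact fun hh => absurd hh.2 (not_lt.2 hb.2)
      · exact hfree q hq
    have h2 : Cost S (box (update lo i (max (lo i) p)) hi) m := by
      by_cases hh : max (lo i) p < hi i
      · have := h (max (lo i) p) (hi i) (le_max_left _ _) le_rfl hh fun q hq => by
          have : q ≤ p := by
            rcases Finset.mem_insert.1 hq with rfl | hq
            · exact le_rfl
            · exact (hs q hq).le
          exact fun hh => absurd hh.1 (not_lt.2 (this.trans (le_max_right _ _)))
        simpa using this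
      · exact cost_empty (hne _ _ (by simpa using hh)) hm
    have h3 := Cost.cut (C := box lo hi) i p (h1.mono (fun x hx j => ?_) le_rfl)
      (h2.mono (fun x hx j => ?_) le_rfl)
    · rw [Finset.card_insert_of_notMem hps]
      refine h3.mono subset_rfl (le_of_eq ?_)
      push_cast; ring
    · by_cases hj : j = i
      · subst hj
        simp only [update_self, lt_min_iff]
        exact ⟨(hx.1 j).1, (hx.1 j).2, hx.2⟩
      · simpa [hj] using hx.1 j
    · by_cases hj : j = i
      · subst hj
        simp only [update_self, max_lt_iff]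
        exact ⟨⟨(hx.1 j).1, hx.2⟩, (hx.1 j).2⟩
      · simpa [hj] using hx.1 j

/-- Cutting along a product grid. -/
lemma cutGrid {S : Finset (Set (Fin d → ℝ))} (P : Fin d → Finset ℝ) {m : ℝ} (hm : 1 ≤ m)
    (A : Finset (Fin d)) (lo hi : Fin d → ℝ) (hlh : ∀ i, lo i < hi i)
    (h : ∀ lo' hi', Sub lo hi lo' hi' → (∀ i ∈ A, ∀ p ∈ P i, ¬(lo' i < p ∧ p < hi' i)) →
      Cost S (box lo' hi') m) :
    Cost S (box lo hi) ((∏ i ∈ A, (((P i).card : ℝ) + 1)) * m) := by
  induction A using Finset.induction_on generalizing lo hi with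
  | empty => simpa using h lo hi (Sub.refl hlh) (by simp)
  | insert i A hi' ih =>
    rw [Finset.prod_insert hi', mul_assoc]
    have h1 : (1 : ℝ) ≤ (∏ i ∈ A, (((P i).card : ℝ) + 1)) * m :=
      one_le_mul_of_one_le_of_one_le (Finset.one_le_prod fun j _ => by
        have : (0 : ℝ) ≤ (P j).card := Nat.cast_nonneg _
        linarith) hm
    refine cutP i (P i) h1 lo hi fun a b ha hb hab hfree => ?_
    have hs := sub_update hlh i ha hb hab
    refine ih _ _ hs.lt fun lo' hi'' hs' hA => h lo' hi'' (hs.trans hs') fun j hj p hp => ?_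
    rcases Finset.mem_insert.1 hj with rfl | hj
    · have h2 := hs'.l j
      have h3 := hs'.h j
      simp only [update_self] at h2 h3
      exact fun hh => hfree p hp ⟨h2.trans_lt hh.1, hh.2.trans_le h3⟩
    · exact hA j hj p hp

lemma quant_aux {β : Type*} (v : β → ℝ) (q : ℕ) (m : ℕ) (A : Finset β)
    (hA : A.card ≤ (q + 1) * m) :
    ∃ P : Finset ℝ, P.card ≤ m ∧ ∀ a b : ℝ, (∀ p ∈ P, ¬(a < p ∧ p < b)) →
      (A.filter fun o => a < v o ∧ v o < b).card ≤ q := by
  induction m generalizing A with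
  | zero =>
    refine ⟨∅, le_rfl, fun a b _ => ?_⟩
    have := Finset.card_filter_le A fun o => a < v o ∧ v o < b
    omega
  | succ m ih =>
    by_cases hq : A.card ≤ q
    · exact ⟨∅, by simp, fun a b _ => (Finset.card_filter_le _ _).trans hq⟩
    have hne : A.Nonempty := Finset.card_pos.1 (by omega)
    let B := A.filter fun o => q + 1 ≤ (A.filter fun o' => v o' ≤ v o).card
    have hB : B.Nonempty := by
      obtain ⟨o, ho, hmax⟩ := A.exists_max_image v hne
      refine ⟨o, Finset.mem_filter.2 ⟨ho, ?_⟩⟩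
      rw [Finset.filter_true_of_mem hmax]; omega
    obtain ⟨t, ht, hmin⟩ := B.exists_min_image v hB
    have ht2 := (Finset.mem_filter.1 ht).2
    have hlow : (A.filter fun o => v o < v t).card ≤ q := by
      by_contra hc
      have hne' : (A.filter fun o => v o < v t).Nonempty := Finset.card_pos.1 (by omega)
      obtain ⟨o, ho, hmax⟩ := (A.filter fun o => v o < v t).exists_max_image v hne'
      have ho' := Finset.mem_filter.1 ho
      have : o ∈ B := by
        refine Finset.mem_filter.2 ⟨ho'.1, le_trans (by omega) (Finset.card_le_card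
          (s := A.filter fun o => v o < v t) fun o' ho'' => ?_)⟩
        exact Finset.mem_filter.2 ⟨(Finset.mem_filter.1 ho'').1, hmax o' ho''⟩
      exact absurd (hmin o this) (not_le.2 ho'.2)
    have hsplit := Finset.card_filter_add_card_filter_not (s := A) (fun o' => v o' ≤ v t)
    obtain ⟨P, hP, hP2⟩ := ih (A.filter fun o' => ¬ v o' ≤ v t) (by
      have : (q + 1) * (m + 1) = (q + 1) * m + (q + 1) := by ring
      omega)
    refine ⟨insert (v t) P, (Finset.card_insert_le _ _).trans (by omega), fun a b hfree => ?_⟩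
    have h1 := hfree (v t) (Finset.mem_insert_self _ _)
    by_cases hb : b ≤ v t
    · refine le_trans (Finset.card_le_card fun o ho => ?_) hlow
      have ho' := Finset.mem_filter.1 ho
      exact Finset.mem_filter.2 ⟨ho'.1, ho'.2.2.trans_le hb⟩
    · have ha : v t ≤ a := by
        by_contra ha; exact h1 ⟨not_le.1 ha, not_le.1 hb⟩
      refine le_trans (Finset.card_le_card fun o ho => ?_)
        (hP2 a b fun p hp => hfree p (Finset.mem_insert_of_mem hp))
      have ho' := Finset.mem_filter.1 ho
      exact Finset.mem_filter.2 ⟨Finset.mem_filter.2 ⟨ho'.1, not_le.2 (ha.trans_lt ho'.2.1)⟩, ho'.2⟩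

lemma quant_one {β : Type*} (v : β → ℝ) (r : ℕ) (hr : 1 ≤ r) (A : Finset β) :
    ∃ P : Finset ℝ, P.card ≤ r ∧ ∀ a b : ℝ, (∀ p ∈ P, ¬(a < p ∧ p < b)) →
      (A.filter fun o => a < v o ∧ v o < b).card * r ≤ A.card := by
  obtain ⟨P, hP, h⟩ := quant_aux v (A.card / r) r A (by
    have := Nat.lt_div_mul_add (a := A.card) (b := r) hr
    nlinarith)
  exact ⟨P, hP, fun a b hf => (Nat.mul_le_mul_right r (h a b hf)).trans (Nat.div_mul_le_self _ _)⟩

/-- Nested quantile cuts for several groups of objects. -/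
lemma cutQuant {S : Finset (Set (Fin d → ℝ))} {β G : Type*} [Fintype G] (f : β → Fin d → ℝ)
    (supp : G → Finset (Fin d)) (r : Fin d → ℕ) (hr : ∀ i, 1 ≤ r i) {m : ℝ} (hm : 1 ≤ m)
    (A : Finset (Fin d)) (lo hi : Fin d → ℝ) (hlh : ∀ i, lo i < hi i) (act : G → Finset β)
    (h : ∀ lo' hi', Sub lo hi lo' hi' →
      (∀ g, ((act g).filter fun o => ∀ i ∈ supp g ∩ A, lo' i < f o i ∧ f o i < hi' i).card *
        ∏ i ∈ supp g ∩ A, r i ≤ (act g).card) → Cost S (box lo' hi') m) :
    Cost S (box lo hi) ((∏ i ∈ A, ((Fintype.card G : ℝ) * r i + 1)) * m) := by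
  induction A using Finset.induction_on generalizing lo hi act with
  | empty => simpa using h lo hi (Sub.refl hlh) (by simp)
  | insert i A hi' ih =>
    rw [Finset.prod_insert hi', mul_assoc]
    have h1 : (1 : ℝ) ≤ (∏ i ∈ A, ((Fintype.card G : ℝ) * r i + 1)) * m :=
      one_le_mul_of_one_le_of_one_le (Finset.one_le_prod fun j _ => by
        have : (0 : ℝ) ≤ (Fintype.card G : ℝ) * r j := by positivity
        linarith) hm
    choose P hP hP2 using fun g => quant_one (fun o => f o i) (r i) (hr i) (act g)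
    have hcard : (((Finset.univ.biUnion P).card : ℝ) + 1) ≤ (Fintype.card G : ℝ) * r i + 1 := by
      have : (Finset.univ.biUnion P).card ≤ Fintype.card G * r i := by
        refine Finset.card_biUnion_le.trans ?_
        calc ∑ g, (P g).card ≤ ∑ _g : G, r i := Finset.sum_le_sum fun g _ => hP g
          _ = _ := by simp
      have : ((Finset.univ.biUnion P).card : ℝ) ≤ (Fintype.card G : ℝ) * r i := by
        exact_mod_cast this
      linarith
    refine (cutP i (Finset.univ.biUnion P) h1 lo hi fun a b ha hb hab hfree => ?_).mono subset_rfl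
      (mul_le_mul_of_nonneg_right hcard (by linarith))
    have hs := sub_update hlh i ha hb hab
    refine ih _ _ hs.lt (fun g => if i ∈ supp g then
      (act g).filter (fun o => a < f o i ∧ f o i < b) else act g) fun lo' hi'' hs' hA =>
        h lo' hi'' (hs.trans hs') fun g => ?_
    have h2 := hs'.l i
    have h3 := hs'.h i
    simp only [update_self] at h2 h3
    have h4 := hA g
    by_cases hg : i ∈ supp g
    · simp only [hg, if_true] at h4
      have h5 := hP2 g a b fun p hp => hfree p (Finset.mem_biUnion.2 ⟨g, Finset.mem_univ _, hp⟩)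
      rw [Finset.inter_insert_of_mem hg, Finset.prod_insert (by simp [hi'])]
      have h6 : ((act g).filter fun o => ∀ j ∈ insert i (supp g ∩ A),
          lo' j < f o j ∧ f o j < hi'' j).card ≤
          (((act g).filter (fun o => a < f o i ∧ f o i < b)).filter fun o =>
            ∀ i ∈ supp g ∩ A, lo' i < f o i ∧ f o i < hi'' i).card := by
        refine Finset.card_le_card fun o ho => ?_
        have ho' := Finset.mem_filter.1 ho
        have h7 := ho'.2 i (Finset.mem_insert_self _ _)
        exact Finset.mem_filter.2 ⟨Finset.mem_filter.2 ⟨ho'.1, h2.trans_lt h7.1,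
          h7.2.trans_le h3⟩, fun j hj => ho'.2 j (Finset.mem_insert_of_mem hj)⟩
      calc _ ≤ (((act g).filter (fun o => a < f o i ∧ f o i < b)).filter fun o =>
            ∀ i ∈ supp g ∩ A, lo' i < f o i ∧ f o i < hi'' i).card *
              (r i * ∏ i ∈ supp g ∩ A, r i) := Nat.mul_le_mul_right _ h6
        _ = ((((act g).filter (fun o => a < f o i ∧ f o i < b)).filter fun o =>
            ∀ i ∈ supp g ∩ A, lo' i < f o i ∧ f o i < hi'' i).card *
              ∏ i ∈ supp g ∩ A, r i) * r i := by ring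
        _ ≤ _ := (Nat.mul_le_mul_right _ h4).trans h5
    · simp only [hg, if_false] at h4
      rw [Finset.inter_insert_of_notMem hg]
      exact h4

/-- Reduction to a bounding box. -/
lemma cost_univ {S : Finset (Set (Fin d → ℝ))} {lo hi : Fin d → ℝ}
    (hS : ∀ r ∈ S, r ⊆ box lo hi) {m : ℝ} (h : Cost S (box lo hi) m) :
    Cost S univ (m + 2 * d) := by
  have key : ∀ A : Finset (Fin d),
      Cost S {x | ∀ i, i ∉ A → lo i < x i ∧ x i < hi i} (m + 2 * A.card) := by
    intro A
    induction A using Finset.induction_on with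
    | empty => simpa [box] using h
    | insert i A hi' ih =>
      set C : Set (Fin d → ℝ) := {x | ∀ j, j ∉ insert i A → lo j < x j ∧ x j < hi j}
      have e1 : Cost S (C ∩ {x | x i < lo i}) 1 := cost_leaf fun r hr r' _ h1 _ => by
        obtain ⟨x, hx, -, hx2⟩ := h1
        exact absurd (hS r hr hx i).1 (not_lt.2 (le_of_lt hx2))
      have e2 : Cost S ((C ∩ {x | lo i < x i}) ∩ {x | hi i < x i}) 1 :=
        cost_leaf fun r hr r' _ h1 _ => by
          obtain ⟨x, hx, -, hx2⟩ := h1
          exact absurd (hS r hr hx i).2 (not_lt.2 (le_of_lt hx2))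
      have e3 : Cost S ((C ∩ {x | lo i < x i}) ∩ {x | x i < hi i}) (m + 2 * A.card) :=
        ih.mono (fun x hx j hj => by
          by_cases hji : j = i
          · subst hji; exact ⟨hx.1.2, hx.2⟩
          · exact hx.1.1 j (by simp [hji, hj])) le_rfl
      refine (Cost.cut i (lo i) e1 (Cost.cut i (hi i) e3 e2)).mono subset_rfl (le_of_eq ?_)
      rw [Finset.card_insert_of_notMem hi']; push_cast; ring
  simpa using key Finset.univ

lemma exists_bbox (S : Finset (Set (Fin d → ℝ))) (L U : Set (Fin d → ℝ) → Fin d → ℝ)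
    (hS : ∀ r ∈ S, r = Icc (L r) (U r)) :
    ∃ lo hi : Fin d → ℝ, (∀ i, lo i < hi i) ∧ ∀ r ∈ S, r ⊆ box lo hi := by
  refine ⟨fun i => -(1 + ∑ r ∈ S, |L r i|), fun i => 1 + ∑ r ∈ S, |U r i|, fun i => ?_,
    fun r hr x hx i => ?_⟩
  · have h1 : 0 ≤ ∑ r ∈ S, |L r i| := Finset.sum_nonneg fun _ _ => abs_nonneg _
    have h2 : 0 ≤ ∑ r ∈ S, |U r i| := Finset.sum_nonneg fun _ _ => abs_nonneg _
    linarith
  · rw [hS r hr] at hx
    have h1 : |L r i| ≤ ∑ r ∈ S, |L r i| :=
      Finset.single_le_sum (f := fun r => |L r i|) (fun _ _ => abs_nonneg _) hr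
    have h2 : |U r i| ≤ ∑ r ∈ S, |U r i| :=
      Finset.single_le_sum (f := fun r => |U r i|) (fun _ _ => abs_nonneg _) hr
    have h3 := hx.1 i
    have h4 := hx.2 i
    constructor
    · linarith [neg_abs_le (L r i)]
    · linarith [le_abs_self (U r i)]

end Pool.Agent.MP_ebf3a9_co.H25
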