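import Mathlib

/-!
Binary space partitions for axis-aligned flats: definitions.
-/

namespace Pool.Agent.MP_ebf3a9_co.H25

open Set

/-- `r` is an `α`-fat axis-aligned `k`-flat of `ℝ^d`: a box `∏ [lo i, hi i]` in which exactly `k`
factors have positive length (the others are points), and every extent is at most `α` times every
other extent. -/
def IsFatFlat {d : ℕ} (k : ℕ) (α : ℝ) (r : Set (Fin d → ℝ)) : Prop :=
  ∃ lo hi : Fin d → ℝ, (∀ i, lo i ≤ hi i) ∧ r = Icc lo hi ∧
    (Finset.univ.filter fun i => lo i < hi i).card = k ∧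
    ∀ i j, lo i < hi i → lo j < hi j → hi i - lo i ≤ α * (hi j - lo j)

/-- Rooted binary trees whose internal nodes carry a hyperplane `a ⬝ᵥ x = b`. -/
inductive Tree (d : ℕ) : Type where
  | leaf : Tree d
  | node (a : Fin d → ℝ) (b : ℝ) (l r : Tree d) : Tree d

/-- The number of nodes (internal nodes and leaves). -/
def Tree.size {d : ℕ} : Tree d → ℕ
  | .leaf => 1
  | .node _ _ l r => l.size + r.size + 1

/-- The tree, with `C` as the cell of its root, is a binary space partition for the objects in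
`S`: the hyperplane of an internal node splits its cell into the two nonempty open half-space cells
of its children, and the cell of a leaf meets at most one object. -/
def Tree.IsBSP {d : ℕ} (S : Finset (Set (Fin d → ℝ))) : Tree d → Set (Fin d → ℝ) → Prop
  | .leaf, C => ∀ r ∈ S, ∀ r' ∈ S, (r ∩ C).Nonempty → (r' ∩ C).Nonempty → r = r'
  | .node a b l r, C => a ≠ 0 ∧ (C ∩ {x | a ⬝ᵥ x < b}).Nonempty ∧
      (C ∩ {x | b < a ⬝ᵥ x}).Nonempty ∧
      l.IsBSP S (C ∩ {x | a ⬝ᵥ x < b}) ∧ r.IsBSP S (C ∩ {x | b < a ⬝ᵥ x})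

/-- Every splitting hyperplane is orthogonal to a coordinate axis. -/
def Tree.AxisAligned {d : ℕ} : Tree d → Prop
  | .leaf => True
  | .node a _ l r => (∃ (i : Fin d) (t : ℝ), a = Pi.single i t) ∧ l.AxisAligned ∧ r.AxisAligned

/-- `S` is a set of `n` pairwise disjoint `α`-fat axis-aligned `k`-flats. -/
def IsInstance {d : ℕ} (k : ℕ) (α : ℝ) (n : ℕ) (S : Finset (Set (Fin d → ℝ))) : Prop :=
  S.card = n ∧ (∀ r ∈ S, IsFatFlat k α r) ∧ ∀ r ∈ S, ∀ r' ∈ S, r ≠ r' → Disjoint r r'

/-- The partition complexity: the maximum over all instances with `n` flats of the least size of a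
binary space partition. -/
noncomputable def piGen (d k : ℕ) (α : ℝ) (n : ℕ) : ℕ∞ :=
  ⨆ (S : Finset (Set (Fin d → ℝ))) (_ : IsInstance k α n S),
    ⨅ (T : Tree d) (_ : T.IsBSP S univ), (T.size : ℕ∞)

/-- The axis-aligned partition complexity: the same with axis-aligned partitions only. -/
noncomputable def piPerp (d k : ℕ) (α : ℝ) (n : ℕ) : ℕ∞ :=
  ⨆ (S : Finset (Set (Fin d → ℝ))) (_ : IsInstance k α n S),
    ⨅ (T : Tree d) (_ : T.IsBSP S univ ∧ T.AxisAligned), (T.size : ℕ∞)

/-- There is a family of pairwise intersecting `c`-element subsets of a `d`-element set with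
nonnegative weights such that the sets containing any given point have total weight one. -/
def HasPerfectFamily (d c : ℕ) : Prop :=
  ∃ (F : Finset (Finset (Fin d))) (w : Finset (Fin d) → ℝ), (∀ A ∈ F, A.card = c) ∧
    (∀ A ∈ F, ∀ B ∈ F, (A ∩ B).Nonempty) ∧ (∀ A ∈ F, 0 ≤ w A) ∧
    ∀ i : Fin d, ∑ A ∈ F with i ∈ A, w A = 1

end Pool.Agent.MP_ebf3a9_co.H25
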