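import Pool.Agent.MP_ebf3a9_co.H25.UpperA

/-!
The status of an interval relative to the range of a cell, and the separation step.
-/

namespace Pool.Agent.MP_ebf3a9_co.H25

open Set Function
open scoped Classical

/-- Status of a coordinate: constant, thin, reaching up, reaching down, full. -/
inductive St : Type where
  | C | T | P | M | F
  deriving DecidableEq, Fintype

/-- Status of `[a, b]` relative to the range `(lo, hi)`. -/
noncomputable def st (a b lo hi : ℝ) : St :=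
  if a = b then .C else if lo < a then (if b < hi then .T else .P) else (if b < hi then .M else .F)

/-- Rank of a status. -/
def St.rank : St → ℕ
  | .C => 2 | .T => 2 | .P => 1 | .M => 1 | .F => 0

lemma st_mono {a b lo hi lo' hi' : ℝ} (h1 : lo ≤ lo') (h2 : hi' ≤ hi) :
    st a b lo' hi' = st a b lo hi ∨ (st a b lo' hi').rank < (st a b lo hi).rank := by
  unfold st
  by_cases e : a = b
  · simp [e]
  by_cases e1 : lo' < a <;> by_cases e2 : b < hi' <;> by_cases e3 : lo < a <;>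
    by_cases e4 : b < hi <;> simp [e, e1, e2, e3, e4, St.rank] <;> linarith

/-- The status is constant or thin. -/
def St.thin (s : St) : Prop := s = .C ∨ s = .T

/-- An interval of status `s` can lie above one of status `s'`. -/
def St.above (s s' : St) : Prop := (s = .C ∨ s = .T ∨ s = .P) ∧ (s' = .C ∨ s' = .T ∨ s' = .M)

/-- Two intervals with these statuses can be disjoint. -/
def St.sep (s s' : St) : Prop := s.above s' ∨ s'.above s

instance (s : St) : Decidable s.thin := by unfold St.thin; infer_instance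
instance (s s' : St) : Decidable (s.above s') := by unfold St.above; infer_instance
instance (s s' : St) : Decidable (s.sep s') := by unfold St.sep; infer_instance

variable {d : ℕ}

/-- Compatible status vectors. -/
def Compat (σ σ' : Fin d → St) : Prop :=
  (∃ i, (σ i).thin ∧ (σ' i).thin) ∨ ∃ i j, i ≠ j ∧ (σ i).sep (σ' i) ∧ (σ j).sep (σ' j)

/-- Every compatible family of status vectors has a fractional cover of weight at most `τ`. -/
def Covered (d k : ℕ) (τ : ℝ) : Prop :=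
  ∀ (ρ : Fin d → ℝ) (A : Finset (Fin d → St)),
    (∀ σ ∈ A, (Finset.univ.filter fun i => σ i = .C).card = d - k) →
    (∀ σ ∈ A, ∀ i j, σ i = .T → σ j = .F → ρ j < ρ i) →
    (∀ σ ∈ A, ∀ σ' ∈ A, Compat σ σ') →
    ∃ x : Fin d → ℝ, (∀ i, 0 ≤ x i) ∧ ∑ i, x i ≤ τ ∧
      ∀ σ ∈ A, 1 ≤ ∑ i ∈ Finset.univ.filter fun i => σ i ≠ .F, x i

variable {k : ℕ} {α : ℝ} {S : Finset (Set (Fin d → ℝ))} {L U : Set (Fin d → ℝ) → Fin d → ℝ}

/-- The status vector of an object relative to a box. -/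
noncomputable def sv (L U : Set (Fin d → ℝ) → Fin d → ℝ) (lo hi : Fin d → ℝ)
    (r : Set (Fin d → ℝ)) : Fin d → St := fun i => st (L r i) (U r i) (lo i) (hi i)

lemma above_of_lt {a b a' b' lo hi : ℝ} (h3 : a < hi) (h4 : lo < b') (h : b' < a) :
    (st a b lo hi).above (st a' b' lo hi) := by
  unfold st St.above
  have e1 : lo < a := h4.trans h
  have e2 : b' < hi := h.trans h3
  constructor
  · by_cases e : a = b <;> by_cases e' : b < hi <;> simp [e, e', e1]
  · by_cases e : a' = b' <;> by_cases e' : lo < a' <;> simp [e, e', e2]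

lemma Data.exists_sep (h : Data k α S L U) {r r' : Set (Fin d → ℝ)} (hr : r ∈ S) (hr' : r' ∈ S)
    (hd : Disjoint r r') : ∃ i, U r' i < L r i ∨ U r i < L r' i := by
  by_contra hc
  push Not at hc
  refine (Set.disjoint_left.1 hd : ∀ ⦃a⦄, a ∈ r → a ∉ r')
    (a := fun i => max (L r i) (L r' i)) ?_ ?_
  · exact (h.eq r hr).ge ⟨fun i => le_max_left _ _, fun i => max_le (h.le r hr i) (hc i).2⟩
  · exact (h.eq r' hr').ge ⟨fun i => le_max_right _ _, fun i => max_le (hc i).1 (h.le r' hr' i)⟩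

lemma above_both {s s' : St} (h : s.above s') (h' : s'.above s) : s.thin ∧ s'.thin := by
  revert s s'; decide

/-- Incompatible statuses are separated by one cut. -/
lemma Data.sep_cut (h : Data k α S L U) (hd : ∀ r ∈ S, ∀ r' ∈ S, r ≠ r' → Disjoint r r')
    (hk : k < d) {lo hi : Fin d → ℝ} {O : Finset (Set (Fin d → ℝ))} (hO : O ⊆ S)
    (hm : ∀ r ∈ O, (r ∩ box lo hi).Nonempty) {σ σ' : Fin d → St}
    (hσ : σ ∈ O.image (sv L U lo hi)) (hσ' : σ' ∈ O.image (sv L U lo hi))
    (hc : ¬ Compat σ σ') :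
    ∃ (i : Fin d) (b : ℝ) (τ τ' : Fin d → St), τ ∈ O.image (sv L U lo hi) ∧
      τ' ∈ O.image (sv L U lo hi) ∧ (∀ r ∈ O, sv L U lo hi r = τ → b < L r i) ∧
      (∀ r ∈ O, sv L U lo hi r = τ' → U r i ≤ b) := by
  have hne : σ ≠ σ' := by
    rintro rfl
    obtain ⟨r, hr, rfl⟩ := Finset.mem_image.1 hσ
    obtain ⟨i, hi0⟩ : (Finset.univ.filter fun i => L r i = U r i).Nonempty :=
      Finset.card_pos.1 (by rw [h.card_const (hO hr)]; omega)
    have hi' := (Finset.mem_filter.1 hi0).2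
    have : sv L U lo hi r i = .C := if_pos hi'
    exact hc (Or.inl ⟨i, Or.inl this, Or.inl this⟩)
  have key : ∀ r ∈ O, ∀ r' ∈ O, sv L U lo hi r = σ → sv L U lo hi r' = σ' →
      ∃ i, (U r' i < L r i ∧ (σ i).above (σ' i)) ∨ (U r i < L r' i ∧ (σ' i).above (σ i)) := by
    intro r hr r' hr' e e'
    obtain ⟨i, hi0⟩ := h.exists_sep (hO hr) (hO hr') (hd r (hO hr) r' (hO hr') (by
      rintro rfl; exact hne (e.symm.trans e')))
    have m1 := h.meets (hO hr) (hm r hr) i
    have m2 := h.meets (hO hr') (hm r' hr') i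
    refine ⟨i, hi0.imp (fun hh => ⟨hh, ?_⟩) fun hh => ⟨hh, ?_⟩⟩
    · rw [← e, ← e']; exact above_of_lt m1.1 m2.2 hh
    · rw [← e, ← e']; exact above_of_lt m2.1 m1.2 hh
  obtain ⟨r₀, hr₀, e₀⟩ := Finset.mem_image.1 hσ
  obtain ⟨r₁, hr₁, e₁⟩ := Finset.mem_image.1 hσ'
  obtain ⟨i, hi0⟩ := key r₀ hr₀ r₁ hr₁ e₀ e₁
  have huniq : ∀ j, (σ j).sep (σ' j) → j = i := by
    intro j hj
    by_contra hji
    exact hc (Or.inr ⟨j, i, hji, hj, hi0.imp (fun h => h.2) fun h => h.2⟩)
  have hnt : ¬ ((σ i).thin ∧ (σ' i).thin) := fun hh => hc (Or.inl ⟨i, hh⟩)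
  rcases hi0 with hi0 | hi0
  · obtain ⟨t, ht, hmax⟩ := (O.filter fun r => sv L U lo hi r = σ').exists_max_image
      (fun r => U r i) ⟨r₁, Finset.mem_filter.2 ⟨hr₁, e₁⟩⟩
    have ht' := Finset.mem_filter.1 ht
    refine ⟨i, U t i, σ, σ', hσ, hσ', fun r hr e => ?_,
      fun r hr e => hmax r (Finset.mem_filter.2 ⟨hr, e⟩)⟩
    obtain ⟨j, hj⟩ := key r hr t ht'.1 e ht'.2
    obtain rfl := huniq j (hj.imp (fun h => h.2) fun h => h.2)
    rcases hj with hj | hj
    · exact hj.1
    · exact absurd (above_both hi0.2 hj.2) hnt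
  · obtain ⟨t, ht, hmax⟩ := (O.filter fun r => sv L U lo hi r = σ).exists_max_image
      (fun r => U r i) ⟨r₀, Finset.mem_filter.2 ⟨hr₀, e₀⟩⟩
    have ht' := Finset.mem_filter.1 ht
    refine ⟨i, U t i, σ', σ, hσ', hσ, fun r hr e => ?_,
      fun r hr e => hmax r (Finset.mem_filter.2 ⟨hr, e⟩)⟩
    obtain ⟨j, hj⟩ := key t ht'.1 r hr ht'.2 e
    obtain rfl := huniq j (hj.imp (fun h => h.2) fun h => h.2)
    rcases hj with hj | hj
    · exact absurd (above_both hj.2 hi0.2) hnt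
    · exact hj.1

/-- The objects of `O` that meet a box. -/
noncomputable def meet (O : Finset (Set (Fin d → ℝ))) (lo hi : Fin d → ℝ) :
    Finset (Set (Fin d → ℝ)) := O.filter fun r => (r ∩ box lo hi).Nonempty

lemma meet_mono (O : Finset (Set (Fin d → ℝ))) {lo hi lo' hi' : Fin d → ℝ}
    (h : Sub lo hi lo' hi') : meet O lo' hi' ⊆ meet O lo hi := fun _ hr =>
  Finset.mem_filter.2 ⟨(Finset.mem_filter.1 hr).1,
    (Finset.mem_filter.1 hr).2.mono (inter_subset_inter_right _ h.subset)⟩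

/-- The separation step. -/
lemma Data.separate (h : Data k α S L U) (hd : ∀ r ∈ S, ∀ r' ∈ S, r ≠ r' → Disjoint r r')
    (hk : k < d) {lo hi : Fin d → ℝ} {O : Finset (Set (Fin d → ℝ))} (hO : O ⊆ S)
    {m : ℝ} (hm : 1 ≤ m) (N : ℕ) (lo₁ hi₁ : Fin d → ℝ) (hs : Sub lo hi lo₁ hi₁)
    (hN : ((meet O lo₁ hi₁).image (sv L U lo hi)).card ≤ N)
    (hcont : ∀ lo₂ hi₂, Sub lo₁ hi₁ lo₂ hi₂ →
      (∀ σ ∈ (meet O lo₂ hi₂).image (sv L U lo hi), ∀ σ' ∈ (meet O lo₂ hi₂).image (sv L U lo hi),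
        Compat σ σ') → Cost S (box lo₂ hi₂) m) :
    Cost S (box lo₁ hi₁) (2 ^ N * m) := by
  induction N generalizing lo₁ hi₁ with
  | zero =>
    have : (meet O lo₁ hi₁).image (sv L U lo hi) = ∅ := Finset.card_eq_zero.1 (by omega)
    simpa using hcont lo₁ hi₁ (Sub.refl hs.lt) (by simp [this])
  | succ N ih =>
    have h2N : (1 : ℝ) ≤ 2 ^ N := one_le_pow₀ one_le_two
    by_cases hc : ∀ σ ∈ (meet O lo₁ hi₁).image (sv L U lo hi),
        ∀ σ' ∈ (meet O lo₁ hi₁).image (sv L U lo hi), Compat σ σ'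
    · refine (hcont lo₁ hi₁ (Sub.refl hs.lt) hc).mono subset_rfl ?_
      have : (1 : ℝ) ≤ 2 ^ (N + 1) := one_le_pow₀ one_le_two
      nlinarith
    push Not at hc
    obtain ⟨σ, hσ, σ', hσ', hc⟩ := hc
    obtain ⟨i, b, τ, τ', hτ, hτ', h1, h2⟩ := h.sep_cut hd hk (O := meet O lo₁ hi₁)
      ((Finset.filter_subset _ _).trans hO)
      (fun r hr => (Finset.mem_filter.1 hr).2.mono (inter_subset_inter_right _ hs.subset))
      hσ hσ' hc
    refine (cutP i {b} (m := 2 ^ N * m) (one_le_mul_of_one_le_of_one_le h2N hm) lo₁ hi₁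
      fun a b' ha hb hab hfree => ?_).mono subset_rfl (le_of_eq (by simp; ring))
    have hs' := sub_update hs.lt i ha hb hab
    refine ih _ _ (hs.trans hs') ?_ fun lo₂ hi₂ hs₂ => hcont lo₂ hi₂ (hs'.trans hs₂)
    have hsub := Finset.image_subset_image (f := sv L U lo hi) (meet_mono O hs')
    have key : ∀ υ ∈ (meet O lo₁ hi₁).image (sv L U lo hi),
        υ ∉ (meet O (update lo₁ i a) (update hi₁ i b')).image (sv L U lo hi) →
        ((meet O (update lo₁ i a) (update hi₁ i b')).image (sv L U lo hi)).card ≤ N := by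
      intro υ hυ hυ'
      have := Finset.card_lt_card (Finset.ssubset_iff_subset_ne.2 ⟨hsub, fun e => hυ' (e ▸ hυ)⟩)
      omega
    have hf := hfree b (Finset.mem_singleton_self _)
    by_cases hb' : b' ≤ b
    · refine key τ hτ fun hh => ?_
      obtain ⟨r, hr, e⟩ := Finset.mem_image.1 hh
      have hr' := Finset.mem_filter.1 hr
      have := (h.meets (hO hr'.1) hr'.2 i).1
      simp only [update_self] at this
      linarith [h1 r (meet_mono O hs' hr) e]
    · refine key τ' hτ' fun hh => ?_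
      obtain ⟨r, hr, e⟩ := Finset.mem_image.1 hh
      have hr' := Finset.mem_filter.1 hr
      have := (h.meets (hO hr'.1) hr'.2 i).2
      simp only [update_self] at this
      have hba : b ≤ a := by
        by_contra hba; exact hf ⟨not_le.1 hba, not_le.1 hb'⟩
      linarith [h2 r (meet_mono O hs' hr) e]

end Pool.Agent.MP_ebf3a9_co.H25
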