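import Pool.Agent.MP_ebf3a9_co.H25.Net
import Pool.Agent.MP_ebf3a9_co.H25.Status

/-!
Combinatorial designs of fat flats, their geometric realization, and the lower bound.
-/

namespace Pool.Agent.MP_ebf3a9_co.H25

open Set Function MeasureTheory
open scoped Classical ENNReal

variable {d : ℕ}

lemma exists_generic {A : Type*} [Fintype A] (b : A → Fin d → ℝ) {δ : ℝ} (hδ : 0 < δ) :
    ∃ p : A → Fin d → ℝ, (∀ a i, |p a i - b a i| ≤ δ) ∧
      ∃ γ : ℝ, 0 < γ ∧ γ ≤ 1 ∧ ∀ a a', a ≠ a' → ∀ i, γ ≤ |p a i - p a' i| := by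
  let e := Fintype.equivFin A
  have hc : (0 : ℝ) < Fintype.card A + 1 := by positivity
  obtain ⟨t, ht, htn⟩ := (Set.Ioo_infinite (show (0 : ℝ) < δ / (Fintype.card A + 1) by
    positivity)).exists_notMem_finset (Finset.univ.image fun q : A × A × Fin d =>
      (b q.2.1 q.2.2 - b q.1 q.2.2) / (((e q.1 : ℕ) : ℝ) - (e q.2.1 : ℕ)))
  have hne : ∀ a a', a ≠ a' → ∀ i, b a i + (e a : ℕ) * t ≠ b a' i + (e a' : ℕ) * t := by
    intro a a' h i hh
    have h1 : (((e a : ℕ) : ℝ) - (e a' : ℕ)) ≠ 0 := by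
      rw [sub_ne_zero]
      exact fun h2 => h (e.injective (Fin.ext (by exact_mod_cast h2)))
    refine htn (Finset.mem_image.2 ⟨(a, a', i), Finset.mem_univ _, ?_⟩)
    rw [div_eq_iff h1]; linarith
  refine ⟨fun a i => b a i + (e a : ℕ) * t, fun a i => ?_, ?_⟩
  · have h1 : ((e a : ℕ) : ℝ) ≤ Fintype.card A := by exact_mod_cast (e a).2.le
    have h2 := ht.2
    rw [lt_div_iff₀ hc] at h2
    rw [add_sub_cancel_left, abs_of_nonneg (mul_nonneg (Nat.cast_nonneg _) ht.1.le)]
    nlinarith [ht.1]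
  · let B := (Finset.univ.filter fun q : A × A × Fin d => q.1 ≠ q.2.1).image fun q =>
      |(b q.1 q.2.2 + (e q.1 : ℕ) * t) - (b q.2.1 q.2.2 + (e q.2.1 : ℕ) * t)|
    refine ⟨(insert 1 B).min' (Finset.insert_nonempty _ _), ?_,
      Finset.min'_le _ _ (Finset.mem_insert_self _ _), fun a a' h i =>
        Finset.min'_le _ _ (Finset.mem_insert_of_mem (Finset.mem_image.2
          ⟨(a, a', i), Finset.mem_filter.2 ⟨Finset.mem_univ _, h⟩, rfl⟩))⟩
    rw [Finset.lt_min'_iff]
    intro y hy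
    rcases Finset.mem_insert.1 hy with rfl | hy
    · exact one_pos
    · obtain ⟨q, hq, rfl⟩ := Finset.mem_image.1 hy
      exact abs_pos.2 (sub_ne_zero.2 (hne _ _ (Finset.mem_filter.1 hq).2 _))

/-- Combinatorial data for a family of types of fat flats. -/
structure Design {ι J : Type} [Fintype ι] (c : ℕ) (S : J → Finset ι) (s : J → ι → St)
    (Z : ι → Prop) (y : ι → ι) (top : ι → Prop) (low : J → Prop) : Prop where
  card : ∀ j, (Finset.univ.filter fun i => s j i = .C).card = c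
  yZ : ∀ i, Z i → ¬ Z (y i) ∧ ¬ top i ∧ ¬ top (y i)
  mem : ∀ j i, ¬ Z i → s j i ≠ .F → i ∈ S j
  memZ : ∀ j i, Z i → s j i = .F ∨ ((s j i = .P ∨ s j i = .M) ∧ y i ∈ S j)
  full : ∀ j i, low j → s j i = .F → ¬ top i
  thin : ∀ j i, s j i = .T → low j ∧ top i
  pair : ∀ j j', (∃ i, (s j i).thin ∧ (s j' i).thin) ∨
    (∃ z, Z z ∧ ((s j (y z) = .C ∨ s j (y z) = .P) ∧ s j z = .P) ∧
      ((s j' (y z) = .C ∨ s j' (y z) = .M) ∧ s j' z = .M)) ∨
    (∃ z, Z z ∧ ((s j' (y z) = .C ∨ s j' (y z) = .P) ∧ s j' z = .P) ∧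
      ((s j (y z) = .C ∨ s j (y z) = .M) ∧ s j z = .M))

/-- Lower end of the interval with a given status. -/
noncomputable def St.lo (v v' l : ℝ) : St → ℝ
  | .C => v | .T => v | .P => v | .M => v' - l | .F => -l / 2

/-- Upper end of the interval with a given status. -/
noncomputable def St.hi (v v' l : ℝ) : St → ℝ
  | .C => v | .T => v + l | .P => v + l | .M => v' | .F => l / 2

lemma St.hi_sub_lo (v v' l : ℝ) (s : St) :
    s.hi v v' l - s.lo v v' l = if s = .C then 0 else l := by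
  cases s <;> simp [St.hi, St.lo]; ring

lemma Design.realize {J : Type} {k : ℕ} (hk : k ≤ d) {S : J → Finset (Fin d)}
    {s : J → Fin d → St} {Z : Fin d → Prop} {y : Fin d → Fin d} {top : Fin d → Prop}
    {low : J → Prop} (h : Design (d - k) S s Z y top low) {α : ℝ} (hα : 1 ≤ α)
    {A : Type*} (ty : A → J) (p : A → Fin d → ℝ) {γ : ℝ} (hγ : 0 < γ) (hγ1 : γ ≤ 1)
    (hp : ∀ a a', a ≠ a' → ∀ i, γ ≤ |p a i - p a' i|) :
    ∃ (Φ : (Fin d → ℝ) →ₗ[ℝ] (Fin d → ℝ)) (obj : A → Set (Fin d → ℝ)), Surjective Φ ∧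
      (∀ a, IsFatFlat k α (obj a)) ∧ (∀ a a', a ≠ a' → Disjoint (obj a) (obj a')) ∧
      ∀ a x, x ∈ cube d → (∀ i ∈ S (ty a), x i = p a i) → Φ x ∈ obj a := by
  let ρ : Fin d → ℝ := fun i => if top i then 1 else γ / 4
  have hρ : ∀ i, 0 < ρ i := fun i => by simp only [ρ]; split_ifs <;> linarith
  let l : J → ℝ := fun j => if low j then γ / 2 else 2
  have hl : ∀ j, γ / 2 ≤ l j := fun j => by simp only [l]; split_ifs <;> linarith
  let Φ : (Fin d → ℝ) →ₗ[ℝ] (Fin d → ℝ) :=
    { toFun := fun x i => if Z i then γ / 4 * (γ / 2 * x i - x (y i)) else ρ i * x i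
      map_add' := fun x x' => by funext i; by_cases hz : Z i <;> simp [hz] <;> ring
      map_smul' := fun c x => by funext i; by_cases hz : Z i <;> simp [hz] <;> ring }
  let v : A → Fin d → ℝ := fun a i => if Z i then -(γ / 4 * p a (y i)) else ρ i * p a i
  let v' : A → Fin d → ℝ := fun a i => if Z i then -(γ / 4 * p a (y i)) + γ / 4 * (γ / 2)
    else ρ i * p a i
  let lo : A → Fin d → ℝ := fun a i => (s (ty a) i).lo (v a i) (v' a i) (l (ty a))
  let hi : A → Fin d → ℝ := fun a i => (s (ty a) i).hi (v a i) (v' a i) (l (ty a))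
  have hlen : ∀ a i, hi a i - lo a i = if s (ty a) i = .C then 0 else l (ty a) :=
    fun a i => St.hi_sub_lo _ _ _ _
  have hlt : ∀ a i, lo a i < hi a i ↔ ¬ s (ty a) i = .C := by
    intro a i
    rw [← sub_pos, hlen]
    split_ifs with hc
    · simp [hc]
    · simp only [hc, not_false_eq_true, iff_true]; linarith [hl (ty a)]
  refine ⟨Φ, fun a => Icc (lo a) (hi a), fun u => ?_, fun a => ⟨lo a, hi a, fun i => ?_, rfl,
    ?_, fun i j hi0 hj0 => ?_⟩, fun a a' hne => ?_, fun a x hx hS => ?_⟩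
  · refine ⟨fun i => if Z i then (u i / (γ / 4) + u (y i) / ρ (y i)) / (γ / 2) else u i / ρ i, ?_⟩
    funext i
    by_cases hz : Z i
    · have := (h.yZ i hz).1
      simp only [Φ, LinearMap.coe_mk, AddHom.coe_mk, hz, this, if_true, if_false]
      field_simp; ring
    · simp only [Φ, LinearMap.coe_mk, AddHom.coe_mk, hz, if_false]
      field_simp [(hρ i).ne']
  · rw [← sub_nonneg, hlen]
    split_ifs <;> linarith [hl (ty a)]
  · have h1 := Finset.card_filter_add_card_filter_not (s := Finset.univ)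
      (fun i => s (ty a) i = .C)
    rw [h.card, Finset.card_univ, Fintype.card_fin] at h1
    rw [Finset.filter_congr fun i _ => hlt a i]
    omega
  · rw [hlen, hlen, if_neg ((hlt a i).1 hi0), if_neg ((hlt a j).1 hj0)]
    nlinarith [hl (ty a)]
  · have updn : ∀ a a', a ≠ a' → ∀ z, Z z →
        ((s (ty a) (y z) = .C ∨ s (ty a) (y z) = .P) ∧ s (ty a) z = .P) →
        ((s (ty a') (y z) = .C ∨ s (ty a') (y z) = .M) ∧ s (ty a') z = .M) →
        Disjoint (Icc (lo a) (hi a)) (Icc (lo a') (hi a')) := by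
      intro a a' hne z hz h1 h2
      obtain ⟨z1, z2, z3⟩ := h.yZ z hz
      refine Set.disjoint_left.2 fun u hu hu' => ?_
      have e1 : γ / 4 * p a (y z) ≤ u (y z) := by
        have := hu.1 (y z)
        rcases h1.1 with e | e <;> simpa [lo, e, St.lo, v, z1, ρ, z3] using this
      have e2 : -(γ / 4 * p a (y z)) ≤ u z := by
        have := hu.1 z
        simpa [lo, h1.2, St.lo, v, hz] using this
      have e3 : u (y z) ≤ γ / 4 * p a' (y z) := by
        have := hu'.2 (y z)
        rcases h2.1 with e | e <;> simpa [hi, e, St.hi, v, v', z1, ρ, z3] using this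
      have e4 : u z ≤ -(γ / 4 * p a' (y z)) + γ / 4 * (γ / 2) := by
        have := hu'.2 z
        simpa only [hi, h2.2, St.hi, v', hz, if_true] using this
      have e5 := hp a a' hne (y z)
      have e6 : p a (y z) ≤ p a' (y z) := by nlinarith
      have e7 : p a' (y z) - p a (y z) ≤ γ / 2 := by nlinarith
      rw [abs_sub_comm, abs_of_nonneg (by linarith)] at e5
      linarith
    rcases h.pair (ty a) (ty a') with ⟨i, h1, h2⟩ | ⟨z, hz, h1, h2⟩ | ⟨z, hz, h1, h2⟩
    · have hz : ¬ Z i := fun hz => by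
        rcases h.memZ (ty a) i hz with e | ⟨e | e, -⟩ <;> simp [e, St.thin] at h1
      have key : ∀ b : A, (s (ty b) i).thin → ∀ u ∈ Icc (lo b) (hi b),
          ρ i * p b i ≤ u i ∧ u i ≤ ρ i * p b i + ρ i * (γ / 2) := by
        intro b hb u hu
        have u1 := hu.1 i
        have u2 := hu.2 i
        rcases hb with e | e
        · simp only [lo, hi, e, St.lo, St.hi, v, hz, if_false] at u1 u2
          exact ⟨u1, by nlinarith [hρ i]⟩
        · have := h.thin _ _ e
          simp only [lo, hi, e, St.lo, St.hi, v, hz, if_false, l, this.1, if_true] at u1 u2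
          refine ⟨u1, ?_⟩
          have e2 : ρ i = 1 := if_pos this.2
          rw [e2] at u2 ⊢; linarith
      refine Set.disjoint_left.2 fun u hu hu' => ?_
      have k1 := key a h1 u hu
      have k2 := key a' h2 u hu'
      have e5 := hp a a' hne i
      have : |p a i - p a' i| ≤ γ / 2 := by
        rw [abs_le]; constructor <;> nlinarith [hρ i, k1.1, k1.2, k2.1, k2.2]
      linarith
    · exact updn a a' hne z hz h1 h2
    · exact (updn a' a hne.symm z hz h1 h2).symm
  · have hx' : ∀ i, 0 < x i ∧ x i < 1 := fun i => hx i (mem_univ _)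
    have key : ∀ i, lo a i ≤ Φ x i ∧ Φ x i ≤ hi a i := by
      intro i
      have hla := hl (ty a)
      by_cases hz : Z i
      · have g1 : 0 ≤ γ / 4 * (γ / 2 * x i) := by have := (hx' i).1; positivity
        have g2 : γ / 4 * (γ / 2 * x i) ≤ γ / 4 * (γ / 2) := by
          gcongr; nlinarith [(hx' i).2]
        have g3 : γ / 4 * (γ / 2) ≤ γ / 4 := by nlinarith
        rcases h.memZ (ty a) i hz with e | ⟨e | e, hy⟩
        · simp only [lo, hi, e, St.lo, St.hi, Φ, LinearMap.coe_mk, AddHom.coe_mk, hz, if_true]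
          constructor <;> nlinarith [(hx' (y i)).1, (hx' (y i)).2]
        · simp only [lo, hi, e, St.lo, St.hi, Φ, LinearMap.coe_mk, AddHom.coe_mk, hz, if_true, v,
            hS _ hy]
          constructor <;> nlinarith
        · simp only [lo, hi, e, St.lo, St.hi, Φ, LinearMap.coe_mk, AddHom.coe_mk, hz, if_true, v',
            hS _ hy]
          constructor <;> nlinarith
      · by_cases e : s (ty a) i = .F
        · have : ρ i ≤ l (ty a) / 2 := by
            by_cases hlow : low (ty a)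
            · simp only [ρ, l, hlow, h.full _ _ hlow e, if_true, if_false]; linarith
            · simp only [ρ, l, hlow, if_false]; split_ifs <;> linarith
          simp only [lo, hi, e, St.lo, St.hi, Φ, LinearMap.coe_mk, AddHom.coe_mk, hz, if_false]
          constructor <;> nlinarith [(hx' i).1, (hx' i).2, hρ i]
        · have e2 := hS i (h.mem _ _ hz e)
          simp only [lo, hi, Φ, LinearMap.coe_mk, AddHom.coe_mk, hz, if_false, v, v', e2]
          cases hs : s (ty a) i <;> simp only [St.lo, St.hi] <;>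
            first | exact absurd hs e | (constructor <;> linarith)
    exact ⟨fun i => (key i).1, fun i => (key i).2⟩

lemma IsFatFlat.nonempty {k : ℕ} {α : ℝ} {r : Set (Fin d → ℝ)} (h : IsFatFlat k α r) :
    r.Nonempty := by
  obtain ⟨lo, hi, h1, rfl, -⟩ := h
  exact ⟨lo, le_rfl, h1⟩

lemma isInstance_image {k : ℕ} {α : ℝ} {A : Type*} [Fintype A] {obj : A → Set (Fin d → ℝ)}
    (h1 : ∀ a, IsFatFlat k α (obj a)) (h2 : ∀ a a', a ≠ a' → Disjoint (obj a) (obj a')) :
    Injective obj ∧ IsInstance k α (Fintype.card A) (Finset.univ.image obj) := by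
  have hinj : Injective obj := fun a a' e => by
    by_contra hne
    have := h2 a a' hne
    rw [e, disjoint_self] at this
    exact (h1 a').nonempty.ne_empty this
  refine ⟨hinj, by rw [Finset.card_image_of_injective _ hinj, Finset.card_univ], fun r hr => ?_,
    fun r hr r' hr' hne => ?_⟩
  · obtain ⟨a, -, rfl⟩ := Finset.mem_image.1 hr; exact h1 a
  · obtain ⟨a, -, rfl⟩ := Finset.mem_image.1 hr
    obtain ⟨a', -, rfl⟩ := Finset.mem_image.1 hr'
    exact h2 a a' fun e => hne (by rw [e])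

lemma Design.inst {J : Type} [Fintype J] [Nonempty J] {k : ℕ} (hk : k ≤ d)
    {S : J → Finset (Fin d)} {s : J → Fin d → St} {Z : Fin d → Prop} {y : Fin d → Fin d}
    {top : Fin d → Prop} {low : J → Prop} (h : Design (d - k) S s Z y top low) {α : ℝ}
    (hα : 1 ≤ α) {w : J → ℝ} (hw : ∀ j, 0 ≤ w j)
    (h1 : ∀ i, ∑ j ∈ Finset.univ.filter fun j => i ∈ S j, w j ≤ 1) {N n : ℕ}
    (hn : Fintype.card J * 2 * N ≤ n) {P : Fin N → Fin d → ℝ} {δ θ : ℝ} (hδ : 0 < δ)
    (hθ : 0 < θ) (hP : ConvexNet P δ θ) :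
    ENNReal.ofReal (θ⁻¹ ^ ∑ j, w j) ≤ (piGen d k α n : ℝ≥0∞) := by
  let A := (J × Bool × Fin N) ⊕ Fin (n - Fintype.card J * 2 * N)
  have hA : Fintype.card A = n := by
    simp only [A, Fintype.card_sum, Fintype.card_prod, Fintype.card_bool, Fintype.card_fin,
      ← mul_assoc]
    omega
  obtain ⟨p, hp, γ, hγ, hγ1, hgap⟩ := exists_generic (A := A)
    (Sum.elim (fun q => P q.2.2) fun _ => 0) hδ
  obtain ⟨Φ, obj, hΦ, o1, o2, o3⟩ := h.realize hk hα (A := A)
    (Sum.elim (fun q => q.1) fun _ => Classical.arbitrary J) p hγ hγ1 hgap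
  obtain ⟨hinj, hinst⟩ := isInstance_image o1 o2
  rw [hA] at hinst
  refine le_piGen hinst fun T hT => ?_
  have key := core S hw h1 Φ hΦ (Finset.univ.image obj) (ENNReal.ofReal θ)
    (fun K hK hKo hKc j hj => by
      obtain ⟨m, hm⟩ := hP _ ((convex_cyl _ hK).inter convex_cube)
        ((isOpen_cyl _ hKo).inter isOpen_cube) inter_subset_right hj
      have : ∀ b : Bool, ∃ x ∈ K, Φ x ∈ obj (Sum.inl (j, b, m)) := by
        intro b
        obtain ⟨⟨x, hx, hx2⟩, -⟩ := hm (p (Sum.inl (j, b, m))) (hp _)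
        exact ⟨x, hx, o3 _ x (hKc hx) fun i hi => (hx2 i hi).symm⟩
      exact ⟨_, Finset.mem_image_of_mem _ (Finset.mem_univ _), _,
        Finset.mem_image_of_mem _ (Finset.mem_univ _),
        fun e => by simpa using Sum.inl_injective (hinj e), this true, this false⟩) T univ isOpen_univ convex_univ hT
  rw [preimage_univ, univ_inter, volume_cube, ENNReal.ofReal_rpow_of_pos hθ,
    ← ENNReal.ofReal_natCast, ← ENNReal.ofReal_mul (Nat.cast_nonneg _),
    ENNReal.one_le_ofReal] at key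
  rw [Real.inv_rpow hθ.le, inv_le_iff_one_le_mul₀ (by positivity)]
  exact key

theorem Design.lower {J : Type} [Fintype J] [Nonempty J] {k : ℕ} (hk : k ≤ d)
    {S : J → Finset (Fin d)} {s : J → Fin d → St} {Z : Fin d → Prop} {y : Fin d → Fin d}
    {top : Fin d → Prop} {low : J → Prop} (h : Design (d - k) S s Z y top low)
    {w : J → ℝ} (hw : ∀ j, 0 ≤ w j)
    (h1 : ∀ i, ∑ j ∈ Finset.univ.filter fun j => i ∈ S j, w j ≤ 1) :
    ∃ c : ℝ, 0 < c ∧ ∀ α : ℝ, 1 ≤ α → ∀ n : ℕ, 2 ≤ n →
      ENNReal.ofReal (c * (n / Real.log n) ^ ∑ j, w j) ≤ (piGen d k α n : ℝ≥0∞) := by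
  obtain ⟨C, hC, hnet⟩ := exists_convexNet d
  set m : ℕ := Fintype.card J with hm
  have hm0 : 0 < m := Fintype.card_pos
  have hm' : (0 : ℝ) < m := by exact_mod_cast hm0
  set B : ℝ := 4 * m * C + 8 * m with hB
  have hB0 : 0 < B := by positivity
  have hW : 0 ≤ ∑ j, w j := Finset.sum_nonneg fun j _ => hw j
  refine ⟨B⁻¹ ^ ∑ j, w j, by positivity, fun α hα n hn => ?_⟩
  have hn2 : (2 : ℝ) ≤ n := by exact_mod_cast hn
  have hl2 : (1 : ℝ) / 2 < Real.log 2 := by linarith [Real.log_two_gt_d9]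
  have hln : 1 / 2 < Real.log n := hl2.trans_le (Real.log_le_log two_pos hn2)
  have main : ∀ θ : ℝ, 0 < θ → θ * n ≤ B * Real.log n →
      B⁻¹ ^ (∑ j, w j) * (n / Real.log n) ^ ∑ j, w j ≤ θ⁻¹ ^ ∑ j, w j := by
    intro θ hθ hθn
    rw [← Real.mul_rpow (by positivity) (by positivity)]
    refine Real.rpow_le_rpow (by positivity) ?_ hW
    rw [inv_mul_eq_div, div_div, div_le_iff₀ (by positivity), inv_mul_eq_div, le_div_iff₀ hθ]
    linarith
  by_cases hsmall : n < 4 * m
  · refine le_trans (ENNReal.ofReal_le_ofReal (main 1 one_pos ?_))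
      (h.inst hk hα hw h1 (N := 0) (by simp) (P := Fin.elim0) one_pos one_pos
        fun K _ _ hKc hK => ?_)
    · have : (n : ℝ) < 4 * m := by exact_mod_cast hsmall
      nlinarith [mul_pos hm' hC]
    · have := hK.trans_le ((measure_mono hKc).trans_eq volume_cube)
      simp at this
  · set N := n / (m * 2) with hN
    have hN2 : 2 ≤ N := (Nat.le_div_iff_mul_le (by omega)).2 (by omega)
    have hN3 : m * 2 * N ≤ n := Nat.mul_div_le _ _
    have hN4 : n < m * 2 * (N + 1) := Nat.lt_mul_div_succ _ (by omega)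
    obtain ⟨P, δ, hδ, hP⟩ := hnet N hN2
    have hN2' : (2 : ℝ) ≤ N := by exact_mod_cast hN2
    have hlN : 0 < Real.log N := Real.log_pos (by linarith)
    have hNn : (N : ℝ) ≤ n := by exact_mod_cast (show N ≤ n from Nat.div_le_self _ _)
    refine le_trans (ENNReal.ofReal_le_ofReal (main _ (by positivity) ?_))
      (h.inst hk hα hw h1 hN3 hδ (by positivity) hP)
    have e1 : (n : ℝ) ≤ 4 * m * N := by
      have : (n : ℝ) < m * 2 * (N + 1) := by exact_mod_cast hN4
      nlinarith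
    have e2 : Real.log N ≤ Real.log n := Real.log_le_log (by linarith) hNn
    rw [div_mul_eq_mul_div, div_le_iff₀ (by linarith)]
    have e3 : C * Real.log N * n ≤ C * Real.log n * (4 * m * N) := by gcongr
    nlinarith [mul_pos (mul_pos hm' (show 0 < Real.log n by linarith)) (show (0 : ℝ) < N by linarith)]

end Pool.Agent.MP_ebf3a9_co.H25
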