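import Pool.Agent.MP_ebf3a9_co.H25.Halton

/-!
Concrete designs: plain families, difference covers, wheels, complete graphs.
-/

namespace Pool.Agent.MP_ebf3a9_co.H25

open Set Function
open scoped Classical ENNReal

variable {d : ℕ}

/-- Lower bound with exponent `e` for general partitions. -/
def Lower (d k : ℕ) (e : ℝ) : Prop :=
  ∃ c : ℝ, 0 < c ∧ ∀ α : ℝ, 1 ≤ α → ∀ n : ℕ, 2 ≤ n →
    ENNReal.ofReal (c * (n / Real.log n) ^ e) ≤ (piGen d k α n : ℝ≥0∞)

lemma one_le_div_log {n : ℕ} (hn : 2 ≤ n) : (1 : ℝ) ≤ n / Real.log n := by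
  have hn2 : (2 : ℝ) ≤ n := by exact_mod_cast hn
  rw [le_div_iff₀ (Real.log_pos (by linarith))]
  linarith [Real.log_le_sub_one_of_pos (show (0 : ℝ) < n by linarith)]

lemma Lower.mono {k : ℕ} {e e' : ℝ} (h : Lower d k e) (he : e' ≤ e) : Lower d k e' := by
  obtain ⟨c, hc, h⟩ := h
  refine ⟨c, hc, fun α hα n hn => le_trans (ENNReal.ofReal_le_ofReal ?_) (h α hα n hn)⟩
  exact mul_le_mul_of_nonneg_left (Real.rpow_le_rpow_of_exponent_le (one_le_div_log hn) he) hc.le

lemma Design.extend {ι κ J : Type} [Fintype ι] [Fintype κ] (f : ι ↪ κ) {c : ℕ}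
    {S : J → Finset ι} {s : J → ι → St} {Z : ι → Prop} {y : ι → ι} {top : ι → Prop}
    {low : J → Prop} (h : Design c S s Z y top low) :
    Design c (fun j => (S j).map f) (fun j => Function.extend f (s j) fun _ => .F)
      (fun i => ∃ a, f a = i ∧ Z a) (Function.extend f (f ∘ y) id)
      (fun i => ∃ a, f a = i ∧ top a) low := by
  have e1 : ∀ j a, Function.extend f (s j) (fun _ => St.F) (f a) = s j a :=
    fun j a => f.injective.extend_apply _ _ _
  have e2 : ∀ a, Function.extend f (f ∘ y) id (f a) = f (y a) :=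
    fun a => f.injective.extend_apply _ _ _
  have e3 : ∀ j i, (¬ ∃ a, f a = i) → Function.extend f (s j) (fun _ => St.F) i = .F :=
    fun j i hi => Function.extend_apply' _ _ _ hi
  refine ⟨fun j => ?_, ?_, fun j i hz hs => ?_, ?_, fun j i hl hs => ?_, fun j i hs => ?_,
    fun j j' => ?_⟩
  · rw [← h.card j, ← Finset.card_map f]
    congr 1
    ext i
    by_cases hi : ∃ a, f a = i
    · obtain ⟨a, rfl⟩ := hi
      simp [e1]
    · simp only [Finset.mem_filter, Finset.mem_univ, true_and, e3 j i hi, Finset.mem_map]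
      exact ⟨fun h => (by cases h), fun ⟨a, _, ha⟩ => absurd ⟨a, ha⟩ hi⟩
  · rintro _ ⟨a, rfl, ha⟩
    simpa [e2] using h.yZ a ha
  · by_cases hi : ∃ a, f a = i
    · obtain ⟨a, rfl⟩ := hi
      rw [e1] at hs
      exact Finset.mem_map_of_mem _ (h.mem j a (fun hh => hz ⟨a, rfl, hh⟩) hs)
    · exact absurd (e3 j i hi) hs
  · rintro j _ ⟨a, rfl, ha⟩
    simpa [e1, e2] using h.memZ j a ha
  · rintro ⟨a, rfl, ha⟩
    rw [e1] at hs
    exact h.full j a hl hs ha
  · by_cases hi : ∃ a, f a = i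
    · obtain ⟨a, rfl⟩ := hi
      rw [e1] at hs
      exact ⟨(h.thin j a hs).1, a, rfl, (h.thin j a hs).2⟩
    · rw [e3 j i hi] at hs; cases hs
  · rcases h.pair j j' with ⟨i, h1⟩ | ⟨z, hz, h1⟩ | ⟨z, hz, h1⟩
    · exact Or.inl ⟨f i, by simpa only [e1] using h1⟩
    · exact Or.inr (Or.inl ⟨f z, ⟨z, rfl, hz⟩, by simpa only [e1, e2] using h1⟩)
    · exact Or.inr (Or.inr ⟨f z, ⟨z, rfl, hz⟩, by simpa only [e1, e2] using h1⟩)

lemma sum_extend {ι κ J : Type} [Fintype J] (f : ι ↪ κ) {S : J → Finset ι} {w : J → ℝ}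
    (h1 : ∀ i, ∑ j ∈ Finset.univ.filter fun j => i ∈ S j, w j ≤ 1) (i : κ) :
    ∑ j ∈ Finset.univ.filter fun j => i ∈ (S j).map f, w j ≤ 1 := by
  by_cases hi : ∃ a, f a = i
  · obtain ⟨a, rfl⟩ := hi
    simpa using h1 a
  · rw [Finset.filter_eq_empty_iff.2 fun j _ hj => by
      obtain ⟨a, -, ha⟩ := Finset.mem_map.1 hj; exact hi ⟨a, ha⟩]
    simp

theorem Design.lower' {ι J : Type} [Fintype ι] [Fintype J] [Nonempty J] {k : ℕ} (hk : k ≤ d)
    (hι : Fintype.card ι ≤ d) {S : J → Finset ι} {s : J → ι → St} {Z : ι → Prop} {y : ι → ι}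
    {top : ι → Prop} {low : J → Prop} (h : Design (d - k) S s Z y top low)
    {w : J → ℝ} (hw : ∀ j, 0 ≤ w j)
    (h1 : ∀ i, ∑ j ∈ Finset.univ.filter fun j => i ∈ S j, w j ≤ 1) : Lower d k (∑ j, w j) := by
  obtain ⟨f⟩ : Nonempty (ι ↪ Fin d) := Function.Embedding.nonempty_of_card_le (by simpa using hι)
  exact (h.extend f).lower hk hw fun i => by convert sum_extend f h1 i

lemma design_plain {ι J : Type} [Fintype ι] {c : ℕ} {S : J → Finset ι}
    (hS : ∀ j, (S j).card = c) (hint : ∀ j j', ∃ i, i ∈ S j ∧ i ∈ S j') :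
    Design c S (fun j i => if i ∈ S j then .C else .F) (fun _ => False) id (fun _ => True)
      fun _ => False := by
  refine ⟨fun j => ?_, by simp, fun j i _ hs => ?_, by simp, by simp, fun j i hs => ?_,
    fun j j' => Or.inl ?_⟩
  · rw [← hS j]; congr 1; ext i; by_cases hi : i ∈ S j <;> simp [hi]
  · by_contra hi; simp [hi] at hs
  · by_cases hi : i ∈ S j <;> simp [hi] at hs
  · obtain ⟨i, h1, h2⟩ := hint j j'
    exact ⟨i, by simp [h1, h2, St.thin]⟩

/-- A cyclic difference cover gives an intersecting regular family. -/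
lemma exists_cyclic {m c : ℕ} (hc : 1 ≤ c) (hcm : c ≤ m) (h : 2 * m + 2 ≤ (c + 1) ^ 2) :
    ∃ S : Fin m → Finset (Fin m), (∀ j, (S j).card = c) ∧ (∀ j j', ∃ i, i ∈ S j ∧ i ∈ S j') ∧
      ∀ i, (Finset.univ.filter fun j => i ∈ S j).card = c := by
  obtain ⟨m, rfl⟩ : ∃ m', m = m' + 1 := ⟨m - 1, by omega⟩
  suffices H : ∃ S : ZMod (m + 1) → Finset (ZMod (m + 1)), (∀ j, (S j).card = c) ∧
      (∀ j j', ∃ i, i ∈ S j ∧ i ∈ S j') ∧
      ∀ i, (Finset.univ.filter fun j => i ∈ S j).card = c by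
    obtain ⟨S, h1, h2, h3⟩ := H
    refine ⟨S, h1, h2, fun i => Eq.trans (congrArg Finset.card (Finset.ext fun j => ?_)) (h3 i)⟩
    exact Finset.mem_filter.trans (Iff.trans ⟨fun h => ⟨Finset.mem_univ _, h.2⟩,
      fun h => ⟨Finset.mem_univ _, h.2⟩⟩ Finset.mem_filter.symm)
  set a := (c + 1) / 2 with ha
  have ha1 : 1 ≤ a := by omega
  have hab : m + 2 ≤ 2 * (a * (c - a + 1)) := by
    obtain ⟨t, ht | ht⟩ := Nat.even_or_odd' (c + 1)
    · have e1 : a = t := by omega
      have e2 : c - a + 1 = t := by omega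
      rw [e2, e1]; rw [ht] at h; nlinarith
    · have e1 : a = t := by omega
      have e2 : c - a + 1 = t + 1 := by omega
      rw [e2, e1]; rw [ht] at h
      have : (2 * t + 1) ^ 2 = 2 * (2 * (t * (t + 1))) + 1 := by ring
      omega
  let D₀ : Finset (ZMod (m + 1)) := (Finset.range a).image (fun i : ℕ => (i : ZMod (m + 1))) ∪
    (Finset.range (c - a)).image fun j : ℕ => ((a - 1 + a * (j + 1) : ℕ) : ZMod (m + 1))
  have hD₀ : D₀.card ≤ c := (Finset.card_union_le _ _).trans (by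
    have h1 := Finset.card_image_le (s := Finset.range a) (f := fun i : ℕ => (i : ZMod (m + 1)))
    have h2 := Finset.card_image_le (s := Finset.range (c - a))
      (f := fun j : ℕ => ((a - 1 + a * (j + 1) : ℕ) : ZMod (m + 1)))
    rw [Finset.card_range] at h1 h2
    omega)
  obtain ⟨D, hD1, -, hD2⟩ := Finset.exists_subsuperset_card_eq (Finset.subset_univ D₀) hD₀
    (by simpa using hcm)
  have hdiff : ∀ t : ℕ, t < a * (c - a + 1) → ∃ u ∈ D, ∃ v ∈ D, u - v = (t : ZMod (m + 1)) := by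
    intro t ht
    have h1 : t / a < c - a + 1 := by rw [Nat.div_lt_iff_lt_mul ha1]; linarith
    have h2 := Nat.mod_lt t ha1
    refine ⟨((a - 1 + a * (t / a) : ℕ) : ZMod (m + 1)), hD1 ?_,
      ((a - 1 - t % a : ℕ) : ZMod (m + 1)), hD1 ?_, ?_⟩
    · rcases Nat.eq_zero_or_pos (t / a) with h0 | h0
      · exact Finset.mem_union_left _ (Finset.mem_image.2 ⟨a - 1, by simp; omega, by simp [h0]⟩)
      · exact Finset.mem_union_right _ (Finset.mem_image.2 ⟨t / a - 1, by simp; omega, by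
          rw [Nat.sub_add_cancel h0]⟩)
    · exact Finset.mem_union_left _ (Finset.mem_image.2 ⟨a - 1 - t % a, by simp; omega, rfl⟩)
    · rw [sub_eq_iff_eq_add, ← Nat.cast_add]
      congr 1
      have := Nat.div_add_mod t a
      omega
  have hall : ∀ x : ZMod (m + 1), ∃ u ∈ D, ∃ v ∈ D, u - v = x := by
    intro x
    have hx := ZMod.val_lt x
    by_cases h1 : x.val < a * (c - a + 1)
    · simpa using hdiff _ h1
    · obtain ⟨u, hu, v, hv, e⟩ := hdiff (m + 1 - x.val) (by omega)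
      refine ⟨v, hv, u, hu, ?_⟩
      rw [Nat.cast_sub hx.le] at e
      simp only [ZMod.natCast_self, ZMod.natCast_val, ZMod.cast_id', id_eq] at e
      linear_combination -e
  refine ⟨fun (j : ZMod (m + 1)) => D.map (Equiv.addRight j).toEmbedding, fun j => by
    rw [Finset.card_map, hD2], fun j j' => ?_, fun i => ?_⟩
  · obtain ⟨u, hu, v, hv, e⟩ := hall ((j' : ZMod (m + 1)) - (j : ZMod (m + 1)))
    refine ⟨(u + (j : ZMod (m + 1)) : ZMod (m + 1)), Finset.mem_map.2 ⟨u, hu, rfl⟩,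
      Finset.mem_map.2 ⟨v, hv, ?_⟩⟩
    show v + (j' : ZMod (m + 1)) = u + (j : ZMod (m + 1))
    linear_combination -e
  · rw [← hD2]
    refine Finset.card_bij (fun (j : ZMod (m + 1)) _ => (i : ZMod (m + 1)) - j) ?_ ?_ ?_
    · intro j hj
      obtain ⟨u, hu, e⟩ := Finset.mem_map.1 (Finset.mem_filter.1 hj).2
      have e' : u + (j : ZMod (m + 1)) = (i : ZMod (m + 1)) := e
      rwa [← e', add_sub_cancel_right]
    · intro j _ j' _ e
      exact sub_right_injective e
    · intro u hu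
      refine ⟨((i : ZMod (m + 1)) - u : ZMod (m + 1)), Finset.mem_filter.2 ⟨Finset.mem_univ _,
        Finset.mem_map.2 ⟨u, hu, ?_⟩⟩, sub_sub_cancel _ _⟩
      show u + ((i : ZMod (m + 1)) - u) = (i : ZMod (m + 1))
      ring

theorem lower_cyclic {k m : ℕ} (hk : k < d) (hm : m ≤ d) (hcm : d - k ≤ m)
    (h : 2 * m + 2 ≤ (d - k + 1) ^ 2) : Lower d k ((m : ℝ) / (d - k)) := by
  obtain ⟨S, h1, h2, h3⟩ := exists_cyclic (c := d - k) (by omega) hcm h
  have hc : (0 : ℝ) < d - k := by rw [sub_pos]; exact_mod_cast hk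
  have : Nonempty (Fin m) := ⟨⟨0, by omega⟩⟩
  have := (design_plain h1 h2).lower' hk.le (by simpa using hm) (w := fun _ => 1 / (d - k))
    (fun _ => by positivity) fun i => by
      rw [Finset.sum_const, nsmul_eq_mul]
      have := h3 i
      rw [Finset.filter_congr_decidable] at this
      rw [Finset.filter_congr_decidable, this, Nat.cast_sub hk.le]
      field_simp; exact le_rfl
  simpa [div_eq_mul_inv] using this

end Pool.Agent.MP_ebf3a9_co.H25
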