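import Pool.Agent.MP_ebf3a9_co.H25.Dual
import Pool.Agent.MP_ebf3a9_co.H25.Families

/-!
The exponent `d / (d - k)` is attained exactly when an intersecting uniform family with a perfect
fractional matching exists.
-/

namespace Pool.Agent.MP_ebf3a9_co.H25

open Set Function
open scoped Classical ENNReal

variable {d : ℕ}

lemma hasPerfectFamily_of {J : Type*} {c : ℕ} (A : Finset J) (S : J → Finset (Fin d))
    (w : J → ℝ) (h1 : ∀ j ∈ A, (S j).card = c) (h2 : ∀ j ∈ A, ∀ j' ∈ A, ∃ i, i ∈ S j ∧ i ∈ S j')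
    (h3 : ∀ j, 0 ≤ w j) (h4 : ∀ i, ∑ j ∈ A.filter fun j => i ∈ S j, w j = 1) :
    HasPerfectFamily d c := by
  refine ⟨A.image S, fun B => ∑ j ∈ A.filter fun j => S j = B, w j, fun B hB => ?_,
    fun B hB B' hB' => ?_, fun B _ => Finset.sum_nonneg fun j _ => h3 j, fun i => ?_⟩
  · obtain ⟨j, hj, rfl⟩ := Finset.mem_image.1 hB; exact h1 j hj
  · obtain ⟨j, hj, rfl⟩ := Finset.mem_image.1 hB
    obtain ⟨j', hj', rfl⟩ := Finset.mem_image.1 hB'
    obtain ⟨i, hi⟩ := h2 j hj j' hj'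
    exact ⟨i, Finset.mem_inter.2 hi⟩
  · rw [← h4 i, ← Finset.sum_fiberwise_of_maps_to (s := A.filter fun j => i ∈ S j)
      (t := (A.image S).filter fun B => i ∈ B) (g := S) fun j hj => Finset.mem_filter.2
        ⟨Finset.mem_image_of_mem _ (Finset.mem_filter.1 hj).1, (Finset.mem_filter.1 hj).2⟩]
    refine Finset.sum_congr (by convert rfl) fun B hB => Finset.sum_congr (Finset.ext fun j => ?_)
      fun _ _ => rfl
    simp only [Finset.mem_filter] at hB ⊢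
    exact ⟨fun h => ⟨⟨h.1, h.2 ▸ hB.2⟩, h.2⟩, fun h => ⟨h.1.1, h.2⟩⟩

theorem hasPerfectFamily_cyclic {c : ℕ} (hc : 1 ≤ c) (hcd : c ≤ d) (h : 2 * d + 2 ≤ (c + 1) ^ 2) :
    HasPerfectFamily d c := by
  obtain ⟨S, h1, h2, h3⟩ := exists_cyclic hc hcd h
  have hc' : (0 : ℝ) < c := by exact_mod_cast hc
  refine hasPerfectFamily_of Finset.univ S (fun _ => 1 / c) (fun j _ => h1 j)
    (fun j _ j' _ => h2 j j') (fun _ => by positivity) fun i => ?_
  have := h3 i
  rw [Finset.sum_const, nsmul_eq_mul]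
  rw [Finset.filter_congr_decidable] at this ⊢
  rw [this]; field_simp

lemma matching_lt {k : ℕ} (hk : k < d) (hF : ¬ HasPerfectFamily d (d - k))
    {A : Finset (Fin d → St)}
    (h1 : ∀ σ ∈ A, (Finset.univ.filter fun i => σ i = .C).card = d - k)
    (h3 : ∀ σ ∈ A, ∀ σ' ∈ A, Compat σ σ') {w : (Fin d → St) → ℝ} (hw : ∀ σ, 0 ≤ w σ)
    (hw1 : ∀ i, ∑ σ ∈ A.filter fun σ => σ i ≠ .F, w σ ≤ 1) :
    ∑ σ ∈ A, w σ < (d : ℝ) / (d - k) := by
  by_contra hc
  have hc0 : (0 : ℝ) < d - k := by rw [sub_pos]; exact_mod_cast hk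
  rw [not_lt, div_le_iff₀ hc0] at hc
  have e1 := sum_const_count h1 w
  rw [Nat.cast_sub hk.le] at e1
  have hle : ∀ i, ∑ σ ∈ A.filter fun σ => σ i = .C, w σ ≤ 1 := fun i =>
    le_trans (Finset.sum_le_sum_of_subset_of_nonneg (fun σ hσ => by
      simp only [Finset.mem_filter] at hσ ⊢; exact ⟨hσ.1, by simp [hσ.2]⟩) fun _ _ _ => hw _) (hw1 i)
  have heq : ∀ i, ∑ σ ∈ A.filter fun σ => σ i = .C, w σ = 1 := by
    have := (Finset.sum_eq_sum_iff_of_le (s := Finset.univ) fun i _ => hle i).1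
      (le_antisymm (Finset.sum_le_sum fun i _ => hle i) (by rw [e1]; simp; linarith))
    exact fun i => this i (Finset.mem_univ _)
  have hz : ∀ σ ∈ A, 0 < w σ → ∀ i, σ i ≠ .F → σ i = .C := by
    intro σ hσ hpos i hi
    by_contra hne
    have := Finset.sum_le_sum_of_subset_of_nonneg (f := w)
      (s := insert σ (A.filter fun σ => σ i = .C)) (t := A.filter fun σ => σ i ≠ .F)
      (fun υ hυ => by
        rcases Finset.mem_insert.1 hυ with rfl | hυ
        · exact Finset.mem_filter.2 ⟨hσ, hi⟩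
        · simp only [Finset.mem_filter] at hυ ⊢; exact ⟨hυ.1, by simp [hυ.2]⟩) fun _ _ _ => hw _
    rw [Finset.sum_insert (by simp [hne]), heq i] at this
    linarith [hw1 i]
  refine hF (hasPerfectFamily_of (A.filter fun σ => 0 < w σ)
    (fun σ => Finset.univ.filter fun i => σ i = .C) w
    (fun σ hσ => h1 σ (Finset.mem_filter.1 hσ).1) (fun σ hσ σ' hσ' => ?_) hw fun i => ?_)
  · rw [Finset.mem_filter] at hσ hσ'
    obtain ⟨i, hi⟩ := (h3 σ hσ.1 σ' hσ'.1).exists_common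
    exact ⟨i, by simp [hz σ hσ.1 hσ.2 i hi.1], by simp [hz σ' hσ'.1 hσ'.2 i hi.2]⟩
  · rw [← heq i]
    refine Finset.sum_subset (fun σ hσ => by simp_all) fun σ h1 h2 => ?_
    simp only [Finset.mem_filter, Finset.mem_univ, true_and] at h1 h2
    exact le_antisymm (not_lt.1 fun h => h2 ⟨⟨h1.1, h⟩, h1.2⟩) (hw σ)

theorem covered_of_no_family {k : ℕ} (hk : k < d) (hF : ¬ HasPerfectFamily d (d - k)) :
    ∃ τ : ℝ, τ < (d : ℝ) / (d - k) ∧ Covered d k τ := by
  have hc0 : (0 : ℝ) < d - k := by rw [sub_pos]; exact_mod_cast hk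
  have hd : (0 : ℝ) < d := by exact_mod_cast (show 0 < d by omega)
  have key : ∀ A : Finset (Fin d → St), ∃ τ : ℝ, 0 < τ ∧ τ < (d : ℝ) / (d - k) ∧
      ((∀ σ ∈ A, (Finset.univ.filter fun i => σ i = .C).card = d - k) →
      (∀ σ ∈ A, ∀ σ' ∈ A, Compat σ σ') → ∀ w : (Fin d → St) → ℝ, (∀ σ, 0 ≤ w σ) →
      (∀ i, ∑ σ ∈ A.filter fun σ => σ i ≠ .F, w σ ≤ 1) → ∑ σ ∈ A, w σ ≤ τ) := by
    intro A
    have hpos : 0 < (d : ℝ) / (d - k) := by positivity
    by_cases hA : (∀ σ ∈ A, (Finset.univ.filter fun i => σ i = .C).card = d - k) ∧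
      (∀ σ ∈ A, ∀ σ' ∈ A, Compat σ σ')
    swap
    · exact ⟨d / (d - k) / 2, by positivity, by linarith, fun h1 h2 => absurd ⟨h1, h2⟩ hA⟩
    let P : Set ((Fin d → St) → ℝ) := Icc 0 1 ∩ ⋂ i, {w | ∑ σ ∈ A.filter fun σ => σ i ≠ .F, w σ ≤ 1}
    have hP : IsCompact P := isCompact_Icc.inter_right (isClosed_iInter fun i =>
      isClosed_le (by fun_prop) continuous_const)
    obtain ⟨v, hv, hmax⟩ := hP.exists_isMaxOn (f := fun w => ∑ σ ∈ A, w σ)
      ⟨0, ⟨le_rfl, zero_le_one⟩, by simp⟩ (by fun_prop)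
    have hlt := matching_lt hk hF hA.1 hA.2 (w := v) hv.1.1 fun i => mem_iInter.1 hv.2 i
    refine ⟨max (∑ σ ∈ A, v σ) (d / (d - k) / 2), lt_max_of_lt_right (by positivity),
      max_lt hlt (by linarith), fun _ _ w hw hw1 => le_max_of_le_left ?_⟩
    have := hmax (a := fun σ => if σ ∈ A then w σ else 0) ⟨⟨fun σ => by
      by_cases h : σ ∈ A <;> simp [h, hw σ], fun σ => by
      by_cases h : σ ∈ A
      · obtain ⟨i, hi, -⟩ := (hA.2 σ h σ h).exists_common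
        simp only [h, if_true, Pi.one_apply]
        exact (Finset.single_le_sum (f := w) (fun _ _ => hw _)
          (Finset.mem_filter.2 ⟨h, hi⟩)).trans (hw1 i)
      · simp [h]⟩, mem_iInter.2 fun i => le_trans (le_of_eq (Finset.sum_congr rfl fun σ hσ =>
        if_pos (Finset.mem_filter.1 hσ).1)) (hw1 i)⟩
    refine le_trans (le_of_eq (Finset.sum_congr rfl fun σ hσ => (if_pos hσ).symm)) this
  choose t ht0 ht1 ht2 using key
  obtain ⟨A₀, hA₀⟩ := Finite.exists_max t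
  exact ⟨t A₀, ht1 A₀, covered_of_matching (ht0 A₀) fun ρ A h1 _ h3 w hw hw1 =>
    (ht2 A h1 h3 w hw hw1).trans (hA₀ A)⟩

lemma HasPerfectFamily.unpack {k : ℕ} (hk : k < d) (h : HasPerfectFamily d (d - k)) :
    ∃ (J : Type) (_ : Fintype J) (_ : Nonempty J) (S : J → Finset (Fin d)) (w : J → ℝ),
      (∀ j, (S j).card = d - k) ∧ (∀ j j', ∃ i, i ∈ S j ∧ i ∈ S j') ∧ (∀ j, 0 ≤ w j) ∧
      (∀ i, ∑ j ∈ Finset.univ.filter fun j => i ∈ S j, w j ≤ 1) ∧
      ∑ j, w j = (d : ℝ) / (d - k) := by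
  obtain ⟨F, w, h1, h2, h3, h4⟩ := h
  have hc0 : (0 : ℝ) < d - k := by rw [sub_pos]; exact_mod_cast hk
  have hne : F.Nonempty := by
    by_contra hne
    have := h4 ⟨0, by omega⟩
    simp [Finset.not_nonempty_iff_eq_empty.1 hne] at this
  refine ⟨F, inferInstance, hne.to_subtype, fun j => j.1, fun j => w j.1, fun j => h1 _ j.2,
    fun j j' => ?_, fun j => h3 _ j.2, fun i => ?_, ?_⟩
  · obtain ⟨i, hi⟩ := h2 _ j.2 _ j'.2
    exact ⟨i, Finset.mem_inter.1 hi⟩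
  · rw [← h4 i, Finset.sum_filter, Finset.sum_filter,
      Finset.sum_coe_sort F fun A => if i ∈ A then w A else 0]
  · rw [Finset.sum_coe_sort F w, eq_div_iff hc0.ne']
    have : ∑ i : Fin d, ∑ A ∈ F with i ∈ A, w A = d := by simp [h4]
    refine Eq.trans ?_ this
    simp only [Finset.sum_filter]
    rw [Finset.sum_comm, Finset.sum_mul]
    refine Finset.sum_congr rfl fun A hA => ?_
    rw [← Finset.sum_filter, Finset.filter_mem_eq_inter, Finset.univ_inter, Finset.sum_const,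
      h1 A hA, nsmul_eq_mul, Nat.cast_sub hk.le, mul_comm]

end Pool.Agent.MP_ebf3a9_co.H25
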