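import Pool.Agent.MP_ebf3a9_co.H25.Round

/-!
Linear programming duality for fractional covers, and counting bounds.
-/

namespace Pool.Agent.MP_ebf3a9_co.H25

open Set Function
open scoped Classical

variable {d : ℕ}

lemma exists_cover {β : Type*} (A : Finset β) (p : β → Fin d → Prop) {τ : ℝ} (hτ : 0 < τ)
    (h : ∀ w : β → ℝ, (∀ σ, 0 ≤ w σ) → (∀ i, ∑ σ ∈ A.filter fun σ => p σ i, w σ ≤ 1) →
      ∑ σ ∈ A, w σ ≤ τ) :
    ∃ x : Fin d → ℝ, (∀ i, 0 ≤ x i) ∧ ∑ i, x i ≤ τ ∧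
      ∀ σ ∈ A, 1 ≤ ∑ i ∈ Finset.univ.filter fun i => p σ i, x i := by
  let K : Set (Fin d → ℝ) := {v | ∃ l : β → ℝ, (∀ σ, 0 ≤ l σ) ∧ ∑ σ ∈ A, l σ = 1 ∧
    ∀ i, v i = ∑ σ ∈ A.filter fun σ => p σ i, l σ}
  let L : Set (Fin d → ℝ) := Set.pi univ fun _ => Iio τ⁻¹
  have hK : Convex ℝ K := by
    rintro u ⟨l, l0, l1, l2⟩ v ⟨m, m0, m1, m2⟩ a b ha hb hab
    refine ⟨fun σ => a * l σ + b * m σ, fun σ => add_nonneg (mul_nonneg ha (l0 σ))
      (mul_nonneg hb (m0 σ)), ?_, fun i => ?_⟩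
    · rw [Finset.sum_add_distrib, ← Finset.mul_sum, ← Finset.mul_sum, l1, m1]; linarith
    · rw [Finset.sum_add_distrib, ← Finset.mul_sum, ← Finset.mul_sum, ← l2, ← m2]; simp
  have hL : Convex ℝ L := convex_pi fun _ _ => convex_Iio _
  have hLo : IsOpen L := isOpen_set_pi finite_univ fun _ _ => isOpen_Iio
  have hτ' : 0 < τ⁻¹ := inv_pos.2 hτ
  have hdis : Disjoint L K := by
    refine Set.disjoint_left.2 fun v hv ⟨l, l0, l1, l2⟩ => ?_
    obtain ⟨μ, hμ0, hμ1, hμ2⟩ : ∃ μ : ℝ, 0 < μ ∧ μ < τ⁻¹ ∧ ∀ i, v i ≤ μ := by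
      refine ⟨(insert (τ⁻¹ / 2) (Finset.univ.image v)).max' (Finset.insert_nonempty _ _),
        lt_of_lt_of_le (by linarith) (Finset.le_max' _ _ (Finset.mem_insert_self _ _)), ?_,
        fun i => Finset.le_max' _ _ (Finset.mem_insert_of_mem
          (Finset.mem_image_of_mem _ (Finset.mem_univ i)))⟩
      rw [Finset.max'_lt_iff]
      intro y hy
      rcases Finset.mem_insert.1 hy with rfl | hy
      · linarith
      · obtain ⟨i, -, rfl⟩ := Finset.mem_image.1 hy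
        exact hv i (mem_univ _)
    have := h (fun σ => l σ / μ) (fun σ => div_nonneg (l0 σ) hμ0.le) fun i => by
      rw [← Finset.sum_div, ← l2, div_le_one hμ0]; exact hμ2 i
    rw [← Finset.sum_div, l1, div_le_iff₀ hμ0] at this
    have h2 := mul_lt_mul_of_pos_left hμ1 hτ
    rw [mul_inv_cancel₀ hτ.ne'] at h2
    linarith
  obtain ⟨f, s, hf1, hf2⟩ := geometric_hahn_banach_open hL hLo hK hdis
  have hs : 0 < s := by simpa using hf1 0 fun _ _ => hτ'
  have hf : ∀ v : Fin d → ℝ, f v = ∑ i, v i * f (Pi.single i 1) := by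
    intro v
    conv_lhs => rw [← Finset.univ_sum_single v, map_sum]
    refine Finset.sum_congr rfl fun i _ => ?_
    rw [← smul_eq_mul, ← map_smul, ← Pi.single_smul, smul_eq_mul, mul_one]
  have hx : ∀ i, 0 ≤ f (Pi.single i 1) := by
    intro i
    by_contra hneg
    push Not at hneg
    have := hf1 ((s / f (Pi.single i 1)) • Pi.single i 1) fun j _ => by
      have : s / f (Pi.single i 1) < 0 := div_neg_of_pos_of_neg hs hneg
      by_cases hj : j = i
      · subst hj; simp only [Pi.smul_apply, Pi.single_eq_same, smul_eq_mul, mem_Iio]; linarith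
      · simpa [Pi.single_eq_of_ne hj] using hτ
    rw [map_smul, smul_eq_mul, div_mul_cancel₀ _ hneg.ne] at this
    exact lt_irrefl _ this
  refine ⟨fun i => f (Pi.single i 1) / s, fun i => div_nonneg (hx i) hs.le, ?_, fun σ hσ => ?_⟩
  · rw [← Finset.sum_div, div_le_iff₀ hs]
    have key : ∀ t < τ⁻¹, t * ∑ i, f (Pi.single i 1) ≤ s := fun t ht => by
      have := hf1 (fun _ => t) fun _ _ => ht
      rw [hf, ← Finset.mul_sum] at this
      exact this.le
    have : τ⁻¹ * ∑ i, f (Pi.single i 1) ≤ s :=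
      le_of_forall_lt_imp_le_of_dense fun a ha => by
        have h0 : 0 < ∑ i, f (Pi.single i 1) ∨ a < 0 := by
          rcases (Finset.sum_nonneg fun i (_ : i ∈ Finset.univ) => hx i).lt_or_eq with h | h
          · exact Or.inl h
          · rw [← h, mul_zero] at ha; exact Or.inr ha
        rcases h0 with h0 | h0
        · have := key (a / ∑ i, f (Pi.single i 1)) (by rwa [div_lt_iff₀ h0])
          rwa [div_mul_cancel₀ _ h0.ne'] at this
        · linarith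
    rwa [inv_mul_le_iff₀ hτ] at this
  · rw [← Finset.sum_div, le_div_iff₀ hs, one_mul]
    have := hf2 (fun i => if p σ i then 1 else 0) ⟨fun υ => if υ = σ then 1 else 0,
      fun υ => by positivity, by simp [hσ], fun i => by
        by_cases hi : p σ i <;> simp [hi, hσ]⟩
    rw [hf] at this
    simpa [Finset.sum_filter] using this

/-- Criterion for `Covered` in terms of fractional matchings. -/
lemma covered_of_matching {k : ℕ} {τ : ℝ} (hτ : 0 < τ)
    (h : ∀ (ρ : Fin d → ℝ) (A : Finset (Fin d → St)),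
      (∀ σ ∈ A, (Finset.univ.filter fun i => σ i = .C).card = d - k) →
      (∀ σ ∈ A, ∀ i j, σ i = .T → σ j = .F → ρ j < ρ i) →
      (∀ σ ∈ A, ∀ σ' ∈ A, Compat σ σ') → ∀ w : (Fin d → St) → ℝ, (∀ σ, 0 ≤ w σ) →
      (∀ i, ∑ σ ∈ A.filter fun σ => σ i ≠ .F, w σ ≤ 1) → ∑ σ ∈ A, w σ ≤ τ) :
    Covered d k τ := fun ρ A h1 h2 h3 => by
  have := exists_cover A (fun σ i => σ i ≠ .F) hτ fun w hw hw1 =>
    h ρ A h1 h2 h3 w hw fun i => by convert hw1 i
  convert this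

lemma Compat.exists_common {σ σ' : Fin d → St} (h : Compat σ σ') :
    ∃ i, σ i ≠ .F ∧ σ' i ≠ .F := by
  have k1 : ∀ s s' : St, s.thin ∧ s'.thin → s ≠ .F ∧ s' ≠ .F := by decide
  have k2 : ∀ s s' : St, s.sep s' → s ≠ .F ∧ s' ≠ .F := by decide
  rcases h with ⟨i, h⟩ | ⟨i, -, -, h, -⟩
  · exact ⟨i, k1 _ _ h⟩
  · exact ⟨i, k2 _ _ h⟩

lemma pair_sum {β : Type*} (A : Finset β) (w : β → ℝ) (p q : β → Prop) :
    ∑ σ ∈ A, ∑ σ' ∈ A, w σ * w σ' * (if p σ ∧ q σ' then 1 else 0) =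
      (∑ σ ∈ A.filter p, w σ) * ∑ σ ∈ A.filter q, w σ := by
  rw [Finset.sum_filter, Finset.sum_filter, Finset.sum_mul_sum]
  refine Finset.sum_congr rfl fun σ _ => Finset.sum_congr rfl fun σ' _ => ?_
  by_cases h1 : p σ <;> by_cases h2 : q σ' <;> simp [h1, h2]

lemma pair_bound {β : Type*} (A : Finset β) {w : β → ℝ} (hw : ∀ σ, 0 ≤ w σ) (g : Fin d → β → β → ℝ)
    {m : ℝ} (hg : ∀ σ ∈ A, ∀ σ' ∈ A, m ≤ ∑ i, g i σ σ') :
    m * (∑ σ ∈ A, w σ) ^ 2 ≤ ∑ i, ∑ σ ∈ A, ∑ σ' ∈ A, w σ * w σ' * g i σ σ' := by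
  rw [Finset.sum_comm, sq, Finset.sum_mul_sum, Finset.mul_sum]
  refine Finset.sum_le_sum fun σ hσ => ?_
  rw [Finset.sum_comm, Finset.mul_sum]
  refine Finset.sum_le_sum fun σ' hσ' => ?_
  rw [← Finset.mul_sum, mul_comm]
  exact mul_le_mul_of_nonneg_left (hg σ hσ σ' hσ') (mul_nonneg (hw _) (hw _))

theorem covered_sqrt {k : ℕ} (hk : k < d) : Covered d k √d := by
  have hd : (0 : ℝ) < d := by exact_mod_cast (show 0 < d by omega)
  refine covered_of_matching (Real.sqrt_pos.2 hd) fun ρ A _ _ h3 w hw hw1 => ?_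
  refine Real.le_sqrt_of_sq_le ?_
  have := pair_bound A hw (fun i σ σ' => if σ i ≠ .F ∧ σ' i ≠ .F then 1 else 0) (m := 1)
    fun σ hσ σ' hσ' => by
      obtain ⟨i, hi⟩ := (h3 σ hσ σ' hσ').exists_common
      refine le_trans ?_ (Finset.single_le_sum (f := fun i => if σ i ≠ .F ∧ σ' i ≠ .F then
        (1 : ℝ) else 0) (fun i _ => by positivity) (Finset.mem_univ i))
      simp [hi]
  rw [one_mul] at this
  refine this.trans ((Finset.sum_le_sum fun i _ => ?_).trans_eq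
    (show ∑ _i : Fin d, (1 : ℝ) = d by simp))
  have e := pair_sum A w (fun σ => σ i ≠ .F) fun σ => σ i ≠ .F
  have h0 : 0 ≤ ∑ σ ∈ A.filter fun σ => σ i ≠ .F, w σ := Finset.sum_nonneg fun _ _ => hw _
  have h1 := hw1 i
  refine le_trans (le_of_eq ?_) (mul_le_one₀ h1 h0 h1)
  convert e

/-- Score of a pair of statuses. -/
def St.score : St → St → ℕ
  | .C, .C => 2 | .C, .P => 1 | .C, .M => 1 | .P, .C => 1 | .M, .C => 1 | .P, .M => 1
  | .M, .P => 1 | _, _ => 0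

lemma sum_const_count {k : ℕ} {A : Finset (Fin d → St)}
    (h1 : ∀ σ ∈ A, (Finset.univ.filter fun i => σ i = .C).card = d - k) (w : (Fin d → St) → ℝ) :
    ∑ i, ∑ σ ∈ A.filter fun σ => σ i = .C, w σ = (d - k : ℕ) * ∑ σ ∈ A, w σ := by
  simp only [Finset.sum_filter]
  rw [Finset.sum_comm, Finset.mul_sum]
  refine Finset.sum_congr rfl fun σ hσ => ?_
  rw [← Finset.sum_filter, Finset.sum_const, h1 σ hσ, nsmul_eq_mul]

lemma quad_bound {k : ℕ} {A : Finset (Fin d → St)}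
    (h1 : ∀ σ ∈ A, (Finset.univ.filter fun i => σ i = .C).card = d - k)
    (h2 : ∀ σ ∈ A, ∀ i, σ i ≠ .T) (h3 : ∀ σ ∈ A, ∀ σ' ∈ A, Compat σ σ')
    {w : (Fin d → St) → ℝ} (hw : ∀ σ, 0 ≤ w σ)
    (hw1 : ∀ i, ∑ σ ∈ A.filter fun σ => σ i ≠ .F, w σ ≤ 1) :
    4 * (∑ σ ∈ A, w σ) ^ 2 ≤ d + 3 * (d - k : ℕ) * ∑ σ ∈ A, w σ := by
  have k1 : ∀ s s' : St, s ≠ .T → s' ≠ .T → s.thin ∧ s'.thin → 2 ≤ s.score s' := by decide
  have k2 : ∀ s s' : St, s ≠ .T → s' ≠ .T → s.sep s' → 1 ≤ s.score s' := by decide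
  have := pair_bound A hw (fun i σ σ' => ((σ i).score (σ' i) : ℝ)) (m := 2)
    fun σ hσ σ' hσ' => by
      have : 2 ≤ ∑ i, (σ i).score (σ' i) := by
        rcases h3 σ hσ σ' hσ' with ⟨i, h⟩ | ⟨i, j, hij, h, h'⟩
        · exact (k1 _ _ (h2 σ hσ i) (h2 σ' hσ' i) h).trans (Finset.single_le_sum
            (f := fun i => (σ i).score (σ' i)) (fun _ _ => Nat.zero_le _) (Finset.mem_univ i))
        · refine le_trans ?_ (Finset.sum_le_sum_of_subset (Finset.subset_univ {i, j}))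
          rw [Finset.sum_pair hij]
          exact add_le_add (k2 _ _ (h2 σ hσ i) (h2 σ' hσ' i) h) (k2 _ _ (h2 σ hσ j) (h2 σ' hσ' j) h')
      exact_mod_cast this
  have key : ∀ i, ∑ σ ∈ A, ∑ σ' ∈ A, w σ * w σ' * ((σ i).score (σ' i) : ℝ) ≤
      1 / 2 + 3 / 2 * ∑ σ ∈ A.filter fun σ => σ i = .C, w σ := by
    intro i
    set a := ∑ σ ∈ A.filter fun σ => σ i = .C, w σ with ha
    set p := ∑ σ ∈ A.filter fun σ => σ i = .P, w σ with hp
    set m := ∑ σ ∈ A.filter fun σ => σ i = .M, w σ with hm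
    have a0 : 0 ≤ a := Finset.sum_nonneg fun _ _ => hw _
    have p0 : 0 ≤ p := Finset.sum_nonneg fun _ _ => hw _
    have m0 : 0 ≤ m := Finset.sum_nonneg fun _ _ => hw _
    have hs : a + p + m ≤ 1 := by
      refine le_trans ?_ (hw1 i)
      simp only [ha, hp, hm, Finset.sum_filter, ← Finset.sum_add_distrib]
      refine Finset.sum_le_sum fun σ _ => ?_
      cases σ i <;> simp [hw σ]
    have e : ∑ σ ∈ A, ∑ σ' ∈ A, w σ * w σ' * ((σ i).score (σ' i) : ℝ) =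
        2 * (a * a) + (a * p + a * m + p * a + m * a + p * m + m * p) := by
      simp only [ha, hp, hm, Finset.sum_filter, Finset.sum_mul_sum]
      simp only [Finset.mul_sum, ← Finset.sum_add_distrib]
      refine Finset.sum_congr rfl fun σ _ => Finset.sum_congr rfl fun σ' _ => ?_
      cases σ i <;> cases σ' i <;> simp [St.score]; ring
    rw [e]
    nlinarith [sq_nonneg (p - m), mul_nonneg a0 (sub_nonneg.2 hs),
      mul_nonneg (add_nonneg p0 m0) (sub_nonneg.2 hs), mul_nonneg a0 (add_nonneg p0 m0)]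
  have h4 := this.trans (Finset.sum_le_sum fun i _ => key i)
  rw [Finset.sum_add_distrib, ← Finset.mul_sum _ _ (3 / 2 : ℝ), sum_const_count h1] at h4
  simp only [Finset.sum_const, Finset.card_univ, Fintype.card_fin, nsmul_eq_mul] at h4
  linarith

theorem covered_quad {k : ℕ} (hk : k < d) :
    Covered d k (1 + (3 * (d - k) + √(9 * (d - k) ^ 2 + 16 * d)) / 8) := by
  have hc : (0 : ℝ) < d - k := by rw [sub_pos]; exact_mod_cast hk
  refine covered_of_matching (by positivity) fun ρ A h1 h2 h3 w hw hw1 => ?_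
  obtain ⟨t, -, ht⟩ := Finset.univ.exists_max_image ρ ⟨⟨0, by omega⟩, Finset.mem_univ _⟩
  rw [← Finset.sum_filter_add_sum_filter_not A fun σ => σ t ≠ .F]
  refine add_le_add (hw1 t) ?_
  set B := A.filter fun σ => ¬ σ t ≠ .F with hB
  have hBA : B ⊆ A := Finset.filter_subset _ _
  have := quad_bound (A := B) (fun σ hσ => h1 σ (hBA hσ))
    (fun σ hσ i hi => (h2 σ (hBA hσ) i t hi (not_not.1 (Finset.mem_filter.1 hσ).2)).not_ge
      (ht i (Finset.mem_univ _))) (fun σ hσ σ' hσ' => h3 σ (hBA hσ) σ' (hBA hσ')) hw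
    fun i => le_trans (Finset.sum_le_sum_of_subset_of_nonneg (Finset.filter_subset_filter _ hBA)
      fun _ _ _ => hw _) (hw1 i)
  rw [Nat.cast_sub hk.le] at this
  have h5 : 8 * (∑ σ ∈ B, w σ) - 3 * (d - k) ≤ √(9 * (d - k) ^ 2 + 16 * d) :=
    Real.le_sqrt_of_sq_le (by nlinarith)
  linarith

end Pool.Agent.MP_ebf3a9_co.H25
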