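import Pool.Agent.MP_ebf3a9_co.H25.Cut

/-!
A Loomis-Whitney-Finner inequality on the unit cube and the volume argument for lower bounds.
-/

namespace Pool.Agent.MP_ebf3a9_co.H25

open Set Function MeasureTheory
open scoped Classical ENNReal

variable {d : ℕ}

lemma holder_le {J : Type*} (s : Finset J) {μ : Measure ℝ} [IsProbabilityMeasure μ]
    {f : J → ℝ → ℝ≥0∞} (hf : ∀ j, Measurable (f j)) {w : J → ℝ} (hw : ∀ j, 0 ≤ w j)
    (h1 : ∑ j ∈ s, w j ≤ 1) :
    ∫⁻ y, ∏ j ∈ s, f j y ^ w j ∂μ ≤ ∏ j ∈ s, (∫⁻ y, f j y ∂μ) ^ w j := by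
  have := ENNReal.lintegral_prod_norm_pow_le (μ := μ) (Finset.insertNone s)
    (f := fun o => Option.elim o (fun _ => 1) f) (fun o _ => by
      cases o with
      | none => exact aemeasurable_const
      | some j => exact (hf j).aemeasurable)
    (p := fun o => Option.elim o (1 - ∑ j ∈ s, w j) w) (by simp) (fun o _ => by
      cases o with
      | none => simpa using h1
      | some j => exact hw j)
  simpa using this

lemma finner {J : Type*} [Fintype J] (S : J → Finset (Fin d)) {w : J → ℝ} (hw : ∀ j, 0 ≤ w j)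
    (h1 : ∀ i, ∑ j ∈ Finset.univ.filter fun j => i ∈ S j, w j ≤ 1)
    (μ : Measure ℝ) [IsProbabilityMeasure μ] {f : J → (Fin d → ℝ) → ℝ≥0∞}
    (hf : ∀ j, Measurable (f j)) (hdep : ∀ j x i y, i ∉ S j → f j (update x i y) = f j x)
    (s : Finset (Fin d)) (x : Fin d → ℝ) :
    lmarginal (fun _ => μ) s (fun x => ∏ j, f j x ^ w j) x ≤
      ∏ j, (lmarginal (fun _ => μ) s (f j) x) ^ w j := by
  have hF : Measurable fun x => ∏ j, f j x ^ w j :=
    Finset.measurable_prod _ fun j _ => (hf j).pow_const _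
  induction s using Finset.induction_on generalizing x with
  | empty => simp
  | insert i s hi ih =>
    rw [lmarginal_insert _ hF hi]
    have hc : ∀ j y, i ∉ S j →
        lmarginal (fun _ => μ) s (f j) (update x i y) = lmarginal (fun _ => μ) s (f j) x := by
      intro j y hj
      rw [lmarginal_update_of_notMem (hf j) hi]
      congr 1
      funext z; exact hdep j z i y hj
    have hm : ∀ j, Measurable fun y => lmarginal (fun _ => μ) s (f j) (update x i y) := fun j =>
      ((hf j).lmarginal _).comp (measurable_update x)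
    calc _ ≤ ∫⁻ y, ∏ j, (lmarginal (fun _ => μ) s (f j) (update x i y)) ^ w j ∂μ :=
          lintegral_mono fun y => ih _
      _ = ∫⁻ y, (∏ j ∈ Finset.univ.filter fun j => ¬ i ∈ S j,
            (lmarginal (fun _ => μ) s (f j) x) ^ w j) *
            ∏ j ∈ Finset.univ.filter fun j => i ∈ S j,
              (lmarginal (fun _ => μ) s (f j) (update x i y)) ^ w j ∂μ := by
          congr 1; funext y
          rw [← Finset.prod_filter_not_mul_prod_filter Finset.univ fun j => i ∈ S j]
          congr 1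
          exact Finset.prod_congr rfl fun j hj => by rw [hc j y (Finset.mem_filter.1 hj).2]
      _ = (∏ j ∈ Finset.univ.filter fun j => ¬ i ∈ S j,
            (lmarginal (fun _ => μ) s (f j) x) ^ w j) *
            ∫⁻ y, ∏ j ∈ Finset.univ.filter fun j => i ∈ S j,
              (lmarginal (fun _ => μ) s (f j) (update x i y)) ^ w j ∂μ :=
          lintegral_const_mul _ (Finset.measurable_prod _ fun j _ => (hm j).pow_const _)
      _ ≤ (∏ j ∈ Finset.univ.filter fun j => ¬ i ∈ S j,
            (lmarginal (fun _ => μ) s (f j) x) ^ w j) *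
            ∏ j ∈ Finset.univ.filter fun j => i ∈ S j,
              (∫⁻ y, lmarginal (fun _ => μ) s (f j) (update x i y) ∂μ) ^ w j :=
          mul_le_mul_right (holder_le _ hm hw (h1 i)) _
      _ = _ := by
          rw [← Finset.prod_filter_not_mul_prod_filter Finset.univ fun j => i ∈ S j]
          congr 1
          · refine Finset.prod_congr rfl fun j hj => ?_
            rw [lmarginal_insert _ (hf j) hi]
            simp [hc j _ (Finset.mem_filter.1 hj).2]
          · exact Finset.prod_congr rfl fun j _ => by rw [lmarginal_insert _ (hf j) hi]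

/-- The open unit cube. -/
def cube (d : ℕ) : Set (Fin d → ℝ) := Set.pi univ fun _ => Ioo 0 1

lemma isOpen_cube : IsOpen (cube d) := isOpen_set_pi finite_univ fun _ _ => isOpen_Ioo

lemma convex_cube : Convex ℝ (cube d) := convex_pi fun _ _ => convex_Ioo 0 1

lemma volume_cube : volume (cube d) = 1 := by
  simp [cube, Real.volume_pi_Ioo (a := fun _ => 0) (b := fun _ => 1)]

/-- The cylinder over the projection of `K` to the coordinates in `s`. -/
def cyl (s : Finset (Fin d)) (K : Set (Fin d → ℝ)) : Set (Fin d → ℝ) :=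
  {x | ∃ y ∈ K, ∀ i ∈ s, x i = y i}

lemma isOpen_cyl (s : Finset (Fin d)) {K : Set (Fin d → ℝ)} (hK : IsOpen K) :
    IsOpen (cyl s K) := by
  have : cyl s K = ⋃ z : Fin d → ℝ, (fun x i => if i ∈ s then x i else z i) ⁻¹' K := by
    ext x
    simp only [cyl, mem_ofPred_eq, mem_iUnion, mem_preimage]
    constructor
    · rintro ⟨y, hy, h⟩
      refine ⟨y, ?_⟩
      convert hy using 1
      funext i; split_ifs with hi
      · exact h i hi
      · rfl
    · rintro ⟨z, hz⟩
      exact ⟨_, hz, fun i hi => by simp [hi]⟩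
  rw [this]
  refine isOpen_iUnion fun z => hK.preimage (continuous_pi fun i => ?_)
  split_ifs
  · exact continuous_apply i
  · exact continuous_const

lemma convex_cyl (s : Finset (Fin d)) {K : Set (Fin d → ℝ)} (hK : Convex ℝ K) :
    Convex ℝ (cyl s K) := by
  rintro x ⟨y, hy, h⟩ x' ⟨y', hy', h'⟩ a b ha hb hab
  exact ⟨a • y + b • y', hK hy hy' ha hb hab, fun i hi => by simp [h i hi, h' i hi]⟩

lemma volume_le_prod {J : Type*} [Fintype J] (S : J → Finset (Fin d)) {w : J → ℝ}
    (hw : ∀ j, 0 ≤ w j) (h1 : ∀ i, ∑ j ∈ Finset.univ.filter fun j => i ∈ S j, w j ≤ 1)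
    {K : Set (Fin d → ℝ)} (hK : IsOpen K) (hKc : K ⊆ cube d) :
    volume K ≤ ∏ j, volume (cyl (S j) K ∩ cube d) ^ w j := by
  have : IsProbabilityMeasure (volume.restrict (Ioo (0 : ℝ) 1)) := ⟨by simp⟩
  have hμ : (volume : Measure (Fin d → ℝ)).restrict (cube d) =
      Measure.pi fun _ => volume.restrict (Ioo (0 : ℝ) 1) := by
    rw [volume_pi, cube, Measure.restrict_pi_pi]
  have hm : ∀ j, MeasurableSet (cyl (S j) K) := fun j => (isOpen_cyl _ hK).measurableSet
  have key := finner S hw h1 (volume.restrict (Ioo (0 : ℝ) 1))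
    (f := fun j => (cyl (S j) K).indicator 1) (fun j => measurable_one.indicator (hm j))
    (fun j x i y hi => by
      have : update x i y ∈ cyl (S j) K ↔ x ∈ cyl (S j) K := by
        refine exists_congr fun z => and_congr_right fun _ => forall₂_congr fun l hl => ?_
        rw [update_of_ne (by rintro rfl; exact hi hl)]
      simp [indicator, this]) Finset.univ 0
  simp only [lmarginal_univ, ← hμ] at key
  calc volume K = ∫⁻ x in cube d, K.indicator 1 x := by
        rw [lintegral_indicator_one hK.measurableSet, Measure.restrict_apply hK.measurableSet,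
          inter_eq_left.2 hKc]
    _ ≤ ∫⁻ x in cube d, ∏ j, (cyl (S j) K).indicator 1 x ^ w j := by
        refine lintegral_mono fun x => ?_
        by_cases hx : x ∈ K
        · have : ∀ j, x ∈ cyl (S j) K := fun j => ⟨x, hx, fun _ _ => rfl⟩
          simp [hx, this]
        · simp [hx]
    _ ≤ _ := key.trans (le_of_eq (Finset.prod_congr rfl fun j _ => by
        rw [lintegral_indicator_one (hm j), Measure.restrict_apply (hm j)]))

lemma volume_hyperplane (Φ : (Fin d → ℝ) →ₗ[ℝ] (Fin d → ℝ)) (hΦ : Surjective Φ)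
    {a : Fin d → ℝ} (ha : a ≠ 0) (b : ℝ) : volume {x | a ⬝ᵥ Φ x = b} = 0 := by
  let s : AffineSubspace ℝ (Fin d → ℝ) :=
    { carrier := {x | a ⬝ᵥ Φ x = b}
      smul_vsub_vadd_mem' := fun c p q r hp hq hr => by
        simp only [mem_ofPred_eq] at hp hq hr ⊢
        simp [dotProduct_add, dotProduct_sub, hp, hq, hr] }
  refine Measure.addHaar_affineSubspace volume s fun h => ha ?_
  have h0 : ∀ x, a ⬝ᵥ Φ x = b := fun x => by
    have : x ∈ s := h ▸ AffineSubspace.mem_top ℝ _ x
    exact this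
  obtain ⟨x, hx⟩ := hΦ a
  have h1 := h0 0
  have h2 := h0 x
  rw [hx] at h2
  simp only [map_zero, dotProduct_zero] at h1
  exact dotProduct_self_eq_zero.1 (h2.trans h1.symm)

lemma prod_rpow_eq {J : Type*} (s : Finset J) {w : J → ℝ} (hw : ∀ j, 0 ≤ w j) (θ : ℝ≥0∞) :
    ∏ j ∈ s, θ ^ w j = θ ^ ∑ j ∈ s, w j := by
  induction s using Finset.induction_on with
  | empty => simp
  | insert j s hj ih =>
    rw [Finset.prod_insert hj, Finset.sum_insert hj, ih,
      ENNReal.rpow_add_of_nonneg _ _ (hw j) (Finset.sum_nonneg fun j _ => hw j)]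

/-- The volume argument. -/
lemma core {J : Type*} [Fintype J] (S : J → Finset (Fin d)) {w : J → ℝ}
    (hw : ∀ j, 0 ≤ w j) (h1 : ∀ i, ∑ j ∈ Finset.univ.filter fun j => i ∈ S j, w j ≤ 1)
    (Φ : (Fin d → ℝ) →ₗ[ℝ] (Fin d → ℝ)) (hΦ : Surjective Φ) (O : Finset (Set (Fin d → ℝ)))
    (θ : ℝ≥0∞) (hnet : ∀ K, Convex ℝ K → IsOpen K → K ⊆ cube d → ∀ j,
      θ < volume (cyl (S j) K ∩ cube d) →
      ∃ r ∈ O, ∃ r' ∈ O, r ≠ r' ∧ (∃ x ∈ K, Φ x ∈ r) ∧ ∃ x ∈ K, Φ x ∈ r')
    (T : Tree d) (C : Set (Fin d → ℝ)) (hC : IsOpen C) (hC' : Convex ℝ C) (hT : T.Lax O C) :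
    volume (Φ ⁻¹' C ∩ cube d) ≤ T.leaves * θ ^ ∑ j, w j := by
  have hΦc : Continuous Φ := Φ.continuous_of_finiteDimensional
  induction T generalizing C with
  | leaf =>
    have hK : IsOpen (Φ ⁻¹' C ∩ cube d) := (hC.preimage hΦc).inter isOpen_cube
    have hK' : Convex ℝ (Φ ⁻¹' C ∩ cube d) := (hC'.linear_preimage Φ).inter convex_cube
    refine (volume_le_prod S hw h1 hK inter_subset_right).trans ?_
    simp only [Tree.leaves, Nat.cast_one, one_mul]
    calc _ ≤ ∏ j, θ ^ w j := by
          refine Finset.prod_le_prod' fun j _ => ENNReal.rpow_le_rpow ?_ (hw j)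
          by_contra hc
          obtain ⟨r, hr, r', hr', hne, ⟨x, hx, hx2⟩, x', hx', hx2'⟩ :=
            hnet _ hK' hK inter_subset_right j (not_le.1 hc)
          exact hne (hT r hr r' hr' ⟨_, hx2, hx.1⟩ ⟨_, hx2', hx'.1⟩)
      _ = _ := prod_rpow_eq _ hw θ
  | node a b l r ihl ihr =>
    obtain ⟨ha, hl, hr⟩ := hT
    have c1 : Convex ℝ {x : Fin d → ℝ | a ⬝ᵥ x < b} :=
      convex_halfSpace_lt ⟨fun x y => dotProduct_add a x y, fun c x => dotProduct_smul c a x⟩ b
    have c2 : Convex ℝ {x : Fin d → ℝ | b < a ⬝ᵥ x} :=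
      convex_halfSpace_gt ⟨fun x y => dotProduct_add a x y, fun c x => dotProduct_smul c a x⟩ b
    have e1 := ihl _ (hC.inter (isOpen_dot_lt a b)) (hC'.inter c1) hl
    have e2 := ihr _ (hC.inter (isOpen_lt_dot a b)) (hC'.inter c2) hr
    calc _ ≤ volume (((Φ ⁻¹' (C ∩ {x | a ⬝ᵥ x < b}) ∩ cube d) ∪
          (Φ ⁻¹' (C ∩ {x | b < a ⬝ᵥ x}) ∩ cube d)) ∪ {x | a ⬝ᵥ Φ x = b}) := by
          refine measure_mono fun x hx => ?_
          rcases lt_trichotomy (a ⬝ᵥ Φ x) b with h | h | h
          · exact Or.inl (Or.inl ⟨⟨hx.1, h⟩, hx.2⟩)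
          · exact Or.inr h
          · exact Or.inl (Or.inr ⟨⟨hx.1, h⟩, hx.2⟩)
      _ ≤ _ := by
          refine (measure_union_le _ _).trans ?_
          rw [volume_hyperplane Φ hΦ ha, add_zero]
          refine (measure_union_le _ _).trans ((add_le_add e1 e2).trans (le_of_eq ?_))
          simp only [Tree.leaves]; push_cast; ring

end Pool.Agent.MP_ebf3a9_co.H25
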