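import Pool.Agent.MP_ebf3a9_co.H25.Design

/-!
Halton points are nets for boxes; the sharp lower bound for axis-aligned partitions.
-/

namespace Pool.Agent.MP_ebf3a9_co.H25

open Set Function
open scoped Classical ENNReal

variable {d : ℕ}

/-- Radical inverse in base `b`, with fuel. -/
noncomputable def rad (b : ℕ) : ℕ → ℕ → ℝ
  | 0, _ => 0
  | F + 1, n => ((n % b : ℕ) + rad b F (n / b)) / b

lemma rad_mem {b : ℕ} (hb : 0 < b) (F n : ℕ) : 0 ≤ rad b F n ∧ rad b F n ≤ 1 := by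
  have hb' : (0 : ℝ) < b := by exact_mod_cast hb
  induction F generalizing n with
  | zero => simp [rad]
  | succ F ih =>
    have h1 : ((n % b : ℕ) : ℝ) + 1 ≤ b := by exact_mod_cast Nat.mod_lt n hb
    have h2 := ih (n / b)
    refine ⟨div_nonneg (add_nonneg (Nat.cast_nonneg _) h2.1) hb'.le, ?_⟩
    rw [rad, div_le_one hb']; linarith [h2.2]

lemma rad_cell {b : ℕ} (hb : 0 < b) (e : ℕ) : ∀ F, e ≤ F → ∀ j < b ^ e, ∃ a, ∀ n,
    n ≡ a [MOD b ^ e] → (j : ℝ) ≤ rad b F n * b ^ e ∧ rad b F n * b ^ e ≤ j + 1 := by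
  have hb' : (0 : ℝ) < b := by exact_mod_cast hb
  induction e with
  | zero =>
    intro F _ j hj
    obtain rfl : j = 0 := by simpa using hj
    exact ⟨0, fun n _ => by simpa using rad_mem hb F n⟩
  | succ e ih =>
    intro F hF j hj
    obtain ⟨F, rfl⟩ : ∃ F', F = F' + 1 := ⟨F - 1, by omega⟩
    have hbe : 0 < b ^ e := by positivity
    obtain ⟨a, ha⟩ := ih F (by omega) (j % b ^ e) (Nat.mod_lt _ hbe)
    have hq : j / b ^ e < b := by
      rw [Nat.div_lt_iff_lt_mul hbe]; rwa [pow_succ'] at hj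
    refine ⟨j / b ^ e + b * a, fun n hn => ?_⟩
    have h1 : n % b = j / b ^ e := by
      have := (hn.of_dvd (Dvd.intro_left (b ^ e) (pow_succ b e).symm))
      rw [Nat.ModEq, Nat.add_mul_mod_self_left, Nat.mod_eq_of_lt hq] at this
      exact this
    have h2 : n / b ≡ a [MOD b ^ e] := by
      have h3 : j / b ^ e + b * (n / b) ≡ j / b ^ e + b * a [MOD b * b ^ e] := by
        rw [← h1, Nat.mod_add_div, ← pow_succ', h1]; exact hn
      exact Nat.ModEq.mul_left_cancel' hb.ne' (Nat.ModEq.add_left_cancel' _ h3)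
    have h4 := ha _ h2
    have h5 : (j : ℝ) = (j % b ^ e : ℕ) + (b : ℝ) ^ e * (j / b ^ e : ℕ) := by
      exact_mod_cast (Nat.mod_add_div j (b ^ e)).symm
    have h6 : rad b (F + 1) n * b ^ (e + 1) =
        (b : ℝ) ^ e * (j / b ^ e : ℕ) + rad b F (n / b) * b ^ e := by
      rw [rad, h1, pow_succ]; field_simp
    rw [h6]
    constructor <;> linarith [h4.1, h4.2]

/-- `P` is a `δ`-robust net for boxes of volume above `θ` in the unit cube. -/
def BoxNet {N : ℕ} (P : Fin N → Fin d → ℝ) (δ θ : ℝ) : Prop :=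
  ∀ lo hi : Fin d → ℝ, (∀ i, 0 ≤ lo i ∧ lo i < hi i ∧ hi i ≤ 1) → θ < ∏ i, (hi i - lo i) →
    ∃ n, ∀ y : Fin d → ℝ, (∀ i, |y i - P n i| ≤ δ) → ∀ i, lo i < y i ∧ y i < hi i

theorem exists_boxNet (d : ℕ) : ∃ C : ℝ, 0 < C ∧ ∀ N : ℕ, 1 ≤ N →
    ∃ (P : Fin N → Fin d → ℝ) (δ : ℝ), 0 < δ ∧ BoxNet P δ (C / N) := by
  let b : Fin d → ℕ := fun i => Nat.fermatNumber i
  have hb : ∀ i, 2 < b i := fun i => Nat.two_lt_fermatNumber _
  have hb' : ∀ i, (2 : ℝ) < b i := fun i => by exact_mod_cast hb i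
  have hC : 0 < ∏ i, (4 * (b i : ℝ)) := Finset.prod_pos fun i _ => by linarith [hb' i]
  refine ⟨∏ i, (4 * (b i : ℝ)), hC, fun N hN => ?_⟩
  have hN' : (0 : ℝ) < N := by exact_mod_cast hN
  refine ⟨fun n i => rad (b i) N n, (∏ i, (4 * (b i : ℝ))) / N / 8, by positivity,
    fun lo hi hlh hv => ?_⟩
  have hl0 : ∀ i, 0 < hi i - lo i := fun i => sub_pos.2 (hlh i).2.1
  have hl1 : ∀ i, hi i - lo i ≤ 1 := fun i => by linarith [(hlh i).1, (hlh i).2.2]
  have hli : ∀ i, ∏ j, (hi j - lo j) ≤ hi i - lo i := by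
    intro i
    rw [← Finset.mul_prod_erase _ _ (Finset.mem_univ i)]
    exact mul_le_of_le_one_right (hl0 i).le
      (Finset.prod_le_one (fun j _ => (hl0 j).le) fun j _ => hl1 j)
  have he : ∀ i, ∃ e : ℕ, 4 ≤ (hi i - lo i) * (b i : ℝ) ^ e ∧
      (hi i - lo i) * (b i : ℝ) ^ e ≤ 4 * b i := by
    intro i
    obtain ⟨e, h1, h2⟩ := exists_nat_pow_near (x := 4 / (hi i - lo i)) (y := (b i : ℝ))
      (by rw [le_div_iff₀ (hl0 i)]; linarith [hl1 i]) (by linarith [hb' i])
    rw [le_div_iff₀ (hl0 i)] at h1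
    rw [div_lt_iff₀ (hl0 i)] at h2
    exact ⟨e + 1, by linarith, by rw [pow_succ]; nlinarith [hb' i]⟩
  choose e he1 he2 using he
  have hM : ∏ i, b i ^ e i < N := by
    have h1 : (∏ i, (hi i - lo i)) * ∏ i, (b i : ℝ) ^ e i ≤ ∏ i, (4 * (b i : ℝ)) := by
      rw [← Finset.prod_mul_distrib]
      exact Finset.prod_le_prod (fun i _ => by linarith [he1 i]) fun i _ => he2 i
    rw [div_lt_iff₀ hN'] at hv
    have h2 : 0 < ∏ i, (hi i - lo i) := Finset.prod_pos fun i _ => hl0 i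
    have h3 : ∏ i, (b i : ℝ) ^ e i < N := lt_of_mul_lt_mul_left (h1.trans_lt hv) h2.le
    exact_mod_cast h3
  have heN : ∀ i, e i ≤ N := fun i => by
    have h1 : b i ^ e i ≤ ∏ i, b i ^ e i := Finset.single_le_prod' (f := fun i => b i ^ e i)
      (fun j _ => Nat.one_le_pow _ _ (by linarith [hb j])) (Finset.mem_univ i)
    have h2 : e i < b i ^ e i := Nat.lt_pow_self (by linarith [hb i])
    omega
  have hcell : ∀ i, ∃ a, ∀ n, n ≡ a [MOD b i ^ e i] →
      lo i + (hi i - lo i) / 4 ≤ rad (b i) N n ∧ rad (b i) N n ≤ hi i - (hi i - lo i) / 4 := by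
    intro i
    have hp : (0 : ℝ) < (b i : ℝ) ^ e i := pow_pos (by linarith [hb' i]) _
    have h0 : 0 ≤ (lo i + (hi i - lo i) / 4) * (b i : ℝ) ^ e i :=
      mul_nonneg (by linarith [(hlh i).1, hl0 i]) hp.le
    set j := ⌈(lo i + (hi i - lo i) / 4) * (b i : ℝ) ^ e i⌉₊ with hj
    have j1 : (lo i + (hi i - lo i) / 4) * (b i : ℝ) ^ e i ≤ j := Nat.le_ceil _
    have j2 : (j : ℝ) + 1 ≤ (hi i - (hi i - lo i) / 4) * (b i : ℝ) ^ e i := by
      have := Nat.ceil_lt_add_one h0
      nlinarith [he1 i]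
    have j3 : j < b i ^ e i := by
      have : (j : ℝ) < (b i : ℝ) ^ e i := by nlinarith [(hlh i).2.2, hl0 i]
      exact_mod_cast this
    obtain ⟨a, ha⟩ := rad_cell (show 0 < b i by linarith [hb i]) (e i) N (heN i) j j3
    refine ⟨a, fun n hn => ?_⟩
    have := ha n hn
    exact ⟨le_of_mul_le_mul_right (j1.trans this.1) hp,
      le_of_mul_le_mul_right (this.2.trans j2) hp⟩
  choose a ha using hcell
  have hs : ∀ i ∈ (Finset.univ : Finset (Fin d)), b i ^ e i ≠ 0 := fun i _ =>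
    pow_ne_zero _ (by linarith [hb i])
  have pp : Set.Pairwise (Finset.univ : Finset (Fin d)) (Nat.Coprime on fun i => b i ^ e i) :=
    fun i _ j _ hij => Nat.Coprime.pow _ _
      (Nat.pairwise_coprime_fermatNumber fun h => hij (Fin.ext h))
  refine ⟨⟨(Nat.chineseRemainderOfFinset a _ _ hs pp).1,
    (Nat.chineseRemainderOfFinset_lt_prod a _ hs pp).trans hM⟩, fun y hy i => ?_⟩
  have h1 := ha i _ ((Nat.chineseRemainderOfFinset a _ _ hs pp).2 i (Finset.mem_univ _))
  have h2 := abs_le.1 (hy i)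
  have h3 := hli i
  constructor <;> linarith [h1.1, h1.2, h2.1, h2.2, hl0 i]

lemma prod_le_rpow {J : Type*} [Fintype J] (S : J → Finset (Fin d)) {w : J → ℝ}
    (hw : ∀ j, 0 ≤ w j) (h1 : ∀ i, ∑ j ∈ Finset.univ.filter fun j => i ∈ S j, w j ≤ 1)
    {l : Fin d → ℝ} (hl0 : ∀ i, 0 < l i) (hl1 : ∀ i, l i ≤ 1) {θ : ℝ} (hθ0 : 0 < θ)
    (hθ : ∀ j, ∏ i ∈ S j, l i ≤ θ) : ∏ i, l i ≤ θ ^ ∑ j, w j := by
  calc ∏ i, l i ≤ ∏ i, l i ^ ∑ j ∈ Finset.univ.filter fun j => i ∈ S j, w j := by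
        refine Finset.prod_le_prod (fun i _ => (hl0 i).le) fun i _ => ?_
        simpa using Real.rpow_le_rpow_of_exponent_ge (hl0 i) (hl1 i) (h1 i)
    _ = ∏ i, ∏ j ∈ Finset.univ.filter fun j => i ∈ S j, l i ^ w j :=
        Finset.prod_congr rfl fun i _ => Real.rpow_sum_of_pos (hl0 i) _ _
    _ = ∏ j, ∏ i ∈ S j, l i ^ w j := by
        refine Finset.prod_comm' fun i j => by simp
    _ = ∏ j, (∏ i ∈ S j, l i) ^ w j :=
        Finset.prod_congr rfl fun j _ => Real.finsetProd_rpow _ _ (fun i _ => (hl0 i).le) _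
    _ ≤ ∏ j, θ ^ w j := Finset.prod_le_prod
        (fun j _ => Real.rpow_nonneg (Finset.prod_nonneg fun i _ => (hl0 i).le) _) fun j _ =>
          Real.rpow_le_rpow (Finset.prod_nonneg fun i _ => (hl0 i).le) (hθ j) (hw j)
    _ = _ := (Real.rpow_sum_of_pos hθ0 _ _).symm

lemma prod_split (lo hi : Fin d → ℝ) (i : Fin d) (β : ℝ) :
    ∏ j, (hi j - lo j) = ∏ j, (update hi i β j - lo j) + ∏ j, (hi j - update lo i β j) := by
  simp only [← Finset.mul_prod_erase _ _ (Finset.mem_univ i), update_self]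
  have e1 : ∏ j ∈ Finset.univ.erase i, (update hi i β j - lo j) =
      ∏ j ∈ Finset.univ.erase i, (hi j - lo j) :=
    Finset.prod_congr rfl fun j hj => by rw [update_of_ne (Finset.mem_erase.1 hj).1]
  have e2 : ∏ j ∈ Finset.univ.erase i, (hi j - update lo i β j) =
      ∏ j ∈ Finset.univ.erase i, (hi j - lo j) :=
    Finset.prod_congr rfl fun j hj => by rw [update_of_ne (Finset.mem_erase.1 hj).1]
  rw [e1, e2]; ring

lemma axis_core (O : Finset (Set (Fin d → ℝ))) {m : ℝ} (hm : 0 ≤ m)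
    (hleaf : ∀ lo hi : Fin d → ℝ, Sub 0 1 lo hi → (∀ r ∈ O, ∀ r' ∈ O, (r ∩ box lo hi).Nonempty →
      (r' ∩ box lo hi).Nonempty → r = r') → ∏ i, (hi i - lo i) ≤ m)
    (T : Tree d) (hA : T.AxisAligned) (lo hi : Fin d → ℝ) (hs : Sub 0 1 lo hi)
    (hT : T.Lax O (box lo hi)) : ∏ i, (hi i - lo i) ≤ T.leaves * m := by
  induction T generalizing lo hi with
  | leaf => simpa [Tree.leaves] using hleaf lo hi hs hT
  | node a b l r ihl ihr =>
    obtain ⟨ha, hl, hr⟩ := hT
    obtain ⟨⟨i, t, rfl⟩, hAl, hAr⟩ := hA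
    have ht : t ≠ 0 := fun h => ha (by simp [h])
    have key : ∀ l r : Tree d, (∀ lo hi, Sub 0 1 lo hi → l.Lax O (box lo hi) →
        ∏ i, (hi i - lo i) ≤ l.leaves * m) → (∀ lo hi, Sub 0 1 lo hi → r.Lax O (box lo hi) →
        ∏ i, (hi i - lo i) ≤ r.leaves * m) → l.Lax O (box lo hi ∩ {x | x i < b / t}) →
        r.Lax O (box lo hi ∩ {x | b / t < x i}) →
        ∏ i, (hi i - lo i) ≤ (l.leaves + r.leaves) * m := by
      intro l r h1 h2 h3 h4
      have p1 : 0 ≤ (l.leaves : ℝ) * m := by positivity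
      have p2 : 0 ≤ (r.leaves : ℝ) * m := by positivity
      by_cases c1 : b / t ≤ lo i
      · have := h2 lo hi hs (h4.mono fun x hx => ⟨hx, c1.trans_lt (hx i).1⟩)
        linarith
      by_cases c2 : hi i ≤ b / t
      · have := h1 lo hi hs (h3.mono fun x hx => ⟨hx, (hx i).2.trans_le c2⟩)
        linarith
      have s1 := sub_update hs.lt i le_rfl (not_le.1 c2).le (not_le.1 c1)
      have s2 := sub_update hs.lt i (not_le.1 c1).le le_rfl (not_le.1 c2)
      rw [update_eq_self] at s1 s2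
      have e1 := h1 _ _ (hs.trans s1) (h3.mono fun x hx => ⟨s1.subset hx, by
        simpa using (hx i).2⟩)
      have e2 := h2 _ _ (hs.trans s2) (h4.mono fun x hx => ⟨s2.subset hx, by
        simpa using (hx i).1⟩)
      rw [prod_split lo hi i (b / t)]
      linarith
    simp only [Tree.leaves]
    push_cast
    rcases lt_or_gt_of_ne ht with h | h
    · rw [add_comm]
      refine key r l (ihr hAr) (ihl hAl) (hr.mono fun x hx => ⟨hx.1, ?_⟩)
        (hl.mono fun x hx => ⟨hx.1, ?_⟩)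
      · have := hx.2
        simp only [mem_ofPred_eq, single_dotProduct] at this ⊢
        rw [lt_div_iff_of_neg h] at this; linarith
      · have := hx.2
        simp only [mem_ofPred_eq, single_dotProduct] at this ⊢
        rw [div_lt_iff_of_neg h] at this; linarith
    · refine key l r (ihl hAl) (ihr hAr) (hl.mono fun x hx => ⟨hx.1, ?_⟩)
        (hr.mono fun x hx => ⟨hx.1, ?_⟩)
      · have := hx.2
        simp only [mem_ofPred_eq, single_dotProduct] at this ⊢
        rw [lt_div_iff₀ h] at this; linarith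
      · have := hx.2
        simp only [mem_ofPred_eq, single_dotProduct] at this ⊢
        rw [div_lt_iff₀ h] at this; linarith

lemma plain_inst {J : Type} [Fintype J] [Nonempty J] {k : ℕ} (hk : k ≤ d)
    {S : J → Finset (Fin d)} (hS : ∀ j, (S j).card = d - k)
    (hint : ∀ j j', ∃ i, i ∈ S j ∧ i ∈ S j') {α : ℝ} (hα : 1 ≤ α) {w : J → ℝ}
    (hw : ∀ j, 0 ≤ w j) (h1 : ∀ i, ∑ j ∈ Finset.univ.filter fun j => i ∈ S j, w j ≤ 1) {N n : ℕ}
    (hn : Fintype.card J * 2 * N ≤ n) {P : Fin N → Fin d → ℝ} {δ θ : ℝ} (hδ : 0 < δ)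
    (hθ : 0 < θ) (hP : BoxNet P δ θ) :
    ENNReal.ofReal (θ⁻¹ ^ ∑ j, w j) ≤ (piPerp d k α n : ℝ≥0∞) := by
  let A := (J × Bool × Fin N) ⊕ Fin (n - Fintype.card J * 2 * N)
  have hA : Fintype.card A = n := by
    simp only [A, Fintype.card_sum, Fintype.card_prod, Fintype.card_bool, Fintype.card_fin,
      ← mul_assoc]
    omega
  obtain ⟨p, hp, γ, hγ, -, hgap⟩ := exists_generic (A := A)
    (Sum.elim (fun q => P q.2.2) fun _ => 0) hδ
  let ty : A → J := Sum.elim (fun q => q.1) fun _ => Classical.arbitrary J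
  let obj : A → Set (Fin d → ℝ) := fun a =>
    Icc (fun i => if i ∈ S (ty a) then p a i else 0) fun i => if i ∈ S (ty a) then p a i else 1
  obtain ⟨hinj, hinst⟩ := isInstance_image (k := k) (α := α) (obj := obj) (fun a => by
    have hlt : ∀ i, ((if i ∈ S (ty a) then p a i else 0) < if i ∈ S (ty a) then p a i else 1) ↔
        ¬ i ∈ S (ty a) := fun i => by by_cases h : i ∈ S (ty a) <;> simp [h]
    refine ⟨_, _, fun i => by split_ifs <;> simp, rfl, ?_, fun i j hi hj => ?_⟩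
    · have h1 := Finset.card_filter_add_card_filter_not (s := Finset.univ)
        (fun i => i ∈ S (ty a))
      rw [Finset.filter_mem_eq_inter, Finset.univ_inter, hS, Finset.card_univ,
        Fintype.card_fin] at h1
      rw [Finset.filter_congr fun i _ => hlt i]
      omega
    · simpa [(hlt i).1 hi, (hlt j).1 hj] using hα) (fun a a' hne => by
    obtain ⟨i, h1, h2⟩ := hint (ty a) (ty a')
    refine Set.disjoint_left.2 fun u hu hu' => ?_
    have e1 := hu.1 i
    have e2 := hu.2 i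
    have e3 := hu'.1 i
    have e4 := hu'.2 i
    simp only [h1, h2, if_true] at e1 e2 e3 e4
    have := hgap a a' hne i
    rw [show p a i - p a' i = 0 by linarith, abs_zero] at this
    linarith)
  rw [hA] at hinst
  refine le_piPerp hinst fun T hT hTA => ?_
  have key := axis_core (Finset.univ.image obj) (m := θ ^ ∑ j, w j) (by positivity)
    (fun lo hi hs hleaf => by
      have g0 : ∀ i, 0 ≤ lo i := hs.l
      have g1 : ∀ i, hi i ≤ 1 := hs.h
      refine prod_le_rpow S hw h1 (fun i => sub_pos.2 (hs.lt i))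
        (fun i => by linarith [g0 i, g1 i]) hθ fun j => ?_
      by_contra hc
      obtain ⟨m, hm⟩ := hP (fun i => if i ∈ S j then lo i else 0)
        (fun i => if i ∈ S j then hi i else 1)
        (fun i => by split_ifs <;> simp [g0 i, g1 i, hs.lt i]) (by
          refine (not_le.1 hc).trans_le (le_of_eq ?_)
          rw [← Finset.prod_subset (Finset.subset_univ (S j)) fun i _ hi => by simp [hi]]
          exact Finset.prod_congr rfl fun i hi => by simp [hi])
      have : ∀ b : Bool, (obj (Sum.inl (j, b, m)) ∩ box lo hi).Nonempty := by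
        intro b
        have h2 := hm (p (Sum.inl (j, b, m))) (hp _)
        refine ⟨fun i => if i ∈ S j then p (Sum.inl (j, b, m)) i else (lo i + hi i) / 2,
          ⟨fun i => ?_, fun i => ?_⟩, fun i => ?_⟩
        · by_cases hi0 : i ∈ S j <;> simp only [ty, Sum.elim_inl, hi0, if_true, if_false, le_refl]
          linarith [g0 i, hs.lt i]
        · by_cases hi0 : i ∈ S j <;> simp only [ty, Sum.elim_inl, hi0, if_true, if_false, le_refl]
          linarith [g1 i, hs.lt i]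
        · by_cases hi0 : i ∈ S j
          · simpa [hi0] using h2 i
          · simp only [hi0, if_false]; constructor <;> linarith [hs.lt i]
      have e := hleaf _ (Finset.mem_image_of_mem _ (Finset.mem_univ _)) _
        (Finset.mem_image_of_mem _ (Finset.mem_univ _)) (this true) (this false)
      simpa using Sum.inl_injective (hinj e)) T hTA 0 1 (Sub.refl fun i => by simp)
    (hT.mono (subset_univ _))
  rw [Real.inv_rpow hθ.le, inv_le_iff_one_le_mul₀ (by positivity)]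
  simpa using key

theorem plain_lower {J : Type} [Fintype J] [Nonempty J] {k : ℕ} (hk : k ≤ d)
    {S : J → Finset (Fin d)} (hS : ∀ j, (S j).card = d - k)
    (hint : ∀ j j', ∃ i, i ∈ S j ∧ i ∈ S j') {w : J → ℝ}
    (hw : ∀ j, 0 ≤ w j) (h1 : ∀ i, ∑ j ∈ Finset.univ.filter fun j => i ∈ S j, w j ≤ 1) :
    ∃ c : ℝ, 0 < c ∧ ∀ α : ℝ, 1 ≤ α → ∀ n : ℕ, 1 ≤ n →
      ENNReal.ofReal (c * (n : ℝ) ^ ∑ j, w j) ≤ (piPerp d k α n : ℝ≥0∞) := by
  obtain ⟨C, hC, hnet⟩ := exists_boxNet d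
  set m : ℕ := Fintype.card J with hm
  have hm0 : 0 < m := Fintype.card_pos
  have hm' : (0 : ℝ) < m := by exact_mod_cast hm0
  set B : ℝ := 4 * m * C + 2 * m with hB
  have hB0 : 0 < B := by positivity
  have hW : 0 ≤ ∑ j, w j := Finset.sum_nonneg fun j _ => hw j
  refine ⟨B⁻¹ ^ ∑ j, w j, by positivity, fun α hα n hn => ?_⟩
  have main : ∀ θ : ℝ, 0 < θ → θ * n ≤ B →
      B⁻¹ ^ (∑ j, w j) * (n : ℝ) ^ ∑ j, w j ≤ θ⁻¹ ^ ∑ j, w j := by
    intro θ hθ hθn
    rw [← Real.mul_rpow (by positivity) (by positivity)]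
    refine Real.rpow_le_rpow (by positivity) ?_ hW
    rw [inv_mul_eq_div, div_le_iff₀ (by positivity), inv_mul_eq_div, le_div_iff₀ hθ]
    linarith
  by_cases hsmall : n < 2 * m
  · refine le_trans (ENNReal.ofReal_le_ofReal (main 1 one_pos ?_))
      (plain_inst hk hS hint hα hw h1 (N := 0) (by simp) (P := Fin.elim0) one_pos one_pos
        fun lo hi hlh hK => ?_)
    · have : (n : ℝ) < 2 * m := by exact_mod_cast hsmall
      nlinarith [mul_pos hm' hC]
    · exact absurd hK (not_lt.2 (Finset.prod_le_one (fun i _ => (sub_pos.2 (hlh i).2.1).le)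
        fun i _ => by linarith [(hlh i).1, (hlh i).2.2]))
  · set N := n / (m * 2) with hN
    have hN2 : 1 ≤ N := (Nat.le_div_iff_mul_le (by omega)).2 (by omega)
    have hN3 : m * 2 * N ≤ n := Nat.mul_div_le _ _
    have hN4 : n < m * 2 * (N + 1) := Nat.lt_mul_div_succ _ (by omega)
    obtain ⟨P, δ, hδ, hP⟩ := hnet N hN2
    have hN2' : (1 : ℝ) ≤ N := by exact_mod_cast hN2
    refine le_trans (ENNReal.ofReal_le_ofReal (main _ (by positivity) ?_))
      (plain_inst hk hS hint hα hw h1 hN3 hδ (by positivity) hP)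
    have e1 : (n : ℝ) ≤ 4 * m * N := by
      have : (n : ℝ) < m * 2 * (N + 1) := by exact_mod_cast hN4
      nlinarith
    rw [div_mul_eq_mul_div, div_le_iff₀ (by linarith)]
    nlinarith [mul_le_mul_of_nonneg_left e1 hC.le, mul_pos hm' (show (0 : ℝ) < N by linarith)]

end Pool.Agent.MP_ebf3a9_co.H25
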