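import Pool.Agent.MP_ebf3a9_co.H25.Finner

/-!
Robust nets for convex subsets of the unit cube.
-/

namespace Pool.Agent.MP_ebf3a9_co.H25

open Set Function MeasureTheory Matrix
open scoped Classical ENNReal Nat

variable {d : ℕ}

/-- A parallelepiped. -/
def par (x : Fin d → ℝ) (M : Matrix (Fin d) (Fin d) ℝ) (a b : ℝ) : Set (Fin d → ℝ) :=
  (fun t => x + M *ᵥ t) '' Icc (fun _ => a) (fun _ => b)

lemma volume_par (x : Fin d → ℝ) (M : Matrix (Fin d) (Fin d) ℝ) {a b : ℝ} (hab : a ≤ b) :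
    volume (par x M a b) = ENNReal.ofReal (|M.det| * (b - a) ^ d) := by
  have : par x M a b = (fun y => x + y) '' (Matrix.toLin' M '' Icc (fun _ => a) (fun _ => b)) := by
    rw [image_image]; rfl
  rw [this, image_add_left, measure_preimage_add, Measure.addHaar_image_linearMap,
    LinearMap.det_toLin', Real.volume_Icc_pi, ENNReal.ofReal_mul (abs_nonneg _),
    ENNReal.ofReal_pow (sub_nonneg.2 hab)]
  simp

lemma measurableSet_par (x : Fin d → ℝ) (M : Matrix (Fin d) (Fin d) ℝ) (a b : ℝ) :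
    MeasurableSet (par x M a b) :=
  (isCompact_Icc.image (by fun_prop)).isClosed.measurableSet

lemma abs_det_le {M : Matrix (Fin d) (Fin d) ℝ} (h : ∀ i j, |M i j| ≤ 1) : |M.det| ≤ d ! := by
  simpa using Matrix.det_le (abv := AbsoluteValue.abs) (x := (1 : ℝ)) h

lemma mulVec_inv_cramer {M : Matrix (Fin d) (Fin d) ℝ} (h : M.det ≠ 0) (e : Fin d → ℝ) :
    M *ᵥ (M.det⁻¹ • cramer M e) = e := by
  rw [mulVec_smul, mulVec_cramer, smul_smul, inv_mul_cancel₀ h, one_smul]

lemma abs_le_one_of_cube {x y : Fin d → ℝ} (hx : x ∈ cube d) (hy : y ∈ cube d) (i : Fin d) :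
    |y i - x i| ≤ 1 := by
  have h1 := hx i (mem_univ _)
  have h2 := hy i (mem_univ _)
  rw [abs_le]; constructor <;> linarith [h1.1, h1.2, h2.1, h2.2]

lemma inscribe {K : Set (Fin d → ℝ)} (hK : Convex ℝ K) (hKo : IsOpen K) (hKc : K ⊆ cube d)
    {v : ℝ} (hv : ENNReal.ofReal v < volume K) :
    ∃ x M, (∀ i j, |M i j| ≤ 1) ∧ v / 4 ^ d ≤ |M.det| ∧ par x M 0 (1 / (d + 1)) ⊆ K := by
  obtain ⟨x, hx⟩ : K.Nonempty := nonempty_of_measure_ne_zero (ne_of_gt (zero_le.trans_lt hv))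
  let Mz : (Fin d → Fin d → ℝ) → Matrix (Fin d) (Fin d) ℝ := fun z => Matrix.of fun i j => z j i - x i
  let D : Set ℝ := {t | ∃ z : Fin d → Fin d → ℝ, (∀ j, z j ∈ K) ∧ t = |(Mz z).det|}
  have hM1 : ∀ z : Fin d → Fin d → ℝ, (∀ j, z j ∈ K) → ∀ i j, |Mz z i j| ≤ 1 :=
    fun z hz i j => abs_le_one_of_cube (hKc hx) (hKc (hz j)) i
  have hbdd : BddAbove D := ⟨d !, by rintro t ⟨z, hz, rfl⟩; exact abs_det_le (hM1 z hz)⟩
  have hpos : 0 < sSup D := by
    obtain ⟨ε, hε, hb⟩ := Metric.isOpen_iff.1 hKo x hx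
    refine lt_of_lt_of_le (b := (ε / 2) ^ d) (by positivity) (le_csSup hbdd
      ⟨fun j => x + Pi.single j (ε / 2), fun j => hb ?_, ?_⟩)
    · rw [Metric.mem_ball, dist_self_add_left, Pi.norm_single, Real.norm_eq_abs,
        abs_of_pos (by linarith)]
      linarith
    · have : Mz (fun j => x + Pi.single j (ε / 2)) = Matrix.diagonal fun _ => ε / 2 := by
        ext i j
        by_cases h : i = j
        · subst h; simp [Mz]
        · simp [Mz, h]
      rw [this, det_diagonal, abs_of_pos (Finset.prod_pos fun _ _ => by linarith),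
        Finset.prod_const, Finset.card_univ, Fintype.card_fin]
  obtain ⟨t, ⟨z, hz, rfl⟩, ht⟩ := exists_lt_of_lt_csSup (s := D) (b := sSup D / 2)
    ⟨_, fun _ => x, fun _ => hx, rfl⟩ (by linarith)
  have hdet : (Mz z).det ≠ 0 := by
    intro h; rw [h, abs_zero] at ht; linarith
  have hdet' : 0 < |(Mz z).det| := abs_pos.2 hdet
  refine ⟨x, Mz z, hM1 z hz, ?_, ?_⟩
  · have hsub : K ⊆ par x (Mz z) (-2) 2 := by
      intro y hy
      refine ⟨(Mz z).det⁻¹ • cramer (Mz z) (y - x), ?_, by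
        simp only [mulVec_inv_cramer hdet]; abel⟩
      have : ∀ j, |((Mz z).det⁻¹ • cramer (Mz z) (y - x)) j| ≤ 2 := by
        intro j
        have e : (Mz z).updateCol j (y - x) = Mz (update z j y) := by
          ext a b
          by_cases h : b = j
          · subst h; simp [Mz]
          · simp [Mz, h]
        have h1 : |(Mz (update z j y)).det| ≤ sSup D := le_csSup hbdd ⟨_, fun l => by
          by_cases h : l = j
          · subst h; simpa using hy
          · simpa [h] using hz l, rfl⟩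
        rw [Pi.smul_apply, cramer_apply, e, smul_eq_mul, abs_mul, abs_inv,
          inv_mul_le_iff₀ hdet']
        linarith
      exact ⟨fun j => (abs_le.1 (this j)).1, fun j => (abs_le.1 (this j)).2⟩
    have h2 := hv.trans_le (measure_mono hsub)
    rw [volume_par _ _ (by norm_num), ENNReal.ofReal_lt_ofReal_iff (by positivity)] at h2
    rw [div_le_iff₀ (by positivity)]
    norm_num at h2
    exact h2.le
  · rintro _ ⟨t, ht, rfl⟩
    have hs : ∑ j, t j ≤ 1 := by
      calc ∑ j, t j ≤ ∑ _j : Fin d, (1 / (d + 1) : ℝ) := Finset.sum_le_sum fun j _ => ht.2 j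
        _ = d / (d + 1) := by simp [div_eq_mul_inv]
        _ ≤ 1 := by rw [div_le_one (by positivity)]; linarith
    have := hK.sum_mem (t := Finset.insertNone Finset.univ)
      (w := fun o => Option.elim o (1 - ∑ j, t j) t) (z := fun o => Option.elim o x z)
      (fun o _ => by
        cases o with
        | none => simpa using hs
        | some j => exact ht.1 j) (by simp) (fun o _ => by
        cases o with
        | none => exact hx
        | some j => exact hz j)
    convert this using 1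
    funext i
    simp only [Mz, mulVec, dotProduct, Finset.sum_insertNone, Pi.add_apply, of_apply, sub_mul,
      Finset.sum_sub_distrib, Option.elim, Finset.sum_apply, Pi.smul_apply, smul_eq_mul,
      ← Finset.mul_sum, mul_comm (t _)]
    ring

lemma perturb {x x' y : Fin d → ℝ} {M M' : Matrix (Fin d) (Fin d) ℝ} {D δ : ℝ} (hD : 0 < D)
    (hδ : 0 < δ) (hM : ∀ i j, |M i j| ≤ 1) (hdet : D ≤ |M.det|) (hx : ∀ i, |x' i - x i| ≤ δ)
    (hM' : ∀ i j, |M' i j - M i j| ≤ δ) (hsmall : 12 * (d + 1) * d ! * δ ≤ D) {p : Fin d → ℝ}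
    (hp : p ∈ par x' M' (1 / (4 * (d + 1))) (3 / (4 * (d + 1)))) (hy : ∀ i, |y i - p i| ≤ δ) :
    y ∈ par x M 0 (1 / (d + 1)) := by
  obtain ⟨t, ht, rfl⟩ := hp
  have hd1 : (0 : ℝ) < d + 1 := by positivity
  have hdet0 : M.det ≠ 0 := by intro h; rw [h, abs_zero] at hdet; linarith
  set e : Fin d → ℝ := y - x - M *ᵥ t with he
  have ht0 : ∀ j, 0 ≤ t j := fun j => le_trans (by positivity) (ht.1 j)
  have hs : ∑ j, t j ≤ 1 := by
    calc ∑ j, t j ≤ ∑ _j : Fin d, (3 / (4 * (d + 1)) : ℝ) := Finset.sum_le_sum fun j _ => ht.2 j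
      _ = d * (3 / (4 * (d + 1))) := by simp
      _ ≤ 1 := by rw [← mul_div_assoc, div_le_one (by positivity)]; linarith
  have he3 : ∀ i, |e i| ≤ 3 * δ := by
    intro i
    have h1 : |((M' - M) *ᵥ t) i| ≤ δ := by
      calc _ = |∑ j, (M' i j - M i j) * t j| := by simp [mulVec, dotProduct]
        _ ≤ ∑ j, |(M' i j - M i j) * t j| := Finset.abs_sum_le_sum_abs _ _
        _ ≤ ∑ j, δ * t j := Finset.sum_le_sum fun j _ => by
            rw [abs_mul, abs_of_nonneg (ht0 j)]
            exact mul_le_mul_of_nonneg_right (hM' i j) (ht0 j)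
        _ ≤ δ := by rw [← Finset.mul_sum]; nlinarith
    have h2 : e i = (y i - (x' + M' *ᵥ t) i) + (x' i - x i) + ((M' - M) *ᵥ t) i := by
      simp [he, sub_mulVec]; ring
    rw [h2]
    linarith [abs_add_three (y i - (x' + M' *ᵥ t) i) (x' i - x i) (((M' - M) *ᵥ t) i), hy i, hx i]
  have hc : ∀ j, |(M.det⁻¹ • cramer M e) j| ≤ 1 / (4 * (d + 1)) := by
    intro j
    have e1 : e = (3 * δ) • ((3 * δ)⁻¹ • e) := by
      rw [smul_smul, mul_inv_cancel₀ (by positivity), one_smul]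
    have h1 : |(M.updateCol j ((3 * δ)⁻¹ • e)).det| ≤ d ! := abs_det_le fun a b => by
      by_cases h : b = j
      · subst h
        rw [Matrix.updateCol_self, Pi.smul_apply, smul_eq_mul, abs_mul, abs_inv,
          abs_of_pos (show 0 < 3 * δ by positivity), inv_mul_le_iff₀ (by positivity), mul_one]
        exact he3 a
      · rw [Matrix.updateCol_ne h]; exact hM a b
    rw [Pi.smul_apply, cramer_apply, e1, det_updateCol_smul, smul_eq_mul, abs_mul, abs_inv,
      abs_mul, abs_of_pos (show 0 < 3 * δ by positivity), inv_mul_le_iff₀ (abs_pos.2 hdet0),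
      mul_one_div, le_div_iff₀ (by positivity)]
    nlinarith [mul_le_mul_of_nonneg_left h1 (show 0 ≤ 3 * δ * (4 * (d + 1)) by positivity)]
  refine ⟨t + M.det⁻¹ • cramer M e, ⟨fun j => ?_, fun j => ?_⟩, ?_⟩
  · have := ht.1 j
    simp only [Pi.add_apply] at this ⊢
    linarith [(abs_le.1 (hc j)).1]
  · have := ht.2 j
    have h4 : (1 : ℝ) / (d + 1) = 3 / (4 * (d + 1)) + 1 / (4 * (d + 1)) := by field_simp; ring
    simp only [Pi.add_apply] at this ⊢
    linarith [(abs_le.1 (hc j)).2]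
  · simp only [mulVec_add, mulVec_inv_cramer hdet0, he]; abel

lemma greedy_step {κ : Type*} (I : Finset κ) (T : κ → Set (Fin d → ℝ)) {θ : ℝ}
    (hm : ∀ c ∈ I, MeasurableSet (T c)) (hc : ∀ c ∈ I, T c ⊆ cube d)
    (hv : ∀ c ∈ I, ENNReal.ofReal θ ≤ volume (T c)) :
    ∃ x, θ * I.card ≤ (I.filter fun c => x ∈ T c).card := by
  have : IsProbabilityMeasure (volume.restrict (cube d)) := ⟨by simp [volume_cube]⟩
  have e : ∫⁻ x in cube d, ∑ c ∈ I, (T c).indicator 1 x = ∑ c ∈ I, volume (T c) := by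
    rw [lintegral_finsetSum' _ fun c hc' => (measurable_one.indicator (hm c hc')).aemeasurable]
    refine Finset.sum_congr rfl fun c hc' => ?_
    rw [lintegral_indicator_one (hm c hc'), Measure.restrict_apply (hm c hc'),
      inter_eq_left.2 (hc c hc')]
  obtain ⟨x, hx⟩ := exists_lintegral_le (μ := volume.restrict (cube d))
    (f := fun x => ∑ c ∈ I, (T c).indicator 1 x) (by
      rw [e]
      exact ENNReal.sum_ne_top.2 fun c hc' =>
        ne_top_of_le_ne_top (by simp [volume_cube]) (measure_mono (hc c hc')))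
  refine ⟨x, ?_⟩
  rw [e] at hx
  have h1 : ∑ c ∈ I, (T c).indicator (1 : (Fin d → ℝ) → ℝ≥0∞) x =
      ((I.filter fun c => x ∈ T c).card : ℝ≥0∞) := by
    simp [indicator, Finset.sum_boole]
  have h2 : ENNReal.ofReal θ * I.card ≤ ∑ c ∈ I, volume (T c) := by
    calc _ = ∑ _c ∈ I, ENNReal.ofReal θ := by simp [mul_comm]
      _ ≤ _ := Finset.sum_le_sum hv
  have h3 := h2.trans (hx.trans h1.le)
  rcases le_total θ 0 with h0 | h0
  · exact (mul_nonpos_of_nonpos_of_nonneg h0 (Nat.cast_nonneg _)).trans (Nat.cast_nonneg _)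
  rw [← ENNReal.ofReal_natCast, ← ENNReal.ofReal_natCast, ← ENNReal.ofReal_mul h0,
    ENNReal.ofReal_le_ofReal_iff (Nat.cast_nonneg _)] at h3
  exact h3

lemma greedy {κ : Type*} (T : κ → Set (Fin d → ℝ)) {θ : ℝ} (hθ : θ ≤ 1) (N : ℕ) (I : Finset κ)
    (hm : ∀ c ∈ I, MeasurableSet (T c)) (hc : ∀ c ∈ I, T c ⊆ cube d)
    (hv : ∀ c ∈ I, ENNReal.ofReal θ ≤ volume (T c)) :
    ∃ P : Fin N → Fin d → ℝ,
      ((I.filter fun c => ∀ n, P n ∉ T c).card : ℝ) ≤ I.card * (1 - θ) ^ N := by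
  induction N generalizing I with
  | zero => exact ⟨Fin.elim0, by simp⟩
  | succ N ih =>
    obtain ⟨x, hx⟩ := greedy_step I T hm hc hv
    obtain ⟨P, hP⟩ := ih (I.filter fun c => ¬ x ∈ T c)
      (fun c h => hm c (Finset.mem_filter.1 h).1) (fun c h => hc c (Finset.mem_filter.1 h).1)
      (fun c h => hv c (Finset.mem_filter.1 h).1)
    refine ⟨Fin.cons x P, ?_⟩
    have h1 : ((I.filter fun c => x ∈ T c).card : ℝ) + (I.filter fun c => ¬ x ∈ T c).card
        = I.card := by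
      exact_mod_cast Finset.card_filter_add_card_filter_not (s := I) (fun c => x ∈ T c)
    have h2 : (I.filter fun c => ∀ n, (Fin.cons x P : Fin (N + 1) → Fin d → ℝ) n ∉ T c) =
        (I.filter fun c => ¬ x ∈ T c).filter fun c => ∀ n, P n ∉ T c := by
      rw [Finset.filter_filter]
      exact Finset.filter_congr fun c _ => by simp [Fin.forall_fin_succ]
    rw [h2, pow_succ', ← mul_assoc]
    refine hP.trans (mul_le_mul_of_nonneg_right (by linarith) (pow_nonneg (by linarith) _))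

/-- `P` is a `δ`-robust net for the open convex subsets of the cube of volume above `θ`. -/
def ConvexNet {N : ℕ} (P : Fin N → Fin d → ℝ) (δ : ℝ) (θ : ℝ) : Prop :=
  ∀ K, Convex ℝ K → IsOpen K → K ⊆ cube d → ENNReal.ofReal θ < volume K →
    ∃ n, ∀ y : Fin d → ℝ, (∀ i, |y i - P n i| ≤ δ) → y ∈ K

lemma floor_close {q : ℕ} (hq : 0 < q) {a b : ℝ} (h : ⌊a * q⌋ = ⌊b * q⌋) : |a - b| ≤ 1 / q := by
  have hq' : (0 : ℝ) < q := by exact_mod_cast hq
  have := Int.abs_sub_lt_one_of_floor_eq_floor h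
  rw [← sub_mul, abs_mul, abs_of_pos hq'] at this
  rw [le_div_iff₀ hq']; exact this.le

lemma floor_mem {q : ℕ} {a : ℝ} (h : |a| ≤ 1) : ⌊a * q⌋ ∈ Finset.Icc (-(q : ℤ)) q := by
  have hq' : (0 : ℝ) ≤ q := Nat.cast_nonneg q
  have h1 := abs_le.1 h
  refine Finset.mem_Icc.2 ⟨Int.le_floor.2 ?_, ?_⟩
  · push_cast; nlinarith
  · have : (⌊a * q⌋ : ℝ) ≤ q := (Int.floor_le _).trans (by nlinarith)
    exact_mod_cast this

lemma net_of_count {v : ℝ} (hv : 0 < v) (hv1 : v ≤ 1) {q N : ℕ} (hq : 0 < q)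
    (hqv : 12 * (d + 1) * d ! * (1 / (q : ℝ)) ≤ v / 4 ^ d)
    (hN : ((2 * q + 1 : ℕ) : ℝ) ^ (d + d * d) * (1 - v / (8 * (d + 1)) ^ d) ^ N < 1) :
    ∃ P : Fin N → Fin d → ℝ, ConvexNet P (1 / q) v := by
  have hq' : (0 : ℝ) < q := by exact_mod_cast hq
  let Good : (Fin d → ℝ) × Matrix (Fin d) (Fin d) ℝ → Prop := fun p =>
    (∀ i j, |p.2 i j| ≤ 1) ∧ v / 4 ^ d ≤ |p.2.det| ∧ par p.1 p.2 0 (1 / (d + 1)) ⊆ cube d
  let key : (Fin d → ℝ) × Matrix (Fin d) (Fin d) ℝ → (Fin d ⊕ Fin d × Fin d) → ℤ := fun p =>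
    Sum.elim (fun i => ⌊p.1 i * q⌋) fun ij => ⌊p.2 ij.1 ij.2 * q⌋
  let I₀ : Finset ((Fin d ⊕ Fin d × Fin d) → ℤ) :=
    Fintype.piFinset fun _ => Finset.Icc (-(q : ℤ)) q
  let I := I₀.filter fun c => ∃ p, Good p ∧ key p = c
  have hI : ∀ c ∈ I, ∃ p, Good p ∧ key p = c := fun c hc => (Finset.mem_filter.1 hc).2
  choose! rep hrep hrep2 using hI
  have hsub : ∀ (x : Fin d → ℝ) (M : Matrix (Fin d) (Fin d) ℝ),
      par x M (1 / (4 * (d + 1))) (3 / (4 * (d + 1))) ⊆ par x M 0 (1 / (d + 1)) := by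
    intro x M
    refine image_mono (Icc_subset_Icc (fun _ => by positivity) fun _ => ?_)
    rw [div_le_div_iff₀ (by positivity) (by positivity)]
    have : (0 : ℝ) ≤ d := Nat.cast_nonneg d
    linarith
  have h8 : (1 : ℝ) ≤ (8 * (d + 1)) ^ d := one_le_pow₀ (by
    have : (0 : ℝ) ≤ d := Nat.cast_nonneg d
    linarith)
  obtain ⟨P, hP⟩ := greedy (fun c => par (rep c).1 (rep c).2 (1 / (4 * (d + 1)))
    (3 / (4 * (d + 1)))) (θ := v / (8 * (d + 1)) ^ d)
    (by rw [div_le_one (by positivity)]; linarith) N I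
    (fun c _ => measurableSet_par _ _ _ _) (fun c hc => (hsub _ _).trans (hrep c hc).2.2)
    (fun c hc => by
      rw [volume_par _ _ (by gcongr; norm_num)]
      refine ENNReal.ofReal_le_ofReal ?_
      have e : (3 / (4 * (d + 1)) - 1 / (4 * (d + 1)) : ℝ) = 4 / (8 * (d + 1)) := by
        field_simp; ring
      rw [e, div_pow, ← mul_div_assoc]
      refine div_le_div_of_nonneg_right ?_ (by positivity)
      have := (hrep c hc).2.1
      rwa [div_le_iff₀ (by positivity)] at this)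
  have hcard : (I.card : ℝ) ≤ ((2 * q + 1 : ℕ) : ℝ) ^ (d + d * d) := by
    have h1 : I.card ≤ I₀.card := Finset.card_filter_le _ _
    have h2 : I₀.card = (2 * q + 1) ^ (d + d * d) := by
      simp only [I₀, Fintype.card_piFinset, Int.card_Icc, Finset.prod_const, Finset.card_univ,
        Fintype.card_sum, Fintype.card_prod, Fintype.card_fin]
      congr 1; omega
    exact_mod_cast h2 ▸ h1
  have h0 : 0 ≤ (1 - v / (8 * (d + 1)) ^ d) ^ N := pow_nonneg (by
    rw [sub_nonneg, div_le_one (by positivity)]; linarith) _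
  have hall := hP.trans_lt ((mul_le_mul_of_nonneg_right hcard h0).trans_lt hN)
  have hempty : (I.filter fun c => ∀ n, P n ∉ par (rep c).1 (rep c).2 (1 / (4 * (d + 1)))
      (3 / (4 * (d + 1)))) = ∅ := by
    have : (I.filter fun c => ∀ n, P n ∉ par (rep c).1 (rep c).2 (1 / (4 * (d + 1)))
      (3 / (4 * (d + 1)))).card < 1 := by exact_mod_cast hall
    exact Finset.card_eq_zero.1 (by omega)
  refine ⟨P, fun K hK hKo hKc hvK => ?_⟩
  obtain ⟨x, M, h1, h2, h3⟩ := inscribe hK hKo hKc hvK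
  have hx : x ∈ cube d := hKc (h3 ⟨0, ⟨fun _ => le_rfl, fun _ => by positivity⟩, by simp⟩)
  have hc : key (x, M) ∈ I := by
    refine Finset.mem_filter.2 ⟨Fintype.mem_piFinset.2 fun a => ?_,
      (x, M), ⟨h1, h2, h3.trans hKc⟩, rfl⟩
    rcases a with i | ⟨i, j⟩
    · have := hx i (mem_univ _)
      exact floor_mem (abs_le.2 ⟨by linarith [this.1], this.2.le⟩)
    · exact floor_mem (h1 i j)
  have := Finset.filter_eq_empty_iff.1 hempty hc
  push Not at this
  obtain ⟨n, hn⟩ := this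
  have hk := hrep2 _ hc
  refine ⟨n, fun y hy => h3 (perturb (D := v / 4 ^ d) (by positivity) (by positivity) h1 h2
    (fun i => floor_close hq (congrFun hk (Sum.inl i)))
    (fun i j => floor_close hq (congrFun hk (Sum.inr (i, j)))) hqv hn hy)⟩

theorem exists_convexNet (d : ℕ) : ∃ C : ℝ, 0 < C ∧ ∀ N : ℕ, 2 ≤ N →
    ∃ (P : Fin N → Fin d → ℝ) (δ : ℝ), 0 < δ ∧ ConvexNet P δ (C * Real.log N / N) := by
  set c₁ : ℝ := 12 * (d + 1) * d ! * 4 ^ d with hc₁
  have hc₁0 : 0 < c₁ := by positivity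
  set c₃ : ℝ := (8 * (d + 1)) ^ d with hc₃
  have hc₃0 : 0 < c₃ := by positivity
  have hl2 : (1 : ℝ) / 2 < Real.log 2 := by linarith [Real.log_two_gt_d9]
  set A : ℝ := ((d + d * d : ℕ) : ℝ) * (2 * Real.log (2 * c₁ + 2) + 1) with hA
  have hlog0 : 0 ≤ Real.log (2 * c₁ + 2) := Real.log_nonneg (by linarith)
  have hA0 : 0 ≤ A := by positivity
  refine ⟨c₃ * (A + 1) + 2, by positivity, fun N hN => ?_⟩
  have hN2 : (2 : ℝ) ≤ N := by exact_mod_cast hN
  have hlN : 1 / 2 < Real.log N := hl2.trans_le (Real.log_le_log two_pos hN2)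
  set v : ℝ := (c₃ * (A + 1) + 2) * Real.log N / N with hv
  have hvN : v * N = (c₃ * (A + 1) + 2) * Real.log N := by rw [hv]; field_simp
  have hvN1 : 1 ≤ v * N := by rw [hvN]; nlinarith [mul_pos hc₃0 (show 0 < A + 1 by linarith)]
  have hv0 : 0 < v := by positivity
  by_cases hv1 : v ≤ 1
  swap
  · refine ⟨0, 1, one_pos, fun K _ _ hKc hK => ?_⟩
    have := hK.trans_le ((measure_mono hKc).trans_eq volume_cube)
    rw [ENNReal.ofReal_lt_one] at this
    exact absurd this.le hv1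
  set q : ℕ := ⌈c₁ * N⌉₊ with hq
  have hq0 : 0 < q := Nat.ceil_pos.2 (by positivity)
  have hq' : (0 : ℝ) < q := by exact_mod_cast hq0
  have hq1 : c₁ * N ≤ q := Nat.le_ceil _
  have hq2 : (q : ℝ) < c₁ * N + 1 := Nat.ceil_lt_add_one (by positivity)
  obtain ⟨P, hP⟩ := net_of_count (d := d) (N := N) hv0 hv1 hq0 (by
    rw [mul_one_div, div_le_div_iff₀ hq' (by positivity), ← hc₁]
    nlinarith) (by
    have h1 : ((2 * q + 1 : ℕ) : ℝ) ≤ (2 * c₁ + 2) * N := by push_cast; nlinarith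
    have h2 : ((2 * q + 1 : ℕ) : ℝ) ^ (d + d * d) ≤ Real.exp (A * Real.log N) := by
      calc _ ≤ ((2 * c₁ + 2) * N) ^ (d + d * d) := pow_le_pow_left₀ (by positivity) h1 _
        _ = Real.exp ((d + d * d : ℕ) * Real.log ((2 * c₁ + 2) * N)) := by
            rw [Real.exp_nat_mul, Real.exp_log (by positivity)]
        _ ≤ _ := by
            refine Real.exp_le_exp.2 ?_
            rw [hA, mul_assoc, Real.log_mul (by positivity) (by positivity)]
            refine mul_le_mul_of_nonneg_left ?_ (Nat.cast_nonneg _)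
            nlinarith
    have h3 : (1 - v / c₃) ^ N ≤ Real.exp (-(v / c₃) * N) := by
      rw [mul_comm, Real.exp_nat_mul]
      refine pow_le_pow_left₀ ?_ (by linarith [Real.add_one_le_exp (-(v / c₃))]) _
      have h8 : (1 : ℝ) ≤ c₃ := one_le_pow₀ (by
        have : (0 : ℝ) ≤ d := Nat.cast_nonneg d
        linarith)
      rw [sub_nonneg, div_le_one hc₃0]; linarith
    have h0 : 0 ≤ (1 - v / c₃) ^ N := by
      refine pow_nonneg ?_ _
      have h8 : (1 : ℝ) ≤ c₃ := one_le_pow₀ (by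
        have : (0 : ℝ) ≤ d := Nat.cast_nonneg d
        linarith)
      rw [sub_nonneg, div_le_one hc₃0]; linarith
    calc _ ≤ Real.exp (A * Real.log N) * Real.exp (-(v / c₃) * N) :=
          mul_le_mul h2 h3 h0 (Real.exp_pos _).le
      _ < 1 := by
          rw [← Real.exp_add, Real.exp_lt_one_iff]
          have : (v / c₃) * N = (A + 1) * Real.log N + 2 * Real.log N / c₃ := by
            rw [div_mul_eq_mul_div, hvN]; field_simp
          have h4 : 0 < 2 * Real.log N / c₃ := by positivity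
          nlinarith)
  exact ⟨P, 1 / q, by positivity, hP⟩

end Pool.Agent.MP_ebf3a9_co.H25
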