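import Pool.Agent.MP_ebf3a9_co.H25.Families
import Pool.Agent.MP_ebf3a9_co.H25.Dual

/-!
Removing the logarithm; packaging of upper bounds.
-/

namespace Pool.Agent.MP_ebf3a9_co.H25

open scoped ENNReal

variable {d k : ℕ}

lemma Lower.poly {e e' : ℝ} (h : Lower d k e) (he : 0 < e) (he' : e' < e) :
    ∃ c : ℝ, 0 < c ∧ ∀ α : ℝ, 1 ≤ α → ∀ n : ℕ, 2 ≤ n →
      ENNReal.ofReal (c * (n : ℝ) ^ e') ≤ (piGen d k α n : ℝ≥0∞) := by
  obtain ⟨c, hc, h⟩ := h
  set δ := (e - e') / e with hδ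
  have hδ0 : 0 < δ := div_pos (by linarith) he
  refine ⟨c * δ ^ e, by positivity, fun α hα n hn =>
    le_trans (ENNReal.ofReal_le_ofReal ?_) (h α hα n hn)⟩
  have hn2 : (2 : ℝ) ≤ n := by exact_mod_cast hn
  have hn0 : (0 : ℝ) < n := by linarith
  have hl : 0 < Real.log n := Real.log_pos (by linarith)
  have h1 : δ * (n : ℝ) ^ (1 - δ) ≤ n / Real.log n := by
    have h2 := Real.log_le_rpow_div hn0.le hδ0
    rw [le_div_iff₀ hδ0] at h2
    rw [le_div_iff₀ hl, Real.rpow_sub hn0, Real.rpow_one, mul_div_assoc', div_mul_eq_mul_div,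
      div_le_iff₀ (by positivity)]
    nlinarith
  have h2 := Real.rpow_le_rpow (by positivity) h1 he.le
  rw [Real.mul_rpow hδ0.le (by positivity), ← Real.rpow_mul hn0.le,
    show (1 - δ) * e = e' by rw [hδ]; field_simp; ring] at h2
  rw [mul_assoc]
  exact mul_le_mul_of_nonneg_left h2 hc.le

lemma Covered.upper {τ : ℝ} (hk : k < d) (h : Covered d k τ) (α : ℝ) {ε : ℝ} (hε : 0 < ε) :
    ∃ C : ℝ, 0 < C ∧ ∀ n : ℕ, 1 ≤ n →
      (piPerp d k α n : ℝ≥0∞) ≤ ENNReal.ofReal (C * (n : ℝ) ^ (τ + ε)) := by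
  obtain ⟨C, hC, u⟩ := upperB hk h α hε
  exact ⟨2 * C, by positivity, fun n hn => by rw [mul_assoc]; exact piPerp_le (u n hn)⟩

lemma covered_div (hk : k < d) : Covered d k ((d : ℝ) / (d - k)) := by
  have hc0 : (0 : ℝ) < d - k := by rw [sub_pos]; exact_mod_cast hk
  intro ρ A h1 _ _
  refine ⟨fun _ => 1 / (d - k), fun _ => by positivity, by simp [div_eq_mul_inv], fun σ hσ => ?_⟩
  rw [Finset.sum_const, nsmul_eq_mul, mul_one_div, le_div_iff₀ hc0, one_mul, ← Nat.cast_sub hk.le,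
    ← h1 σ hσ]
  exact_mod_cast Finset.card_le_card fun i hi => by simp_all

lemma Covered.min {τ τ' : ℝ} (h : Covered d k τ) (h' : Covered d k τ') :
    Covered d k (min τ τ') := by
  rcases le_total τ τ' with h1 | h1
  · rwa [min_eq_left h1]
  · rwa [min_eq_right h1]

end Pool.Agent.MP_ebf3a9_co.H25
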