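import Pool.Agent.MP_ebf3a9_co.H25.Status

/-!
The potential argument: an upper bound `n ^ (τ + ε)` when all compatible families of status
vectors have a fractional cover of weight `τ`.
-/

namespace Pool.Agent.MP_ebf3a9_co.H25

open Set Function
open scoped Classical

variable {d : ℕ}
variable {k : ℕ} {α : ℝ} {S : Finset (Set (Fin d → ℝ))} {L U : Set (Fin d → ℝ) → Fin d → ℝ}

/-- Weight of a status vector. -/
noncomputable def wt (R : ℝ) (σ : Fin d → St) : ℝ := R ^ ∑ i, (σ i).rank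

/-- The potential of a box. -/
noncomputable def pot (S : Finset (Set (Fin d → ℝ))) (L U : Set (Fin d → ℝ) → Fin d → ℝ) (R : ℝ)
    (lo hi : Fin d → ℝ) : ℝ := ∑ r ∈ meet S lo hi, wt R (sv L U lo hi r)

lemma one_le_wt {R : ℝ} (hR : 1 ≤ R) (σ : Fin d → St) : 1 ≤ wt R σ := one_le_pow₀ hR

lemma wt_le {R : ℝ} (hR : 1 ≤ R) (σ : Fin d → St) : wt R σ ≤ R ^ (2 * d) := by
  refine pow_le_pow_right₀ hR ?_
  calc ∑ i, (σ i).rank ≤ ∑ _i : Fin d, 2 := Finset.sum_le_sum fun i _ => by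
        cases σ i <;> simp [St.rank]
    _ = 2 * d := by simp [mul_comm]

lemma wt_degrade {R : ℝ} (hR : 1 ≤ R) {lo hi lo' hi' : Fin d → ℝ} (hs : Sub lo hi lo' hi')
    (r : Set (Fin d → ℝ)) (hne : sv L U lo' hi' r ≠ sv L U lo hi r) :
    wt R (sv L U lo' hi' r) * R ≤ wt R (sv L U lo hi r) := by
  unfold wt
  rw [← pow_succ]
  refine pow_le_pow_right₀ hR (Nat.succ_le_of_lt (Finset.sum_lt_sum (fun i _ => ?_) ?_))
  · rcases st_mono (a := L r i) (b := U r i) (hs.l i) (hs.h i) with h | h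
    · exact le_of_eq (congrArg St.rank h)
    · exact h.le
  · obtain ⟨i, hi0⟩ := Function.ne_iff.1 hne
    exact ⟨i, Finset.mem_univ _, (st_mono (hs.l i) (hs.h i)).resolve_left hi0⟩

lemma equal_cut {lo hi a b : ℝ} {K : ℕ} (hK : 0 < K) (hlh : lo < hi) (ha : lo ≤ a) (hb : b ≤ hi)
    (hfree : ∀ p ∈ (Finset.range K).image fun j : ℕ => lo + j * ((hi - lo) / K),
      ¬(a < p ∧ p < b)) : b - a ≤ (hi - lo) / K := by
  have hK' : (0 : ℝ) < K := by exact_mod_cast hK
  set s := (hi - lo) / K with hs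
  have hs0 : 0 < s := div_pos (by linarith) hK'
  set j := ⌊(a - lo) / s⌋₊ + 1 with hj
  have h0 : 0 ≤ (a - lo) / s := div_nonneg (by linarith) hs0.le
  have h1 : (a - lo) / s < j := by rw [hj]; push_cast; exact Nat.lt_floor_add_one _
  have h2 : (j : ℝ) ≤ (a - lo) / s + 1 := by
    rw [hj]; push_cast; linarith [Nat.floor_le h0]
  rw [div_lt_iff₀ hs0] at h1
  have h3 : (j : ℝ) * s ≤ a - lo + s := by
    have := mul_le_mul_of_nonneg_right h2 hs0.le
    rwa [add_mul, div_mul_cancel₀ _ hs0.ne', one_mul] at this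
  have h4 : b ≤ lo + j * s := by
    by_cases hjK : j < K
    · by_contra hc
      exact hfree _ (Finset.mem_image.2 ⟨j, Finset.mem_range.2 hjK, rfl⟩)
        ⟨by linarith, not_le.1 hc⟩
    · have : (K : ℝ) ≤ j := by exact_mod_cast not_lt.1 hjK
      have h5 : (K : ℝ) * s = hi - lo := by rw [hs]; field_simp
      nlinarith
  linarith

lemma st_eq_T {a b lo hi : ℝ} (h : st a b lo hi = .T) : a ≠ b ∧ lo < a ∧ b < hi := by
  unfold st at h
  by_cases e : a = b <;> by_cases e1 : lo < a <;> by_cases e2 : b < hi <;> simp_all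

lemma st_eq_F {a b lo hi : ℝ} (h : st a b lo hi = .F) : a ≠ b ∧ a ≤ lo ∧ hi ≤ b := by
  unfold st at h
  by_cases e : a = b <;> by_cases e1 : lo < a <;> by_cases e2 : b < hi <;> simp_all

lemma st_eq_C {a b lo hi : ℝ} : st a b lo hi = .C ↔ a = b := by
  unfold st
  by_cases e : a = b <;> by_cases e1 : lo < a <;> by_cases e2 : b < hi <;> simp [e, e1, e2]

lemma feature_mem {a b lo hi lo' hi' : ℝ} (h : st a b lo' hi' = st a b lo hi)
    (hF : st a b lo hi ≠ .F) (h1 : a < hi') (h2 : lo' < b) (hab : a ≤ b) :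
    lo' < (if lo < a then a else b) ∧ (if lo < a then a else b) < hi' := by
  unfold st at h hF
  by_cases e : a = b
  · subst e; simp [h1, h2]
  by_cases e1 : lo' < a <;> by_cases e2 : b < hi' <;> by_cases e3 : lo < a <;>
    by_cases e4 : b < hi <;> simp [e, e1, e2, e3, e4] at h hF ⊢ <;> simp [e1, e2, h1, h2]

/-- One round. -/
lemma Data.round (h : Data k α S L U) (hd : ∀ r ∈ S, ∀ r' ∈ S, r ≠ r' → Disjoint r r')
    (hk : k < d) {τ : ℝ} (hτ : Covered d k τ) {K : ℕ} (hK : 0 < K) (hαK : α ≤ K)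
    {R : ℝ} (hR : 1 ≤ R) {m : ℝ} (hm : 1 ≤ m) (lo hi : Fin d → ℝ) (hlh : ∀ i, lo i < hi i)
    (hcont : ∀ lo' hi', Sub lo hi lo' hi' → pot S L U R lo' hi' * R ≤ 2 * pot S L U R lo hi →
      Cost S (box lo' hi') m) :
    Cost S (box lo hi) ((K + 1) ^ d * 2 ^ 5 ^ d * (5 ^ d * 2 + 1) ^ d * R ^ τ * m) := by
  have hK' : (0 : ℝ) < K := by exact_mod_cast hK
  have hτ0 : 0 ≤ τ := by
    obtain ⟨x, hx, hx2, -⟩ := hτ 0 ∅ (by simp) (by simp) (by simp)
    exact (Finset.sum_nonneg fun i _ => hx i).trans hx2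
  have hRτ : 1 ≤ R ^ τ := Real.one_le_rpow hR hτ0
  have hG : (1 : ℝ) ≤ (5 ^ d * 2 + 1) ^ d := one_le_pow₀ (by
    have : (0 : ℝ) < 5 ^ d := by positivity
    linarith)
  set m₂ : ℝ := (5 ^ d * 2 + 1) ^ d * R ^ τ * m with hm₂
  have hm₂1 : 1 ≤ m₂ := one_le_mul_of_one_le_of_one_le (one_le_mul_of_one_le_of_one_le hG hRτ) hm
  set O := S.filter fun r => ∀ i j, sv L U lo hi r i = .T → sv L U lo hi r j = .F →
    hi j - lo j < hi i - lo i with hO
  have hOS : O ⊆ S := Finset.filter_subset _ _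
  have hcardSt : Fintype.card (Fin d → St) = 5 ^ d := by
    have : Fintype.card St = 5 := rfl
    simp [this]
  refine (cutGrid (fun i => (Finset.range K).image fun j : ℕ => lo i + j * ((hi i - lo i) / K))
    (m := 2 ^ 5 ^ d * m₂) (one_le_mul_of_one_le_of_one_le (one_le_pow₀ one_le_two) hm₂1)
    Finset.univ lo hi hlh fun lo₁ hi₁ hs₁ hfree => ?_).mono subset_rfl ?_
  swap
  · have : ∏ i : Fin d, ((((Finset.range K).image fun j : ℕ =>
        lo i + j * ((hi i - lo i) / K)).card : ℝ) + 1) ≤ ∏ _i : Fin d, ((K : ℝ) + 1) := by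
      refine Finset.prod_le_prod (fun i _ => by positivity) fun i _ => ?_
      have : ((Finset.range K).image fun j : ℕ => lo i + j * ((hi i - lo i) / K)).card ≤ K :=
        Finset.card_image_le.trans (by simp)
      have : (((Finset.range K).image fun j : ℕ => lo i + j * ((hi i - lo i) / K)).card : ℝ)
        ≤ K := by exact_mod_cast this
      linarith
    simp only [Finset.prod_const, Finset.card_univ, Fintype.card_fin] at this
    calc _ ≤ ((K : ℝ) + 1) ^ d * (2 ^ 5 ^ d * m₂) :=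
          mul_le_mul_of_nonneg_right this (by positivity)
      _ = _ := by rw [hm₂]; ring
  have hside : ∀ i, hi₁ i - lo₁ i ≤ (hi i - lo i) / K := fun i =>
    equal_cut hK (hlh i) (hs₁.l i) (hs₁.h i) (hfree i (Finset.mem_univ _))
  refine h.separate hd hk hOS hm₂1 (5 ^ d) lo₁ hi₁ hs₁
    (hcardSt ▸ Finset.card_le_univ _) fun lo₂ hi₂ hs₂ hcomp => ?_
  obtain ⟨x, hx0, hxτ, hx1⟩ := hτ (fun i => hi i - lo i)
    ((meet O lo₂ hi₂).image (sv L U lo hi)) (fun σ hσ => by
      obtain ⟨r, hr, rfl⟩ := Finset.mem_image.1 hσ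
      rw [← h.card_const (hOS (Finset.mem_filter.1 hr).1)]
      congr 1
      exact Finset.filter_congr fun i _ => st_eq_C) (fun σ hσ => by
      obtain ⟨r, hr, rfl⟩ := Finset.mem_image.1 hσ
      exact (Finset.mem_filter.1 (Finset.mem_filter.1 hr).1).2) hcomp
  have hRx : ∀ i, 1 ≤ R ^ x i := fun i => Real.one_le_rpow hR (hx0 i)
  refine (cutQuant (S := S) (G := Fin d → St) (fun r i => if lo i < L r i then L r i else U r i)
    (fun σ => Finset.univ.filter fun i => σ i ≠ .F) (fun i => ⌈R ^ x i⌉₊)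
    (fun i => Nat.one_le_iff_ne_zero.2 fun h0 => by
      rw [Nat.ceil_eq_zero] at h0; linarith [hRx i]) hm Finset.univ lo₂ hi₂ hs₂.lt
    (fun σ => (meet O lo₂ hi₂).filter fun r => sv L U lo hi r = σ)
    fun lo₃ hi₃ hs₃ hq => ?_).mono subset_rfl ?_
  swap
  · refine mul_le_mul_of_nonneg_right ?_ (by linarith)
    calc _ ≤ ∏ i, ((5 ^ d * 2 + 1) * R ^ x i) := by
          refine Finset.prod_le_prod (fun i _ => by positivity) fun i _ => ?_
          rw [hcardSt]
          have h1 := Nat.ceil_lt_add_one (by linarith [hRx i] : 0 ≤ R ^ x i)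
          have h2 : (0 : ℝ) < 5 ^ d := by positivity
          push_cast
          nlinarith [hRx i]
      _ = (5 ^ d * 2 + 1) ^ d * R ^ ∑ i, x i := by
          rw [Finset.prod_mul_distrib, Real.rpow_sum_of_pos (by linarith)]; simp
      _ ≤ _ := mul_le_mul_of_nonneg_left (Real.rpow_le_rpow_of_exponent_le hR hxτ) (by positivity)
  have hs := hs₁.trans (hs₂.trans hs₃)
  refine hcont lo₃ hi₃ hs ?_
  have hwt0 : ∀ σ : Fin d → St, 0 ≤ wt R σ := fun σ => zero_le_one.trans (one_le_wt hR σ)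
  unfold pot
  rw [← Finset.sum_filter_add_sum_filter_not (meet S lo₃ hi₃)
    (fun r => sv L U lo₃ hi₃ r = sv L U lo hi r), add_mul, two_mul]
  refine add_le_add ?_ ?_
  swap
  · rw [Finset.sum_mul]
    calc _ ≤ ∑ r ∈ (meet S lo₃ hi₃).filter fun r => ¬ sv L U lo₃ hi₃ r = sv L U lo hi r,
          wt R (sv L U lo hi r) :=
          Finset.sum_le_sum fun r hr => wt_degrade hR hs r (Finset.mem_filter.1 hr).2
      _ ≤ _ := Finset.sum_le_sum_of_subset_of_nonneg
          ((Finset.filter_subset _ _).trans (meet_mono S hs)) fun r _ _ => hwt0 _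
  set ND := (meet S lo₃ hi₃).filter fun r => sv L U lo₃ hi₃ r = sv L U lo hi r with hND
  have e1 : ∑ r ∈ ND, wt R (sv L U lo₃ hi₃ r) = ∑ r ∈ ND, wt R (sv L U lo hi r) :=
    Finset.sum_congr rfl fun r hr => by rw [(Finset.mem_filter.1 hr).2]
  rw [e1, ← Finset.sum_fiberwise ND (sv L U lo hi),
    ← Finset.sum_fiberwise (meet S lo hi) (sv L U lo hi), Finset.sum_mul]
  refine Finset.sum_le_sum fun σ _ => ?_
  have e2 : ∀ B : Finset (Set (Fin d → ℝ)), ∑ r ∈ B.filter fun r => sv L U lo hi r = σ,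
      wt R (sv L U lo hi r) = (B.filter fun r => sv L U lo hi r = σ).card * wt R σ := by
    intro B
    rw [Finset.sum_congr rfl fun r hr => by rw [(Finset.mem_filter.1 hr).2]]
    simp
  rw [e2, e2, mul_right_comm]
  refine mul_le_mul_of_nonneg_right ?_ (hwt0 σ)
  rcases (ND.filter fun r => sv L U lo hi r = σ).eq_empty_or_nonempty with h0 | ⟨r₀, hr₀⟩
  · rw [h0]; simp
  have hgood : ∀ r ∈ ND, r ∈ meet O lo₂ hi₂ := by
    intro r hr
    have hr1 := Finset.mem_filter.1 hr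
    have hr2 := Finset.mem_filter.1 hr1.1
    refine Finset.mem_filter.2 ⟨Finset.mem_filter.2 ⟨hr2.1, fun i j hT hF => ?_⟩,
      hr2.2.mono (inter_subset_inter_right _ hs₃.subset)⟩
    have t1 := st_eq_T (show st (L r i) (U r i) (lo₃ i) (hi₃ i) = .T from
      (congrFun hr1.2 i).trans hT)
    have t2 := st_eq_F hF
    have t3 := h.fat r hr2.1 j i (lt_of_le_of_ne (h.le r hr2.1 j) t2.1)
      (lt_of_le_of_ne (h.le r hr2.1 i) t1.1)
    have t4 : U r i - L r i < (hi i - lo i) / K := by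
      linarith [hside i, (hs₂.trans hs₃).l i, (hs₂.trans hs₃).h i, t1.2.1, t1.2.2]
    rw [lt_div_iff₀ hK'] at t4
    have t5 : 0 ≤ U r i - L r i := sub_nonneg.2 (h.le r hr2.1 i)
    nlinarith [t2.2.1, t2.2.2, mul_le_mul_of_nonneg_right hαK t5]
  have hσ : σ ∈ (meet O lo₂ hi₂).image (sv L U lo hi) :=
    Finset.mem_image.2 ⟨r₀, hgood r₀ (Finset.mem_filter.1 hr₀).1, (Finset.mem_filter.1 hr₀).2⟩
  have h1 := hq σ
  simp only [Finset.inter_univ] at h1
  have h2 : R ≤ ((∏ i ∈ Finset.univ.filter fun i => σ i ≠ .F, ⌈R ^ x i⌉₊ : ℕ) : ℝ) := by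
    calc R = R ^ (1 : ℝ) := (Real.rpow_one R).symm
      _ ≤ R ^ ∑ i ∈ Finset.univ.filter fun i => σ i ≠ .F, x i :=
          Real.rpow_le_rpow_of_exponent_le hR (hx1 σ hσ)
      _ = ∏ i ∈ Finset.univ.filter fun i => σ i ≠ .F, R ^ x i :=
          Real.rpow_sum_of_pos (by linarith) _ _
      _ ≤ _ := by
          push_cast
          exact Finset.prod_le_prod (fun i _ => by linarith [hRx i]) fun i _ => Nat.le_ceil _
  have h3 : (ND.filter fun r => sv L U lo hi r = σ) ⊆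
      ((meet O lo₂ hi₂).filter fun r => sv L U lo hi r = σ).filter fun o =>
        ∀ i ∈ Finset.univ.filter fun i => σ i ≠ .F,
          lo₃ i < (if lo i < L o i then L o i else U o i) ∧
            (if lo i < L o i then L o i else U o i) < hi₃ i := by
    intro r hr
    have hr0 := Finset.mem_filter.1 hr
    have hr1 := Finset.mem_filter.1 hr0.1
    have hr2 := Finset.mem_filter.1 hr1.1
    refine Finset.mem_filter.2 ⟨Finset.mem_filter.2 ⟨hgood r hr0.1, hr0.2⟩, fun i hi0 => ?_⟩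
    have m1 := h.meets hr2.1 hr2.2 i
    refine feature_mem (hi := hi i) (congrFun hr1.2 i) ?_ m1.1 m1.2 (h.le r hr2.1 i)
    have := (Finset.mem_filter.1 hi0).2
    rw [← hr0.2] at this
    exact this
  have h4 : ((meet O lo₂ hi₂).filter fun r => sv L U lo hi r = σ) ⊆
      (meet S lo hi).filter fun r => sv L U lo hi r = σ := by
    refine Finset.filter_subset_filter _ fun r hr => ?_
    have := Finset.mem_filter.1 (meet_mono O (hs₁.trans hs₂) hr)
    exact Finset.mem_filter.2 ⟨hOS this.1, this.2⟩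
  have h5 := ((Nat.mul_le_mul_right _ (Finset.card_le_card h3)).trans h1).trans
    (Finset.card_le_card h4)
  calc _ ≤ ((ND.filter fun r => sv L U lo hi r = σ).card : ℝ) *
        ((∏ i ∈ Finset.univ.filter fun i => σ i ≠ .F, ⌈R ^ x i⌉₊ : ℕ) : ℝ) :=
        mul_le_mul_of_nonneg_left h2 (Nat.cast_nonneg _)
    _ ≤ _ := by exact_mod_cast h5

lemma Data.iter (h : Data k α S L U) (hd : ∀ r ∈ S, ∀ r' ∈ S, r ≠ r' → Disjoint r r')
    (hk : k < d) {τ : ℝ} (hτ : Covered d k τ) {K : ℕ} (hK : 0 < K) (hαK : α ≤ K)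
    {y B : ℝ} (hy : 1 ≤ y) (hB1 : 1 ≤ B)
    (hB : (K + 1) ^ d * 2 ^ 5 ^ d * (5 ^ d * 2 + 1) ^ d * (2 * y) ^ τ ≤ B) (t : ℕ)
    (lo hi : Fin d → ℝ) (hlh : ∀ i, lo i < hi i) (hp : pot S L U (2 * y) lo hi < y ^ t) :
    Cost S (box lo hi) (B ^ t) := by
  induction t generalizing lo hi with
  | zero =>
    rw [pow_zero] at hp ⊢
    refine cost_leaf fun r hr r' _ h1 _ => ?_
    exfalso
    have hr1 : r ∈ meet S lo hi := Finset.mem_filter.2 ⟨hr, h1⟩
    have := Finset.single_le_sum (f := fun r => wt (2 * y) (sv L U lo hi r))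
      (fun r _ => zero_le_one.trans (one_le_wt (by linarith) _)) hr1
    have h2 := one_le_wt (show 1 ≤ 2 * y by linarith) (sv L U lo hi r)
    unfold pot at hp
    linarith
  | succ t ih =>
    refine (h.round hd hk hτ hK hαK (R := 2 * y) (by linarith) (m := B ^ t) (one_le_pow₀ hB1)
      lo hi hlh fun lo' hi' hs hp' => ih lo' hi' hs.lt ?_).mono subset_rfl ?_
    · rw [pow_succ] at hp
      by_contra hc
      have := mul_le_mul_of_nonneg_right (not_lt.1 hc) (show 0 ≤ 2 * y by linarith)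
      nlinarith
    · rw [pow_succ']
      exact mul_le_mul_of_nonneg_right hB (by positivity)

theorem upperB (hk : k < d) {τ : ℝ} (hτ : Covered d k τ) (α : ℝ) {ε : ℝ} (hε : 0 < ε) :
    ∃ C : ℝ, 0 < C ∧ ∀ n : ℕ, 1 ≤ n → ∀ S : Finset (Set (Fin d → ℝ)), IsInstance k α n S →
      Cost S univ (C * (n : ℝ) ^ (τ + ε)) := by
  have hτ0 : 0 ≤ τ := by
    obtain ⟨x, hx, hx2, -⟩ := hτ 0 ∅ (by simp) (by simp) (by simp)
    exact (Finset.sum_nonneg fun i _ => hx i).trans hx2
  set K : ℕ := ⌈α⌉₊ + 1 with hK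
  have hαK : α ≤ K := by rw [hK]; push_cast; linarith [Nat.le_ceil α]
  set W : ℝ := (K + 1) ^ d * 2 ^ 5 ^ d * (5 ^ d * 2 + 1) ^ d * 2 ^ τ with hW
  have hW0 : 0 < W := by positivity
  set y : ℝ := max 2 (W ^ (1 / ε)) with hy
  have hy2 : 2 ≤ y := le_max_left _ _
  have hWy : W ≤ y ^ ε := by
    calc W = (W ^ (1 / ε)) ^ ε := by
          rw [one_div, Real.rpow_inv_rpow hW0.le hε.ne']
      _ ≤ y ^ ε := Real.rpow_le_rpow (by positivity) (le_max_right _ _) hε.le
  have hB : (K + 1) ^ d * 2 ^ 5 ^ d * (5 ^ d * 2 + 1) ^ d * (2 * y) ^ τ ≤ y ^ (τ + ε) := by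
    rw [Real.mul_rpow (by norm_num) (by linarith), ← mul_assoc, ← hW,
      Real.rpow_add (by linarith), mul_comm]
    exact mul_le_mul_of_nonneg_left hWy (by positivity)
  refine ⟨((2 * y) ^ (2 * d) * y) ^ (τ + ε) + 2 * d, by positivity, fun n hn S hS => ?_⟩
  obtain ⟨L, U, h⟩ := exists_data hS.2.1
  obtain ⟨lo, hi, hlh, hb⟩ := exists_bbox S L U h.eq
  have hn1 : (1 : ℝ) ≤ n := by exact_mod_cast hn
  have hR1 : (1 : ℝ) ≤ (2 * y) ^ (2 * d) := one_le_pow₀ (by linarith)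
  obtain ⟨t, ht1, ht2⟩ := exists_nat_pow_near (x := n * (2 * y) ^ (2 * d)) (y := y)
    (one_le_mul_of_one_le_of_one_le hn1 hR1) (by linarith)
  have hp : pot S L U (2 * y) lo hi < y ^ (t + 1) := by
    refine lt_of_le_of_lt ?_ ht2
    unfold pot
    calc _ ≤ ∑ _r ∈ meet S lo hi, (2 * y) ^ (2 * d) :=
          Finset.sum_le_sum fun r _ => wt_le (by linarith) _
      _ = (meet S lo hi).card * (2 * y) ^ (2 * d) := by simp
      _ ≤ _ := by
          refine mul_le_mul_of_nonneg_right ?_ (by positivity)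
          have : (meet S lo hi).card ≤ n := hS.1 ▸ Finset.card_filter_le _ _
          exact_mod_cast this
  have key := h.iter hS.2.2 hk hτ (K := K) (by omega) hαK (by linarith)
    (Real.one_le_rpow (by linarith) (by linarith)) hB (t + 1) lo hi hlh hp
  refine (cost_univ hb key).mono subset_rfl ?_
  have h1 : (y ^ (τ + ε)) ^ (t + 1) ≤ ((2 * y) ^ (2 * d) * y) ^ (τ + ε) * (n : ℝ) ^ (τ + ε) := by
    rw [← Real.rpow_natCast, ← Real.rpow_mul (by linarith), mul_comm,
      Real.rpow_mul (by linarith), Real.rpow_natCast,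
      ← Real.mul_rpow (by positivity) (by positivity)]
    refine Real.rpow_le_rpow (by positivity) ?_ (by linarith)
    rw [pow_succ]
    nlinarith
  have h2 : (1 : ℝ) ≤ (n : ℝ) ^ (τ + ε) := Real.one_le_rpow hn1 (by linarith)
  have h3 : (0 : ℝ) ≤ d := Nat.cast_nonneg d
  nlinarith

end Pool.Agent.MP_ebf3a9_co.H25
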