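import Pool.Agent.MP_ebf3a9_co.H25.Dual

/-!
Fractional covers in small dimensions, by a verified search.
-/

namespace Pool.Agent.MP_ebf3a9_co.H25

variable {d : ℕ}

/-- The list violates intersection or the bound on pivotal points. -/
def badL (c : ℕ) (t : Fin d) (L : List (Finset (Fin d))) : Bool :=
  L.any fun a => (L.any fun b => decide (a ∩ b = ∅)) ||
    (decide (t ∉ a) && decide (c < (a.filter fun i => L.any fun b => decide (a ∩ b = {i})).card))

/-- Search for a cover. -/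
def searchL (c D : ℕ) (t : Fin d) (all : List (Finset (Fin d))) (X : List (Fin d → ℕ)) :
    ℕ → List (Finset (Fin d)) → Bool
  | 0, _ => false
  | f + 1, L => match X.find? fun x => L.all fun S => decide (D ≤ ∑ i ∈ S, x i) with
    | none => false
    | some x => all.all fun S => decide (D ≤ ∑ i ∈ S, x i) || decide (S.card < c) ||
        badL c t (S :: L) || searchL c D t all X f (S :: L)

lemma searchL_sound {c D : ℕ} {t : Fin d} {all : List (Finset (Fin d))} {X : List (Fin d → ℕ)}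
    (hall : ∀ S, S ∈ all) {F : Set (Finset (Fin d))} (h1 : ∀ S ∈ F, c ≤ S.card)
    (h2 : ∀ L : List (Finset (Fin d)), (∀ S ∈ L, S ∈ F) → badL c t L = false) (f : ℕ)
    (L : List (Finset (Fin d))) (hL : ∀ S ∈ L, S ∈ F) (h : searchL c D t all X f L = true) :
    ∃ x ∈ X, ∀ S ∈ F, D ≤ ∑ i ∈ S, x i := by
  induction f generalizing L with
  | zero => simp [searchL] at h
  | succ f ih =>
    rw [searchL] at h
    split at h
    · simp at h
    · rename_i x hx
      by_cases hc : ∀ S ∈ F, D ≤ ∑ i ∈ S, x i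
      · exact ⟨x, List.mem_of_find?_eq_some hx, hc⟩
      push Not at hc
      obtain ⟨S, hS, hc⟩ := hc
      have hL' : ∀ S' ∈ S :: L, S' ∈ F := by simpa [hS] using hL
      have := List.all_eq_true.1 h S (hall S)
      simp only [hc.not_ge, (h1 S hS).not_gt, h2 _ hL', decide_false, Bool.false_or] at this
      exact ih _ hL' this

theorem covered_of_search {k D N : ℕ} (hk : k < d) (hD : 0 < D) {all : List (Finset (Fin d))}
    {X : List (Fin d → ℕ)} (hall : ∀ S, S ∈ all) (hX : ∀ x ∈ X, ∑ i, x i ≤ N) (f : ℕ)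
    (h : ∀ t, searchL (d - k) D t all X f [] = true) : Covered d k (N / D) := by
  intro ρ A h1 h2 h3
  obtain ⟨t, -, ht⟩ := Finset.univ.exists_max_image ρ ⟨⟨0, by omega⟩, Finset.mem_univ _⟩
  let sp : (Fin d → St) → Finset (Fin d) := fun σ => Finset.univ.filter fun i => σ i ≠ .F
  have k1 : ∀ s s' : St, s.thin ∧ s'.thin → s ≠ .F ∧ s' ≠ .F := by decide
  have k2 : ∀ s s' : St, s.sep s' → s ≠ .F ∧ s' ≠ .F := by decide
  obtain ⟨x, hx, hx2⟩ := searchL_sound (F := sp '' A) hall (by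
      rintro _ ⟨σ, hσ, rfl⟩
      rw [← h1 σ hσ]
      exact Finset.card_le_card fun i hi => by simp_all [sp]) (fun L hL => by
      rw [badL, List.any_eq_false]
      intro a ha
      obtain ⟨σ, hσ, rfl⟩ := hL a ha
      simp only [Bool.or_eq_true, List.any_eq_true, decide_eq_true_eq, Bool.and_eq_true, not_or,
        not_exists, not_and, not_lt]
      refine ⟨fun b hb e => ?_, fun htσ => ?_⟩
      · obtain ⟨σ', hσ', rfl⟩ := hL b hb
        obtain ⟨i, hi⟩ := (h3 σ hσ σ' hσ').exists_common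
        have : i ∈ sp σ ∩ sp σ' := by simp [sp, hi]
        simp [e] at this
      · rw [← h1 σ hσ]
        refine Finset.card_le_card fun i hi => ?_
        obtain ⟨-, b, hb, e⟩ := Finset.mem_filter.1 hi
        obtain ⟨σ', hσ', rfl⟩ := hL b hb
        have key : ∀ j, σ j ≠ .F ∧ σ' j ≠ .F → j = i := fun j hj =>
          Finset.mem_singleton.1 (e ▸ (by simp [sp, hj] : j ∈ sp σ ∩ sp σ'))
        rcases h3 σ hσ σ' hσ' with ⟨j, hj⟩ | ⟨j, j', hne, hj, hj'⟩
        · obtain rfl := key j (k1 _ _ hj)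
          rcases hj.1 with e | e
          · simp [e]
          · exact absurd (h2 σ hσ j t e (by simpa [sp] using htσ)) (ht j (Finset.mem_univ _)).not_gt
        · exact absurd ((key j (k2 _ _ hj)).trans (key j' (k2 _ _ hj')).symm) hne)
    f [] (by simp) (h t)
  have hD' : (0 : ℝ) < D := by exact_mod_cast hD
  refine ⟨fun i => x i / D, fun i => by positivity, ?_, fun σ hσ => ?_⟩
  · rw [← Finset.sum_div]
    gcongr
    exact_mod_cast hX x hx
  · rw [← Finset.sum_div, le_div_iff₀ hD', one_mul]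
    exact_mod_cast hx2 _ ⟨σ, hσ, rfl⟩

/-- All subsets, as a list. -/
def allL (d : ℕ) : List (Finset (Fin d)) := (List.finRange d).sublists.map List.toFinset

lemma mem_allL (S : Finset (Fin d)) : S ∈ allL d := by
  refine List.mem_map.2 ⟨(List.finRange d).filter (· ∈ S), List.mem_sublists.2
    List.filter_sublist, ?_⟩
  ext i; simp

theorem covered_4_2 : Covered 4 2 (5 / 3) := by
  have := covered_of_search (d := 4) (k := 2) (D := 6) (N := 10) (by norm_num) (by norm_num)
    (X := [![2,2,2,2], ![4,2,2,2], ![2,4,2,2], ![2,2,4,2], ![2,2,2,4], ![3,3,3,0], ![3,3,0,3],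
      ![3,0,3,3], ![0,3,3,3]]) mem_allL (by decide) 6 (by decide +kernel)
  norm_num at this; exact this

theorem covered_4_3 : Covered 4 3 (3 / 2) := by
  have := covered_of_search (d := 4) (k := 3) (D := 2) (N := 3) (by norm_num) (by norm_num)
    (X := [![1,1,1,0], ![1,1,0,1], ![1,0,1,1], ![0,1,1,1], ![2,0,0,0], ![0,2,0,0], ![0,0,2,0],
      ![0,0,0,2]]) mem_allL (by decide) 8 (by decide +kernel)
  norm_num at this; exact this

theorem covered_5_3 : Covered 5 3 (7 / 4) := by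
  have := covered_of_search (d := 5) (k := 3) (D := 12) (N := 21) (by norm_num) (by norm_num)
    (X := [
      ![4,4,4,4,4], ![6,6,3,3,3], ![6,3,6,3,3], ![6,3,3,6,3], ![6,3,3,3,6], ![3,6,6,3,3],
      ![3,6,3,6,3], ![3,6,3,3,6], ![3,3,6,6,3], ![3,3,6,3,6], ![3,3,3,6,6], ![9,3,3,3,3],
      ![3,9,3,3,3], ![3,3,9,3,3], ![3,3,3,9,3], ![3,3,3,3,9], ![6,6,6,0,0], ![6,6,0,6,0],
      ![6,6,0,0,6], ![6,0,6,6,0], ![6,0,6,0,6], ![6,0,0,6,6], ![0,6,6,6,0], ![0,6,6,0,6],
      ![0,6,0,6,6], ![0,0,6,6,6], ![8,4,4,4,0], ![8,4,4,0,4], ![8,4,0,4,4], ![8,0,4,4,4],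
      ![4,8,4,4,0], ![4,8,4,0,4], ![4,8,0,4,4], ![4,4,8,4,0], ![4,4,8,0,4], ![4,4,4,8,0],
      ![4,4,4,0,8], ![4,4,0,8,4], ![4,4,0,4,8], ![4,0,8,4,4], ![4,0,4,8,4], ![4,0,4,4,8],
      ![0,8,4,4,4], ![0,4,8,4,4], ![0,4,4,8,4], ![0,4,4,4,8]]) mem_allL (by decide +kernel) 10 (by decide +kernel)
  norm_num at this; exact this

end Pool.Agent.MP_ebf3a9_co.H25
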