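import Pool.Agent.MP_ebf3a9_co.H25.Families

/-!
Designs from transversal designs; the asymptotically optimal lower bound.
-/

namespace Pool.Agent.MP_ebf3a9_co.H25

open Set Function
open scoped Classical ENNReal

variable {d : ℕ}

theorem lower_of_cover {J P Q : Type} [Fintype J] [Fintype P] [Fintype Q] [Nonempty J] {k t : ℕ}
    (hk : k < d) (ht : 0 < t) (hd : Fintype.card P + 2 * Fintype.card Q ≤ d) (L : P → J → Prop)
    (U D : Q → Finset J) (hL : ∀ j, (Finset.univ.filter fun p => L p j).card = d - k)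
    (hL2 : ∀ p, (Finset.univ.filter fun j => L p j).card ≤ t)
    (hQ : ∀ q, (U q).card + (D q).card ≤ t)
    (hpair : ∀ j j', j ≠ j' → (∃ p, L p j ∧ L p j') ∨ (∃ q, j ∈ U q ∧ j' ∈ D q ∧ j' ∉ U q) ∨
      ∃ q, j' ∈ U q ∧ j ∈ D q ∧ j ∉ U q) :
    Lower d k (Fintype.card J / t) := by
  let S : J → Finset (P ⊕ Q × Bool) := fun j => Finset.univ.filter fun i => match i with
    | .inl p => L p j
    | .inr q => q.2 = false ∧ (j ∈ U q.1 ∨ j ∈ D q.1)
  let s : J → P ⊕ Q × Bool → St := fun j i => match i with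
    | .inl p => if L p j then .C else .F
    | .inr q => if j ∈ U q.1 then .P else if j ∈ D q.1 then .M else .F
  have hD : Design (d - k) S s (fun i => ∃ q, i = .inr (q, true))
      (Sum.map id fun q => (q.1, false)) (fun i => ∃ p, i = .inl p) fun _ => False := by
    refine ⟨fun j => ?_, ?_, fun j i hz hs => ?_, ?_, by simp, fun j i hs => ?_,
      fun j j' => ?_⟩
    · rw [← hL j, ← Finset.card_map (⟨Sum.inl, Sum.inl_injective⟩ : P ↪ P ⊕ Q × Bool)]
      congr 1
      ext i
      rcases i with p | q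
      · by_cases h : L p j <;> simp [s, h]
      · simp only [s, Finset.mem_filter, Finset.mem_univ, true_and]
        split_ifs <;> simp
    · rintro _ ⟨q, rfl⟩; simp
    · rcases i with p | ⟨q, b⟩
      · by_cases h : L p j <;> simp_all [s, S]
      · cases b
        · simp only [s] at hs
          split_ifs at hs <;> simp_all [S]
        · exact absurd ⟨q, rfl⟩ hz
    · rintro j _ ⟨q, rfl⟩
      simp only [s]
      split_ifs <;> simp_all [S]
    · rcases i with p | q <;> simp only [s] at hs <;> split_ifs at hs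
    · have key : ∀ p, L p j → L p j' → ∃ i, (s j i).thin ∧ (s j' i).thin := fun p h1 h2 =>
        ⟨.inl p, by simp [s, h1, h2, St.thin]⟩
      by_cases e : j = j'
      · obtain ⟨p, hp⟩ : (Finset.univ.filter fun p => L p j).Nonempty :=
          Finset.card_pos.1 (by rw [hL]; omega)
        have := (Finset.mem_filter.1 hp).2
        exact Or.inl (key p this (e ▸ this))
      rcases hpair j j' e with ⟨p, h1, h2⟩ | ⟨q, h1, h2, h3⟩ | ⟨q, h1, h2, h3⟩
      · exact Or.inl (key p h1 h2)
      · exact Or.inr (Or.inl ⟨_, ⟨q, rfl⟩, by simp [s, h1, h2, h3]⟩)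
      · exact Or.inr (Or.inr ⟨_, ⟨q, rfl⟩, by simp [s, h1, h2, h3]⟩)
  have ht' : (0 : ℝ) < t := by exact_mod_cast ht
  have := hD.lower' hk.le (by simpa [mul_comm] using hd) (w := fun _ => 1 / t)
    (fun j => by positivity) fun i => by
      rw [Finset.sum_const, nsmul_eq_mul]
      have : (Finset.univ.filter fun j => i ∈ S j).card ≤ t := by
        rcases i with p | q
        · simpa [S] using hL2 p
        · refine le_trans (Finset.card_le_card (t := U q.1 ∪ D q.1) fun j hj => ?_)
            ((Finset.card_union_le _ _).trans (hQ _))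
          simp_all [S]
      have h2 : ((Finset.univ.filter fun j => i ∈ S j).card : ℝ) ≤ t := by exact_mod_cast this
      rw [Finset.filter_congr_decidable] at h2 ⊢
      rw [mul_one_div, div_le_one ht']; exact h2
  simpa [div_eq_mul_inv] using this

lemma card_lt_pairs (t : ℕ) :
    2 * Fintype.card {p : Fin t × Fin t // p.1 < p.2} ≤ t * t := by
  have := Fintype.card_le_of_injective
    (fun x : Bool × {p : Fin t × Fin t // p.1 < p.2} => if x.1 then x.2.1 else x.2.1.swap) (by
      rintro ⟨b, ⟨p, hp⟩⟩ ⟨b', ⟨p', hp'⟩⟩ e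
      cases b <;> cases b' <;> simp_all [Prod.ext_iff] <;> omega)
  simpa using this

theorem lower_trans {k s W : ℕ} (hk : k < d) (hs : 0 < s) (hW : 0 < W)
    (hco : ∀ m, 0 < m → m < 2 * s → Nat.Coprime m W)
    (hd : (d - k) * W + (2 * s) * (2 * s) * ((W / s + 1) * ((W - (d - k)) / s + 2)) +
      2 * ((2 * s) * ((W / s + 1) * (W / s + 1)) + 2 * s * (W * s)) ≤ d) :
    Lower d k W := by
  have : NeZero W := ⟨hW.ne'⟩
  have : Nonempty (Fin (2 * s)) := ⟨⟨0, by omega⟩⟩
  set c := d - k with hc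
  let I := {p : Fin (2 * s) × Fin (2 * s) // p.1 < p.2}
  let μ : I → ZMod W := fun p => ((p.1.2 - p.1.1 : ℕ) : ZMod W)
  let blk : Fin (2 * s) → ZMod W → ℕ → Finset (Fin (2 * s) × ZMod W) := fun i m a =>
    (Finset.range s).image fun r => (i, m * ((a + r : ℕ) : ZMod W))
  have hblk : ∀ i m a, (blk i m a).card ≤ s := fun i m a =>
    Finset.card_image_le.trans (by simp)
  let blk' : Fin (2 * s) → ℕ → Finset (Fin (2 * s) × ZMod W) := fun i β =>
    Finset.univ.filter fun j => j.1 = i ∧ j.2.val / s = β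
  have hblk' : ∀ i β, (blk' i β).card ≤ s := fun i β => by
    refine le_trans (Finset.card_le_card fun j hj => ?_) (hblk i 1 (s * β))
    obtain ⟨-, rfl, rfl⟩ := Finset.mem_filter.1 hj
    exact Finset.mem_image.2 ⟨j.2.val % s, Finset.mem_range.2 (Nat.mod_lt _ hs), by
      rw [Nat.div_add_mod]; simp⟩
  have hdiv : ∀ x : ZMod W, x.val / s < W / s + 1 := fun x =>
    Nat.lt_succ_of_le (Nat.div_le_div_right (ZMod.val_lt x).le)
  let Q := (I × Fin (W / s + 1) × Fin ((W - c) / s + 2)) ⊕
    (Fin (2 * s) × Fin (W / s + 1) × Fin (W / s + 1)) ⊕ (Fin (2 * s) × ZMod W × Fin s)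
  let U : Q → Finset (Fin (2 * s) × ZMod W) := Sum.elim (fun q => blk q.1.1.1 (μ q.1) (s * q.2.1))
    (Sum.elim (fun q => blk' q.1 q.2.1) fun q => {(q.1, q.2.1)})
  let D : Q → Finset (Fin (2 * s) × ZMod W) :=
    Sum.elim (fun q => blk q.1.1.2 (μ q.1) (s * q.2.1 + c + s * q.2.2))
    (Sum.elim (fun q => blk' q.1 q.2.2)
      fun q => {(q.1, ((s * (q.2.1.val / s) + q.2.2 : ℕ) : ZMod W))})
  let L : ZMod W × Fin c → Fin (2 * s) × ZMod W → Prop := fun p j =>
    j.2 = p.1 + ((j.1 : ℕ) : ZMod W) * ((p.2 : ℕ) : ZMod W)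
  have cross : ∀ j j' : Fin (2 * s) × ZMod W, j.1 < j'.1 →
      (∃ p, L p j ∧ L p j') ∨ ∃ q, j ∈ U q ∧ j' ∈ D q ∧ j' ∉ U q := by
    rintro ⟨i, x⟩ ⟨i', y⟩ (h : i < i')
    have h' : (i : ℕ) < i' := h
    obtain ⟨u, hu⟩ : IsUnit (μ ⟨(i, i'), h⟩) :=
      (ZMod.isUnit_iff_coprime _ _).2 (hco _ (by simp only; omega) (by simp only; omega))
    have hu' : (u : ZMod W) = ((i' : ℕ) : ZMod W) - ((i : ℕ) : ZMod W) := by
      rw [hu]; simp only [μ]; rw [Nat.cast_sub h'.le]
    set x' : ZMod W := (u⁻¹ : (ZMod W)ˣ) * x with hx'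
    set δ : ZMod W := (u⁻¹ : (ZMod W)ˣ) * (y - x) with hδ
    have ex : x = u * x' := by simp [hx']
    have ey : y = u * (x' + δ) := by simp [hx', hδ, mul_add]
    by_cases hδc : δ.val < c
    · refine Or.inl ⟨(x - ((i : ℕ) : ZMod W) * δ, ⟨δ.val, hδc⟩), by simp [L], ?_⟩
      simp only [L, ZMod.natCast_val, ZMod.cast_id', id_eq]
      rw [ey, mul_add, ← ex, hu']; ring
    · have h1 := Nat.mod_lt x'.val hs
      have h2 := ZMod.val_lt δ
      have h3 : (δ.val + x'.val % s - c) / s < (W - c) / s + 2 := by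
        have : (δ.val + x'.val % s - c) / s ≤ (W - c + s) / s := Nat.div_le_div_right (by omega)
        rw [Nat.add_div_right _ hs] at this
        omega
      refine Or.inr ⟨.inl (⟨(i, i'), h⟩, ⟨_, hdiv x'⟩, ⟨_, h3⟩), ?_, ?_, ?_⟩
      · refine Finset.mem_image.2 ⟨x'.val % s, Finset.mem_range.2 h1, ?_⟩
        simp only [← hu, Nat.div_add_mod, ZMod.natCast_val, ZMod.cast_id', id_eq, ← ex]
      · refine Finset.mem_image.2 ⟨(δ.val + x'.val % s - c) % s,
          Finset.mem_range.2 (Nat.mod_lt _ hs), ?_⟩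
        have e : s * (x'.val / s) + c + s * ((δ.val + x'.val % s - c) / s) +
            (δ.val + x'.val % s - c) % s = x'.val + δ.val := by
          have e1 := Nat.div_add_mod x'.val s
          have e2 := Nat.div_add_mod (δ.val + x'.val % s - c) s
          omega
        simp only [← hu, e, Nat.cast_add, ZMod.natCast_val, ZMod.cast_id', id_eq, ← ey]
      · intro hh
        obtain ⟨r, -, e⟩ := Finset.mem_image.1 hh
        exact h.ne (congrArg Prod.fst e)
  have := lower_of_cover (J := Fin (2 * s) × ZMod W) (t := 2 * s) hk (by omega) (by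
      have := card_lt_pairs (2 * s)
      simp only [Q, Fintype.card_sum, Fintype.card_prod, Fintype.card_fin, ZMod.card]
      refine le_trans ?_ hd
      have := Nat.mul_le_mul_right ((W / s + 1) * ((W - c) / s + 2)) this
      simp only [I]
      nlinarith) L U D (fun j => ?_) (fun p => ?_) (fun q => ?_) fun j j' hne => ?_
  · convert this using 1
    have : (0 : ℝ) < s := by exact_mod_cast hs
    simp; field_simp
  · rw [← hc]
    conv_rhs => rw [← Fintype.card_fin c, ← Finset.card_univ]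
    refine Finset.card_bij (fun p _ => p.2) (by simp) (fun p hp p' hp' e => ?_) fun v _ =>
      ⟨(j.2 - ((j.1 : ℕ) : ZMod W) * ((v : ℕ) : ZMod W), v), by simp [L], rfl⟩
    simp only [L, Finset.mem_filter, Finset.mem_univ, true_and] at hp hp' e
    rw [hp, e] at hp'
    exact Prod.ext (add_right_cancel hp') e
  · conv_rhs => rw [← Fintype.card_fin (2 * s), ← Finset.card_univ]
    refine Finset.card_le_card_of_injOn (fun j => j.1) (by simp) fun j hj j' hj' e => ?_
    simp only [L, Finset.coe_filter, Finset.mem_univ, true_and, mem_ofPred_eq] at hj hj' e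
    exact Prod.ext e (by rw [hj, hj', e])
  · rcases q with q | q | q
    · simp only [U, D, Sum.elim_inl]; linarith [hblk q.1.1.1 (μ q.1) (s * q.2.1),
        hblk q.1.1.2 (μ q.1) (s * q.2.1 + c + s * q.2.2)]
    · simp only [U, D, Sum.elim_inl, Sum.elim_inr]; linarith [hblk' q.1 q.2.1, hblk' q.1 q.2.2]
    · simp only [U, D, Sum.elim_inr, Finset.card_singleton]; omega
  · rcases lt_trichotomy j.1 j'.1 with h | h | h
    · exact (cross j j' h).imp_right Or.inl
    · refine Or.inr (Or.inl ?_)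
      by_cases hb : j.2.val / s = j'.2.val / s
      · refine ⟨.inr (.inr (j.1, j.2, ⟨_, Nat.mod_lt j'.2.val hs⟩)), by simp [U], ?_, ?_⟩
        · simp only [D, Sum.elim_inr, hb, h, Nat.div_add_mod]
          simp
        · simpa [U] using hne.symm
      · exact ⟨.inr (.inl (j.1, ⟨_, hdiv j.2⟩, ⟨_, hdiv j'.2⟩)), by simp [U, blk'],
          by simp [D, blk', h], by simp [U, blk', Ne.symm hb]⟩
    · exact (cross j' j h).imp (fun ⟨p, h1, h2⟩ => ⟨p, h2, h1⟩) Or.inr

end Pool.Agent.MP_ebf3a9_co.H25
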