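import Pool.Agent.MP_ebf3a9_co.H25.Cut

/-!
The upper bound `n ^ (d / (d - k))` by one round of nested quantile cuts.
-/

namespace Pool.Agent.MP_ebf3a9_co.H25

open Set Function
open scoped Classical

variable {d : ℕ}

/-- Corner functions for a set of fat flats. -/
structure Data (k : ℕ) (α : ℝ) (S : Finset (Set (Fin d → ℝ)))
    (L U : Set (Fin d → ℝ) → Fin d → ℝ) : Prop where
  le : ∀ r ∈ S, ∀ i, L r i ≤ U r i
  eq : ∀ r ∈ S, r = Icc (L r) (U r)
  card : ∀ r ∈ S, (Finset.univ.filter fun i => L r i < U r i).card = k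
  fat : ∀ r ∈ S, ∀ i j, L r i < U r i → L r j < U r j → U r i - L r i ≤ α * (U r j - L r j)

lemma exists_data {k : ℕ} {α : ℝ} {S : Finset (Set (Fin d → ℝ))}
    (h : ∀ r ∈ S, IsFatFlat k α r) : ∃ L U, Data k α S L U := by
  choose! L U h1 h2 h3 h4 using h
  exact ⟨L, U, h1, h2, h3, h4⟩

variable {k : ℕ} {α : ℝ} {S : Finset (Set (Fin d → ℝ))} {L U : Set (Fin d → ℝ) → Fin d → ℝ}

lemma Data.meets (h : Data k α S L U) {r : Set (Fin d → ℝ)} (hr : r ∈ S) {lo hi : Fin d → ℝ}
    (hm : (r ∩ box lo hi).Nonempty) (i : Fin d) : L r i < hi i ∧ lo i < U r i := by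
  obtain ⟨x, hx, hx2⟩ := hm
  rw [h.eq r hr] at hx
  exact ⟨(hx.1 i).trans_lt (hx2 i).2, (hx2 i).1.trans_le (hx.2 i)⟩

lemma Data.card_const (h : Data k α S L U) {r : Set (Fin d → ℝ)} (hr : r ∈ S) :
    (Finset.univ.filter fun i => L r i = U r i).card = d - k := by
  have h1 := Finset.card_filter_add_card_filter_not (s := Finset.univ) (fun i => L r i < U r i)
  rw [h.card r hr, Finset.card_univ, Fintype.card_fin] at h1
  have : (Finset.univ.filter fun i => L r i = U r i) =
      Finset.univ.filter fun i => ¬ L r i < U r i := by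
    refine Finset.filter_congr fun i _ => ⟨fun h => by simp [h], fun h' => ?_⟩
    exact le_antisymm (h.le r hr i) (not_lt.1 h')
  rw [this]; omega

lemma Data.few (h : Data k α S L U) (hk : k < d) (M : ℕ) (C : Set (Fin d → ℝ))
    (hC : (S.filter fun r => (r ∩ C).Nonempty).card ≤ M) : Cost S C (2 ^ M) := by
  induction M generalizing C with
  | zero =>
    refine (cost_leaf fun r hr r' _ h1 _ => ?_).mono subset_rfl (by simp)
    have : r ∈ S.filter fun r => (r ∩ C).Nonempty := Finset.mem_filter.2 ⟨hr, h1⟩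
    have := Finset.card_pos.2 ⟨r, this⟩
    omega
  | succ M ih =>
    by_cases h0 : (S.filter fun r => (r ∩ C).Nonempty).card ≤ M
    · exact (ih C h0).mono subset_rfl (pow_le_pow_right₀ one_le_two (Nat.le_succ _))
    obtain ⟨r, hr⟩ : (S.filter fun r => (r ∩ C).Nonempty).Nonempty := Finset.card_pos.1 (by omega)
    have hr' := Finset.mem_filter.1 hr
    obtain ⟨i, hi⟩ : (Finset.univ.filter fun i => L r i = U r i).Nonempty :=
      Finset.card_pos.1 (by rw [h.card_const hr'.1]; omega)
    have hi' := (Finset.mem_filter.1 hi).2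
    have key : ∀ D : Set (Fin d → ℝ), (∀ x ∈ D, x i ≠ L r i) → Cost S (C ∩ D) (2 ^ M) := by
      intro D hD
      refine ih _ ?_
      have : (S.filter fun r => (r ∩ (C ∩ D)).Nonempty) ⊆
          (S.filter fun r => (r ∩ C).Nonempty).erase r := by
        intro s hs
        have hs' := Finset.mem_filter.1 hs
        refine Finset.mem_erase.2 ⟨?_, Finset.mem_filter.2 ⟨hs'.1,
          hs'.2.mono (inter_subset_inter_right _ inter_subset_left)⟩⟩
        rintro rfl
        obtain ⟨x, hx, -, hx2⟩ := hs'.2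
        rw [h.eq s hs'.1] at hx
        exact hD x hx2 (le_antisymm (hi' ▸ hx.2 i) (hx.1 i))
      have h2 := Finset.card_le_card this
      rw [Finset.card_erase_of_mem hr] at h2
      omega
    refine (Cost.cut i (L r i) (key _ fun x hx => ne_of_lt hx)
      (key _ fun x hx => (ne_of_lt hx).symm)).mono subset_rfl (le_of_eq ?_)
    ring

theorem upperA (hk : k < d) : ∃ C : ℝ, 0 < C ∧ ∀ (α : ℝ) (n : ℕ), 1 ≤ n →
    ∀ S : Finset (Set (Fin d → ℝ)), IsInstance k α n S →
      Cost S univ (C * (n : ℝ) ^ ((d : ℝ) / (d - k))) := by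
  refine ⟨(2 ^ d * 2 + 1) ^ d * 2 ^ 2 ^ d + 2 * d + 1, by positivity, fun α n hn S hS => ?_⟩
  obtain ⟨L, U, h⟩ := exists_data hS.2.1
  obtain ⟨lo, hi, hlh, hb⟩ := exists_bbox S L U h.eq
  set c : ℕ := d - k with hc
  have hc1 : 1 ≤ c := by omega
  have hcr : (c : ℝ) = d - k := by rw [hc, Nat.cast_sub hk.le]
  have hn1 : (1 : ℝ) ≤ n := by exact_mod_cast hn
  set y : ℝ := (n : ℝ) ^ (1 / (c : ℝ)) with hy
  have hy1 : 1 ≤ y := Real.one_le_rpow hn1 (by positivity)
  have hyc : y ^ c = n := by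
    rw [hy, one_div, Real.rpow_inv_natCast_pow (by linarith) (by omega)]
  set r : ℕ := ⌈y⌉₊ with hr
  have hr1 : 1 ≤ r := Nat.one_le_iff_ne_zero.2 (by
    intro h0; rw [hr, Nat.ceil_eq_zero] at h0; linarith)
  have hry : (r : ℝ) ≤ 2 * y := by have := Nat.ceil_lt_add_one (by linarith : 0 ≤ y); linarith
  have hnr : n ≤ r ^ c := by
    have : (n : ℝ) ≤ (r : ℝ) ^ c := by
      rw [← hyc]; exact pow_le_pow_left₀ (by linarith) (Nat.le_ceil y) c
    exact_mod_cast this
  have key := cutQuant (S := S) (G := Finset (Fin d)) L id (fun _ => r) (fun _ => hr1)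
    (m := 2 ^ 2 ^ d) (one_le_pow₀ one_le_two) Finset.univ lo hi hlh
    (fun g => S.filter fun s => (Finset.univ.filter fun i => L s i = U s i) = g)
    (fun lo' hi' _ hq => by
      refine h.few hk _ _ ?_
      have hsub : (S.filter fun r => (r ∩ box lo' hi').Nonempty) ⊆
          (Finset.univ.filter fun g : Finset (Fin d) => g.card = c).biUnion fun g =>
            ((S.filter fun s => (Finset.univ.filter fun i => L s i = U s i) = g).filter
              fun o => ∀ i ∈ id g ∩ Finset.univ, lo' i < L o i ∧ L o i < hi' i) := by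
        intro s hs
        have hs' := Finset.mem_filter.1 hs
        refine Finset.mem_biUnion.2 ⟨Finset.univ.filter fun i => L s i = U s i,
          Finset.mem_filter.2 ⟨Finset.mem_univ _, h.card_const hs'.1⟩,
          Finset.mem_filter.2 ⟨Finset.mem_filter.2 ⟨hs'.1, rfl⟩, fun i hi => ?_⟩⟩
        have h1 := h.meets hs'.1 hs'.2 i
        have h2 : L s i = U s i := by simpa using hi
        exact ⟨h2 ▸ h1.2, h1.1⟩
      refine (Finset.card_le_card hsub).trans (Finset.card_biUnion_le.trans ?_)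
      calc _ ≤ ∑ _g ∈ Finset.univ.filter fun g : Finset (Fin d) => g.card = c, 1 := by
            refine Finset.sum_le_sum fun g hg => ?_
            have h1 := hq g
            have h2 : g.card = c := (Finset.mem_filter.1 hg).2
            have h3 : (S.filter fun s => (Finset.univ.filter fun i => L s i = U s i) = g).card
              ≤ n := hS.1 ▸ Finset.card_filter_le _ _
            simp only [id, Finset.inter_univ, Finset.prod_const, h2] at h1 ⊢
            have h4 : 0 < r ^ c := by positivity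
            exact Nat.le_of_mul_le_mul_right (by omega) h4
        _ ≤ ∑ _g : Finset (Fin d), 1 := Finset.sum_le_sum_of_subset (Finset.filter_subset _ _)
        _ = 2 ^ d := by simp)
  refine (cost_univ hb key).mono subset_rfl ?_
  have hyd : y ^ d = (n : ℝ) ^ ((d : ℝ) / (d - k)) := by
    rw [hy, ← Real.rpow_natCast, ← Real.rpow_mul (by linarith), hcr]; congr 1; ring
  have hyd1 : 1 ≤ y ^ d := one_le_pow₀ hy1
  rw [← hyd]
  simp only [Finset.prod_const, Finset.card_univ, Fintype.card_fin, Fintype.card_finset]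
  have h5 : ((2 ^ d : ℕ) : ℝ) * r + 1 ≤ (2 ^ d * 2 + 1) * y := by
    push_cast
    have : (0 : ℝ) < 2 ^ d := by positivity
    nlinarith
  have h6 : (((2 ^ d : ℕ) : ℝ) * r + 1) ^ d ≤ ((2 ^ d * 2 + 1) * y) ^ d :=
    pow_le_pow_left₀ (by positivity) h5 d
  rw [mul_pow] at h6
  have h7 : (0 : ℝ) < 2 ^ 2 ^ d := by positivity
  have h8 : (0 : ℝ) ≤ d := Nat.cast_nonneg d
  nlinarith [mul_le_mul_of_nonneg_right h6 h7.le]

end Pool.Agent.MP_ebf3a9_co.H25
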