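import Pool.Agent.MP_ebf3a9_co.H25.Families

/-!
Wheels and complete graphs.
-/

namespace Pool.Agent.MP_ebf3a9_co.H25

open Set Function
open scoped Classical ENNReal

variable {d : ℕ}

theorem lower_wheel {k m : ℕ} (hk : k + 2 = d) (hm : m + 3 ≤ d) :
    Lower d k (2 - 1 / (m + 2)) := by
  let S : Option (Fin (m + 2)) → Finset (Option (Fin (m + 2))) := fun j =>
    Finset.univ.filter fun i => match j with
      | none => i ≠ none
      | some a => i = none ∨ i = some a
  let s : Option (Fin (m + 2)) → Option (Fin (m + 2)) → St := fun j i => match j with
    | none => if i = none then .F else if i = some 0 ∨ i = some 1 then .C else .T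
    | some a => if i = none ∨ i = some a then .C else .F
  have hD : Design (d - k) S s (fun _ => False) id (fun i => i ≠ none) fun j => j = none := by
    refine ⟨fun j => ?_, by simp, fun j i _ hs => ?_, by simp, fun j i hl hs => ?_,
      fun j i hs => ?_, fun j j' => Or.inl ?_⟩
    · rw [show d - k = 2 by omega]
      cases j with
      | none =>
        rw [Finset.card_eq_two]
        refine ⟨some 0, some 1, by simp, Finset.ext fun i => ?_⟩
        by_cases h1 : i = none <;> by_cases h2 : i = some 0 ∨ i = some 1 <;> simp_all [s]
      | some a =>
        rw [Finset.card_eq_two]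
        refine ⟨none, some a, by simp, Finset.ext fun i => ?_⟩
        by_cases h2 : i = none ∨ i = some a <;> simp [s, h2] <;> tauto
    · cases j with
      | none => by_cases h1 : i = none <;> simp_all [s, S]
      | some a => by_cases h2 : i = none ∨ i = some a <;> simp_all [s, S]
    · subst hl
      by_cases h1 : i = none <;> by_cases h2 : i = some 0 ∨ i = some 1 <;> simp_all [s]
    · cases j with
      | none => by_cases h1 : i = none <;> simp_all [s]
      | some a => by_cases h2 : i = none ∨ i = some a <;> simp_all [s]
    · have key : ∀ a, (s none (some a)).thin := fun a => by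
        by_cases h2 : a = 0 ∨ a = 1 <;> simp [s, St.thin, h2]
      rcases j with _ | a <;> rcases j' with _ | b
      · exact ⟨some 0, key 0, key 0⟩
      · exact ⟨some b, key _, by simp [s, St.thin]⟩
      · exact ⟨some a, by simp [s, St.thin], key _⟩
      · exact ⟨none, by simp [s, St.thin], by simp [s, St.thin]⟩
  have hm' : (0 : ℝ) < m + 2 := by positivity
  have := hD.lower' (by omega) (by simp; omega)
    (w := fun j => match j with | none => 1 - 1 / (m + 2) | some _ => 1 / (m + 2))
    (fun j => by
      cases j
      · simp only [sub_nonneg]; rw [div_le_one hm']; linarith [(Nat.cast_nonneg m : (0 : ℝ) ≤ m)]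
      · positivity) fun i => by
      rw [Finset.sum_filter, Fintype.sum_option]
      cases i with
      | none => simp [S]; field_simp; exact le_rfl
      | some a => simp [S, eq_comm]
  rw [Fintype.sum_option] at this
  convert this using 1
  simp; field_simp; ring

theorem lower_complete {k q : ℕ} (hk : k < d) (hq : d - k ≤ q) (hd : q ^ 2 ≤ d) :
    Lower d k ((q + 1) / 2) := by
  have hc : ∀ a : Fin q, ∃ B : Finset (Fin q), a ∈ B ∧ B.card = d - k := fun a => by
    obtain ⟨B, h1, -, h2⟩ := Finset.exists_subsuperset_card_eq (Finset.subset_univ {a})
      (n := d - k) (by simp; omega) (by simpa using hq)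
    exact ⟨B, by simpa using h1, h2⟩
  choose B hB1 hB2 using hc
  let a₀ : Fin q := ⟨0, by omega⟩
  let S : Option (Fin q) → Finset (Fin q × Fin q) := fun j =>
    Finset.univ.filter fun i => match j with
      | none => i.1 = i.2
      | some a => i.1 ≤ i.2 ∧ (i.1 = a ∨ i.2 = a)
  let s : Option (Fin q) → Fin q × Fin q → St := fun j i => match j with
    | none => if i.1 = i.2 then (if i.1 ∈ B a₀ then .C else .T) else .F
    | some a => if i.1 = a then (if i.2 < a then .M else if i.2 ∈ B a then .C else .P)
        else if i.2 = a then (if a < i.1 then .P else if i.1 ∈ B a then .C else .M) else .F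
  have hD : Design (d - k) S s (fun i => i.2 < i.1) Prod.swap (fun i => i.1 = i.2)
      fun j => j = none := by
    refine ⟨fun j => ?_, fun i hi => ?_, fun j i hz hs => ?_, fun j i hz => ?_,
      fun j i hl hs => ?_, fun j i hs => ?_, fun j j' => ?_⟩
    · cases j with
      | none =>
        rw [← hB2 a₀]
        refine Finset.card_bij (fun i _ => i.1) (fun i hi => ?_) (fun i hi i' hi' e => ?_)
          fun b hb => ⟨(b, b), by simp [s, hb], rfl⟩
        · simp only [s, Finset.mem_filter] at hi
          split_ifs at hi <;> simp_all
        · simp only [s, Finset.mem_filter] at hi hi'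
          split_ifs at hi hi' <;> simp_all [Prod.ext_iff]
      | some a =>
        rw [← hB2 a]
        refine Finset.card_bij (fun i _ => if i.1 = a then i.2 else i.1) (fun i hi => ?_)
          (fun i hi i' hi' e => ?_) fun b hb => ?_
        · simp only [s, Finset.mem_filter] at hi
          split_ifs at hi ⊢ <;> simp_all
        · simp only [s, Finset.mem_filter] at hi hi' e
          split_ifs at hi hi' e <;> simp_all [Prod.ext_iff] <;> omega
        · by_cases hab : b < a
          · exact ⟨(b, a), by simp [s, hb, hab.ne, hab.not_gt], by simp [hab.ne]⟩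
          · exact ⟨(a, b), by simp [s, hb, hab], by simp⟩
    · simp only [Prod.fst_swap, Prod.snd_swap]; omega
    · cases j <;> simp only [s, S, Finset.mem_filter, Finset.mem_univ, true_and] at hs ⊢ <;>
        split_ifs at hs <;> simp_all
    · cases j <;> simp only [s, S, Finset.mem_filter, Finset.mem_univ, true_and, Prod.fst_swap,
        Prod.snd_swap] <;> split_ifs <;> simp_all <;> omega
    · subst hl
      simp only [s] at hs
      split_ifs at hs; simp_all
    · cases j <;> simp only [s] at hs <;> split_ifs at hs; simp_all
    · have key : ∀ a, (s none (a, a)).thin := fun a => by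
        by_cases h2 : a ∈ B a₀ <;> simp [s, St.thin, h2]
      have key2 : ∀ a, (s (some a) (a, a)).thin := fun a => by simp [s, St.thin, hB1]
      have key3 : ∀ a b, a < b → ∃ z : Fin q × Fin q, z.2 < z.1 ∧
          ((s (some a) z.swap = .C ∨ s (some a) z.swap = .P) ∧ s (some a) z = .P) ∧
          ((s (some b) z.swap = .C ∨ s (some b) z.swap = .M) ∧ s (some b) z = .M) := by
        intro a b hab
        refine ⟨(b, a), hab, ?_, ?_⟩
        · by_cases h2 : b ∈ B a <;> simp [s, hab, hab.ne', hab.not_gt, h2]
        · by_cases h2 : a ∈ B b <;> simp [s, hab, hab.ne, hab.not_gt, h2]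
      rcases j with _ | a <;> rcases j' with _ | b
      · exact Or.inl ⟨_, key a₀, key a₀⟩
      · exact Or.inl ⟨_, key b, key2 b⟩
      · exact Or.inl ⟨_, key2 a, key a⟩
      · rcases lt_trichotomy a b with h | rfl | h
        · exact Or.inr (Or.inl (key3 a b h))
        · exact Or.inl ⟨_, key2 a, key2 a⟩
        · exact Or.inr (Or.inr (key3 b a h))
  have := hD.lower' hk.le (by simpa [sq] using hd) (w := fun _ => 1 / 2)
    (fun j => by positivity) fun i => by
      rw [Finset.sum_const, nsmul_eq_mul]
      have : (Finset.univ.filter fun j => i ∈ S j).card ≤ 2 := by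
        by_cases hi : i.1 = i.2
        · refine le_trans (Finset.card_le_card (t := {none, some i.1}) fun j hj => ?_)
            Finset.card_le_two
          cases j <;> simp_all [S]
        · refine le_trans (Finset.card_le_card (t := {some i.1, some i.2}) fun j hj => ?_)
            Finset.card_le_two
          cases j <;> simp_all [S]
          tauto
      have h2 : ((Finset.univ.filter fun j => i ∈ S j).card : ℝ) ≤ 2 := by exact_mod_cast this
      rw [Finset.filter_congr_decidable] at h2 ⊢
      linarith
  convert this using 1
  simp; ring

end Pool.Agent.MP_ebf3a9_co.H25
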